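import Mathlib

/-! An averaging lemma. -/

set_option autoImplicit false

open Finset

namespace Pool.Agent.U234.OD

theorem avg {ι κ : Type*} (I : Finset ι) (J : Finset κ) (w : ι → ℝ) (w' : κ → ℝ)
    (hw : ∀ i ∈ I, 0 < w i) (hw' : ∀ j ∈ J, 0 < w' j) (sw : ∑ i ∈ I, w i = 1)
    (sw' : ∑ j ∈ J, w' j = 1) (a : ι → ℝ) (b : κ → ℝ) (h : ι → κ → ℝ)
    (ha : ∀ i ∈ I, ∀ j ∈ J, a i ≤ h i j) (hb : ∀ i ∈ I, ∀ j ∈ J, b j ≤ h i j) (c η η' : ℝ)
    (e1 : ∑ i ∈ I, w i * a i = η) (e2 : ∑ j ∈ J, w' j * b j = η')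
    (e3 : ∑ i ∈ I, ∑ j ∈ J, w i * w' j * h i j ≤ η + c) (e4 : η ≤ η' + c) :
    ∃ i ∈ I, ∃ j ∈ J, h i j - a i ≤ 10 * c ∧ h i j - b j ≤ 10 * c ∧ |a i - η| ≤ 10 * c ∧
      |b j - η| ≤ 10 * c := by
  classical
  have sa : ∑ i ∈ I, ∑ j ∈ J, w i * w' j * a i = η := by
    rw [← e1]
    refine sum_congr rfl fun i _ => ?_
    have : ∀ j, w i * w' j * a i = w i * a i * w' j := fun j => by ring
    simp only [this]
    rw [← mul_sum, sw', mul_one]
  have sb : ∑ i ∈ I, ∑ j ∈ J, w i * w' j * b j = η' := by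
    rw [← e2]
    have : ∀ i j, w i * w' j * b j = w i * (w' j * b j) := fun i j => by ring
    simp only [this, ← mul_sum]
    rw [← sum_mul, sw, one_mul]
  have s1 : ∑ i ∈ I, ∑ j ∈ J, w i * w' j = 1 := by
    simp only [← mul_sum]
    rw [← sum_mul, sw, sw', one_mul]
  have hh : η' ≤ η + c := by
    rw [← sb]
    refine le_trans (sum_le_sum fun i hi => sum_le_sum fun j hj => ?_) e3
    exact mul_le_mul_of_nonneg_left (hb i hi j hj) (mul_pos (hw i hi) (hw' j hj)).le
  -- the total defect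
  set P := ∑ i ∈ I, ∑ j ∈ J, w i * w' j * ((h i j - a i) + (h i j - b j)) with hP
  have hP3 : P ≤ 3 * c := by
    have : P = 2 * ∑ i ∈ I, ∑ j ∈ J, w i * w' j * h i j - η - η' := by
      rw [hP, ← sa, ← sb, mul_sum, ← sum_sub_distrib, ← sum_sub_distrib]
      refine sum_congr rfl fun i _ => ?_
      rw [mul_sum, ← sum_sub_distrib, ← sum_sub_distrib]
      exact sum_congr rfl fun j _ => by ring
    rw [this]
    linarith
  have A1 : ∑ i ∈ I, w i * |a i - η'| ≤ P := by
    refine sum_le_sum fun i hi => ?_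
    have k1 : a i - η' = ∑ j ∈ J, w' j * (a i - b j) := by
      simp only [mul_sub]
      rw [sum_sub_distrib, e2, ← sum_mul, sw', one_mul]
    have k2 : |a i - η'| ≤ ∑ j ∈ J, w' j * ((h i j - a i) + (h i j - b j)) := by
      rw [k1]
      refine (abs_sum_le_sum_abs _ _).trans (sum_le_sum fun j hj => ?_)
      rw [abs_mul, abs_of_pos (hw' j hj)]
      refine mul_le_mul_of_nonneg_left (abs_le.2 ⟨?_, ?_⟩) (hw' j hj).le
      · linarith [ha i hi j hj, hb i hi j hj]
      · linarith [ha i hi j hj, hb i hi j hj]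
    refine (mul_le_mul_of_nonneg_left k2 (hw i hi).le).trans (le_of_eq ?_)
    rw [mul_sum]
    exact sum_congr rfl fun j _ => by ring
  have B1 : ∑ j ∈ J, w' j * |b j - η| ≤ P := by
    rw [hP, sum_comm]
    refine sum_le_sum fun j hj => ?_
    have k1 : b j - η = ∑ i ∈ I, w i * (b j - a i) := by
      simp only [mul_sub]
      rw [sum_sub_distrib, e1, ← sum_mul, sw, one_mul]
    have k2 : |b j - η| ≤ ∑ i ∈ I, w i * ((h i j - a i) + (h i j - b j)) := by
      rw [k1]
      refine (abs_sum_le_sum_abs _ _).trans (sum_le_sum fun i hi => ?_)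
      rw [abs_mul, abs_of_pos (hw i hi)]
      refine mul_le_mul_of_nonneg_left (abs_le.2 ⟨?_, ?_⟩) (hw i hi).le
      · linarith [ha i hi j hj, hb i hi j hj]
      · linarith [ha i hi j hj, hb i hi j hj]
    refine (mul_le_mul_of_nonneg_left k2 (hw' j hj).le).trans (le_of_eq ?_)
    rw [mul_sum]
    exact sum_congr rfl fun i _ => by ring
  have A2 : ∑ i ∈ I, w i * |a i - η| ≤ P + c := by
    have k1 : ∀ i ∈ I, w i * |a i - η| ≤ w i * |a i - η'| + w i * c := by
      intro i hi
      rw [← mul_add]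
      refine mul_le_mul_of_nonneg_left ?_ (hw i hi).le
      have k2 : |η' - η| ≤ c := abs_le.2 ⟨by linarith, by linarith⟩
      have k3 : a i - η = (a i - η') + (η' - η) := by ring
      rw [k3]
      exact (abs_add_le _ _).trans (by linarith)
    refine (sum_le_sum k1).trans ?_
    rw [sum_add_distrib, ← sum_mul, sw, one_mul]
    linarith
  by_contra hno
  push Not at hno
  have hI : I.Nonempty := by
    rw [nonempty_iff_ne_empty]
    rintro rfl
    simp at sw
  have hJ : J.Nonempty := by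
    rw [nonempty_iff_ne_empty]
    rintro rfl
    simp at sw'
  have key : ∀ i ∈ I, ∀ j ∈ J, w i * w' j * (10 * c) <
      w i * w' j * (((h i j - a i) + (h i j - b j)) + |a i - η| + |b j - η|) := by
    intro i hi j hj
    refine mul_lt_mul_of_pos_left ?_ (mul_pos (hw i hi) (hw' j hj))
    have k1 := ha i hi j hj
    have k2 := hb i hi j hj
    have k3 := abs_nonneg (a i - η)
    have k4 := abs_nonneg (b j - η)
    by_contra hle
    push Not at hle
    have := hno i hi j hj (by linarith) (by linarith) (by linarith)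
    linarith
  have h5 : ∑ i ∈ I, ∑ j ∈ J, w i * w' j * (10 * c) <
      ∑ i ∈ I, ∑ j ∈ J, w i * w' j *
        (((h i j - a i) + (h i j - b j)) + |a i - η| + |b j - η|) :=
    sum_lt_sum_of_nonempty hI fun i hi => sum_lt_sum_of_nonempty hJ fun j hj => key i hi j hj
  have h6 : ∑ i ∈ I, ∑ j ∈ J, w i * w' j * (10 * c) = 10 * c := by
    simp only [← sum_mul]
    rw [s1, one_mul]
  have h7 : ∑ i ∈ I, ∑ j ∈ J, w i * w' j *
        (((h i j - a i) + (h i j - b j)) + |a i - η| + |b j - η|) =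
      P + ∑ i ∈ I, w i * |a i - η| + ∑ j ∈ J, w' j * |b j - η| := by
    have g1 : ∑ i ∈ I, w i * |a i - η| = ∑ i ∈ I, ∑ j ∈ J, w i * w' j * |a i - η| := by
      refine sum_congr rfl fun i _ => ?_
      have : ∀ j, w i * w' j * |a i - η| = w i * |a i - η| * w' j := fun j => by ring
      simp only [this]
      rw [← mul_sum, sw', mul_one]
    have g2 : ∑ j ∈ J, w' j * |b j - η| = ∑ i ∈ I, ∑ j ∈ J, w i * w' j * |b j - η| := by
      have : ∀ i j, w i * w' j * |b j - η| = w i * (w' j * |b j - η|) := fun i j => by ring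
      simp only [this, ← mul_sum]
      rw [← sum_mul, sw, one_mul]
    rw [g1, g2, hP, ← sum_add_distrib, ← sum_add_distrib]
    refine sum_congr rfl fun i _ => ?_
    rw [← sum_add_distrib, ← sum_add_distrib]
    exact sum_congr rfl fun j _ => by ring
  rw [h6, h7] at h5
  linarith

end Pool.Agent.U234.OD
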