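import Mathlib

/-! A finite averaging argument: most classes have the same type. -/

set_option autoImplicit false

open Finset

namespace Pool.Agent.U234.OD

theorem combine {ι : Type*} (I : Finset ι) (w a : ι → ℝ) (h : ι → ι → ℝ) (M κ η c : ℝ)
    (hw : ∀ i ∈ I, 0 ≤ w i) (sw : ∑ i ∈ I, w i = 1) (hM : 2 / 3 ≤ M) (hκ : 0 < κ)
    (ha0 : ∀ i ∈ I, 0 ≤ a i) (haM : ∀ i ∈ I, a i ≤ M)
    (hah : ∀ i ∈ I, ∀ j ∈ I, a i ≤ h i j ∧ a j ≤ h i j)
    (e1 : ∑ i ∈ I, w i * a i = η)
    (e2 : ∑ i ∈ I, ∑ j ∈ I, w i * w j * h i j ≤ η + c) (hη : M / 2 ≤ η)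
    (good : ∀ i ∈ I, ∀ j ∈ I, h i j - a i ≤ κ → h i j - a j ≤ κ →
      (a i ≤ 1 / 4 ∧ a j ≤ 1 / 4) ∨
      (1 / 4 < a i ∧ 1 / 4 < a j ∧ M - a i ≤ 5 * (3 + M) * (h i j - a i))) :
    M - η ≤ (15 + 5 * M + 12 * M / κ) * c := by
  classical
  set bad : ι → ι → ℝ := fun i j => if h i j - a i ≤ κ ∧ h i j - a j ≤ κ then 0 else 1 with hbad
  set sm : ι → ℝ := fun i => if a i ≤ 1 / 4 then 1 else 0 with hsm
  have ww : ∀ i ∈ I, ∀ j ∈ I, 0 ≤ w i * w j := fun i hi j hj => mul_nonneg (hw i hi) (hw j hj)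
  have s1 : ∑ i ∈ I, ∑ j ∈ I, w i * w j = 1 := by
    simp only [← mul_sum]
    rw [← sum_mul, sw, one_mul]
  have sa : ∑ i ∈ I, ∑ j ∈ I, w i * w j * a i = η := by
    rw [← e1]
    refine sum_congr rfl fun i _ => ?_
    have : ∀ j, w i * w j * a i = w i * a i * w j := fun j => by ring
    simp only [this]
    rw [← mul_sum, sw, mul_one]
  have sb : ∑ i ∈ I, ∑ j ∈ I, w i * w j * a j = η := by
    rw [← e1]
    have : ∀ i j, w i * w j * a j = w i * (w j * a j) := fun i j => by ring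
    simp only [this, ← mul_sum]
    rw [← sum_mul, sw, one_mul]
  have F1 : ∑ i ∈ I, ∑ j ∈ I, w i * w j * (h i j - a i) ≤ c := by
    simp only [mul_sub, sum_sub_distrib]
    rw [sa]; linarith
  have F1' : ∑ i ∈ I, ∑ j ∈ I, w i * w j * (h i j - a j) ≤ c := by
    simp only [mul_sub, sum_sub_distrib]
    rw [sb]; linarith
  have F1a : ∑ i ∈ I, ∑ j ∈ I, w i * w j * ((h i j - a i) + (h i j - a j)) ≤ 2 * c := by
    simp only [mul_add (_ * _ : ℝ), sum_add_distrib]
    linarith
  obtain ⟨mb, hmb⟩ : ∃ mb, mb = ∑ i ∈ I, ∑ j ∈ I, w i * w j * bad i j := ⟨_, rfl⟩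
  have F2 : κ * mb ≤ 2 * c := by
    refine le_trans ?_ F1a
    rw [hmb, mul_sum]
    refine sum_le_sum fun i hi => ?_
    rw [mul_sum]
    refine sum_le_sum fun j hj => ?_
    have h1 := hah i hi j hj
    have h2 : κ * bad i j ≤ (h i j - a i) + (h i j - a j) := by
      rw [hbad]
      simp only
      split_ifs with h3
      · linarith
      · rw [not_and_or] at h3
        rcases h3 with h3 | h3 <;> push Not at h3 <;> linarith
    calc κ * (w i * w j * bad i j) = w i * w j * (κ * bad i j) := by ring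
      _ ≤ _ := mul_le_mul_of_nonneg_left h2 (ww i hi j hj)
  have F4 : ∀ i ∈ I, ∀ j ∈ I, M - a i ≤ 5 * (3 + M) * (h i j - a i) + M * bad i j + M * sm i := by
    intro i hi j hj
    have h1 := hah i hi j hj
    have h2 := ha0 i hi
    have h0 : 0 ≤ 5 * (3 + M) * (h i j - a i) :=
      mul_nonneg (by linarith) (by linarith)
    by_cases hb : h i j - a i ≤ κ ∧ h i j - a j ≤ κ
    · have e : bad i j = 0 := if_pos hb
      rw [e]
      rcases good i hi j hj hb.1 hb.2 with h3 | h3
      · have e' : sm i = 1 := if_pos h3.1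
        rw [e']; linarith
      · have e' : 0 ≤ sm i := by
          rw [hsm]; simp only; split_ifs <;> norm_num
        have : 0 ≤ M * sm i := mul_nonneg (by linarith) e'
        linarith [h3.2.2]
    · have e : bad i j = 1 := if_neg hb
      rw [e]
      have e' : 0 ≤ sm i := by
        rw [hsm]; simp only; split_ifs <;> norm_num
      have : 0 ≤ M * sm i := mul_nonneg (by linarith) e'
      linarith
  have F5 : ∀ i ∈ I, ∀ j ∈ I, sm i * (1 - sm j) ≤ bad i j := by
    intro i hi j hj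
    by_cases hb : h i j - a i ≤ κ ∧ h i j - a j ≤ κ
    · have e : bad i j = 0 := if_pos hb
      rw [e]
      rcases good i hi j hj hb.1 hb.2 with h3 | h3
      · have e1 : sm j = 1 := if_pos h3.2
        rw [e1]; simp
      · have e1 : sm i = 0 := if_neg (not_le.2 h3.1)
        rw [e1]; simp
    · have e : bad i j = 1 := if_neg hb
      rw [e, hsm]
      simp only
      split_ifs <;> norm_num
  obtain ⟨ws, hws⟩ : ∃ ws, ws = ∑ i ∈ I, w i * sm i := ⟨_, rfl⟩
  have F6 : ws * (1 - ws) ≤ mb := by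
    have h1 : ws * (1 - ws) = ∑ i ∈ I, ∑ j ∈ I, w i * w j * (sm i * (1 - sm j)) := by
      have h2 : ∀ i j, w i * w j * (sm i * (1 - sm j)) = (w i * sm i) * (w j * (1 - sm j)) :=
        fun i j => by ring
      simp only [h2, ← mul_sum]
      rw [← sum_mul, ← hws]
      congr 1
      simp only [mul_sub, mul_one, sum_sub_distrib]
      rw [sw, hws]
    rw [h1, hmb]
    exact sum_le_sum fun i hi => sum_le_sum fun j hj =>
      mul_le_mul_of_nonneg_left (F5 i hi j hj) (ww i hi j hj)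
  have ws0 : 0 ≤ ws := by
    rw [hws]
    refine sum_nonneg fun i hi => mul_nonneg (hw i hi) ?_
    rw [hsm]; simp only; split_ifs <;> norm_num
  have F7 : η ≤ ws * (1 / 4) + (1 - ws) * M := by
    rw [← e1]
    have h1 : ws * (1 / 4) + (1 - ws) * M = ∑ i ∈ I, w i * (sm i * (1 / 4) + (1 - sm i) * M) := by
      have h2 : ∀ i, w i * (sm i * (1 / 4) + (1 - sm i) * M) =
          w i * sm i * (1 / 4) + (w i * M - w i * sm i * M) := fun i => by ring
      simp only [h2]
      rw [sum_add_distrib, sum_sub_distrib, ← sum_mul, ← sum_mul, ← sum_mul, sw, ← hws]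
      ring
    rw [h1]
    refine sum_le_sum fun i hi => mul_le_mul_of_nonneg_left ?_ (hw i hi)
    rw [hsm]
    simp only
    split_ifs with h3
    · linarith
    · linarith [haM i hi]
  have F8 : ws ≤ 5 * mb := by
    have h1 : 1 / 5 ≤ 1 - ws := by
      by_contra hno
      push Not at hno
      have h2 : 4 / 5 < ws := by linarith
      have h3 : ws * (M - 1 / 4) ≤ M / 2 := by nlinarith
      nlinarith
    nlinarith
  have F9 : M - η ≤ 5 * (3 + M) * c + M * mb + M * ws := by
    have h1 : M - η = ∑ i ∈ I, ∑ j ∈ I, w i * w j * (M - a i) := by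
      simp only [mul_sub, sum_sub_distrib, ← sum_mul]
      rw [s1, one_mul]
      have : ∑ i ∈ I, (∑ j ∈ I, w i * w j) * a i = η := by
        rw [← sa]
        exact sum_congr rfl fun i _ => by rw [sum_mul]
      rw [this]
    rw [h1]
    have h2 : ∑ i ∈ I, ∑ j ∈ I, w i * w j * (M - a i) ≤ ∑ i ∈ I, ∑ j ∈ I, w i * w j *
        (5 * (3 + M) * (h i j - a i) + M * bad i j + M * sm i) :=
      sum_le_sum fun i hi => sum_le_sum fun j hj =>
        mul_le_mul_of_nonneg_left (F4 i hi j hj) (ww i hi j hj)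
    refine h2.trans ?_
    have h3 : ∀ i j, w i * w j * (5 * (3 + M) * (h i j - a i) + M * bad i j + M * sm i) =
        5 * (3 + M) * (w i * w j * (h i j - a i)) + M * (w i * w j * bad i j) +
          M * (w i * sm i * w j) := fun i j => by ring
    simp only [h3, sum_add_distrib, ← mul_sum]
    rw [← hmb, sw]
    simp only [mul_one]
    rw [← hws]
    have h4 : 5 * (3 + M) * ∑ i ∈ I, ∑ j ∈ I, w i * w j * (h i j - a i) ≤ 5 * (3 + M) * c :=
      mul_le_mul_of_nonneg_left F1 (by linarith)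
    linarith
  have F10 : mb ≤ 2 * c / κ := by
    rw [le_div_iff₀ hκ]; linarith
  have F11 : M * mb + M * ws ≤ 12 * M / κ * c := by
    have h1 : M * ws ≤ M * (5 * mb) := mul_le_mul_of_nonneg_left F8 (by linarith)
    have h2 : M * mb ≤ M * (2 * c / κ) := mul_le_mul_of_nonneg_left F10 (by linarith)
    have h3 : 12 * M / κ * c = 6 * (M * (2 * c / κ)) := by ring
    rw [h3]
    linarith
  have h5 : (15 + 5 * M + 12 * M / κ) * c = 5 * (3 + M) * c + 12 * M / κ * c := by ring
  rw [h5]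
  linarith

end Pool.Agent.U234.OD
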