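import Pool.Agent.U234.OD.Def

/-! The deficit of the entropy is bounded by the cost. -/

set_option autoImplicit false
set_option linter.unusedSectionVars false

open Finset Real
open Pool.Agent.U234.LD

namespace Pool.Agent.U234.OD

variable {ι κ G : Type*} [AddCommGroup G] [Fintype G]

open scoped Classical in
/-- the coset `v + P` -/
noncomputable def cos (P : AddSubgroup G) (v : G) : Finset G := univ.filter fun x => x - v ∈ P

theorem mem_cos {P : AddSubgroup G} {v x : G} : x ∈ cos P v ↔ x - v ∈ P := by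
  unfold cos
  simp

theorem card_cos (P : AddSubgroup G) (v : G) : (cos P v).card = Nat.card P := by
  classical
  have h1 : (univ.filter fun s : G => s ∈ P).card = Nat.card P := by
    rw [Nat.card_eq_fintype_card, Fintype.card_subtype]
  rw [← h1]
  refine card_bij (fun x _ => x - v) ?_ ?_ ?_
  · intro x hx
    rw [mem_filter]
    exact ⟨mem_univ _, mem_cos.1 hx⟩
  · intro x _ y _ h
    exact sub_left_injective h
  · intro s hs
    refine ⟨s + v, mem_cos.2 ?_, by simp⟩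
    rw [add_sub_cancel_right]
    exact (mem_filter.1 hs).2

/-- the sum over pairs -/
theorem pair_sum (B : Finset κ) (V : κ → G) (hB : B.Nonempty) (φ : G → ℝ) :
    ∑ b' ∈ B, ∑ b ∈ B, φ (V b - V b') =
      (B.card : ℝ) ^ 2 * ∑ s, φ s * ∑ y, sl B V y ^ 2 * sl B V (y + s) ^ 2 := by
  have h1 : ∀ b' ∈ B, ∑ b ∈ B, φ (V b - V b') =
      B.card * ∑ x, sl B V x ^ 2 * φ (x - V b') := by
    intro b' _
    exact sum_val B hB V (fun x => φ (x - V b'))
  rw [sum_congr rfl h1, ← mul_sum]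
  have h2 := sum_val B hB V (fun y => ∑ x, sl B V x ^ 2 * φ (x - y))
  rw [h2, ← mul_assoc, ← sq]
  congr 1
  have h3 : ∀ y, ∑ x, sl B V x ^ 2 * φ (x - y) = ∑ s, sl B V (y + s) ^ 2 * φ s := by
    intro y
    refine Fintype.sum_equiv (Equiv.subRight y) _ _ fun x => ?_
    simp
  simp only [h3, mul_sum]
  rw [sum_comm]
  refine sum_congr rfl fun s _ => sum_congr rfl fun y _ => ?_
  ring

/-- the law of the differences is bounded below -/
theorem pair_lower (P : AddSubgroup G) (p : ℕ) (hp : 0 < p) (hP : Nat.card P = p)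
    (B : Finset κ) (V : κ → G) (hB : B.Nonempty) (hV : ∀ a ∈ B, ∀ b ∈ B, V a - V b ∈ P)
    (ε : ℝ) (hε1 : ε ≤ 1 / 100) (hε : 0 < ε)
    (hinv : ∀ s ∈ P, D (tr s (sl B V)) (sl B V) ≤ 2 * ε) (φ : G → ℝ) (hφ : ∀ x, 0 ≤ φ x) :
    (B.card : ℝ) ^ 2 * ((1 - 2 * ε ^ 2) ^ 2 / p * ∑ s ∈ cos P 0, φ s) ≤
      ∑ b' ∈ B, ∑ b ∈ B, φ (V b - V b') := by
  classical
  rw [pair_sum B V hB φ]
  refine mul_le_mul_of_nonneg_left ?_ (by positivity)
  have pp : (0 : ℝ) < p := by exact_mod_cast hp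
  obtain ⟨b₀, hb₀⟩ := id hB
  have hz : ∀ x, x ∉ cos P (V b₀) → sl B V x = 0 := by
    intro x hx
    refine sl_zero B V x fun a ha h => hx ?_
    rw [mem_cos, ← h]
    exact hV a ha b₀ hb₀
  have sg : ∑ x, sl B V x ^ 2 = 1 := sum_sl B hB V
  rw [mul_sum]
  have h1 : ∀ s ∈ cos P 0, (1 - 2 * ε ^ 2) ^ 2 / p * φ s ≤
      φ s * ∑ y, sl B V y ^ 2 * sl B V (y + s) ^ 2 := by
    intro s hs
    rw [mem_cos, sub_zero] at hs
    rw [mul_comm (φ s)]
    refine mul_le_mul_of_nonneg_right ?_ (hφ s)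
    have h2 := hinv s hs
    have h3 := D_sq_unit (tr s (sl B V)) (sl B V)
      (by rw [sum_tr s (sl B V) (fun t => t ^ 2)]; exact sg) sg
    have h4 : ∑ x, tr s (sl B V) x * sl B V x = ∑ y, sl B V y * sl B V (y + s) := by
      refine Fintype.sum_equiv (Equiv.subRight s) _ _ fun x => ?_
      unfold tr
      simp
    rw [h4] at h3
    have h5 := D_nonneg (tr s (sl B V)) (sl B V)
    have h6 : 1 - 2 * ε ^ 2 ≤ ∑ y, sl B V y * sl B V (y + s) := by nlinarith
    have h7 : ∑ y, sl B V y * sl B V (y + s) =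
        ∑ y ∈ cos P (V b₀), sl B V y * sl B V (y + s) := by
      symm
      refine sum_subset (subset_univ _) fun y _ hy => ?_
      rw [hz y hy, zero_mul]
    have h8 : (∑ y ∈ cos P (V b₀), sl B V y * sl B V (y + s)) ^ 2 ≤
        p * ∑ y ∈ cos P (V b₀), (sl B V y * sl B V (y + s)) ^ 2 := by
      have := sq_sum_le_card_mul_sum_sq (s := cos P (V b₀))
        (f := fun y => sl B V y * sl B V (y + s))
      rwa [card_cos, hP] at this
    have h9 : ∑ y ∈ cos P (V b₀), (sl B V y * sl B V (y + s)) ^ 2 ≤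
        ∑ y, sl B V y ^ 2 * sl B V (y + s) ^ 2 := by
      refine (sum_le_sum_of_subset_of_nonneg (subset_univ _) fun _ _ _ => sq_nonneg _).trans
        (le_of_eq ?_)
      exact sum_congr rfl fun y _ => by ring
    rw [h7] at h6
    have h10 : 0 ≤ 1 - 2 * ε ^ 2 := by nlinarith
    have h11 : (1 - 2 * ε ^ 2) ^ 2 ≤ (∑ y ∈ cos P (V b₀), sl B V y * sl B V (y + s)) ^ 2 :=
      pow_le_pow_left₀ h10 h6 2
    rw [div_le_iff₀ pp]
    calc (1 - 2 * ε ^ 2) ^ 2 ≤ p * ∑ y ∈ cos P (V b₀), (sl B V y * sl B V (y + s)) ^ 2 :=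
          h11.trans h8
      _ ≤ p * ∑ y, sl B V y ^ 2 * sl B V (y + s) ^ 2 := mul_le_mul_of_nonneg_left h9 pp.le
      _ = _ := by ring
  refine (sum_le_sum h1).trans ?_
  exact sum_le_sum_of_subset_of_nonneg (subset_univ _) fun s _ _ =>
    mul_nonneg (hφ s) (sum_nonneg fun _ _ => by positivity)

/-- the average of the distances of the translates -/
theorem avg_tr (P : AddSubgroup G) (p : ℕ) (hP : Nat.card P = p)
    (A : Finset ι) (U : ι → G) (hA : A.Nonempty) (hU : ∀ a ∈ A, ∀ b ∈ A, U a - U b ∈ P) :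
    ∑ s ∈ cos P 0, D (tr s (sl A U)) (sl A U) ^ 2 = 2 * p - 2 * (∑ x, sl A U x) ^ 2 := by
  classical
  have sf : ∑ x, sl A U x ^ 2 = 1 := sum_sl A hA U
  have h1 : ∀ s ∈ cos P 0, D (tr s (sl A U)) (sl A U) ^ 2 =
      2 - 2 * ∑ x, sl A U (x - s) * sl A U x := fun s _ =>
    D_sq_unit _ _ (by rw [sum_tr s (sl A U) (fun t => t ^ 2)]; exact sf) sf
  rw [sum_congr rfl h1, sum_sub_distrib, sum_const, nsmul_eq_mul, card_cos, hP, ← mul_sum,
    sum_comm]
  have h2 : ∀ x, ∑ s ∈ cos P 0, sl A U (x - s) * sl A U x = (∑ y, sl A U y) * sl A U x := by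
    intro x
    by_cases hx : sl A U x = 0
    · rw [hx]; simp
    · rw [← sum_mul]
      congr 1
      obtain ⟨a, ha, hax⟩ : ∃ a ∈ A, U a = x := by
        by_contra hc
        push Not at hc
        exact hx (sl_zero A U x hc)
      have h3 : ∑ y, sl A U y = ∑ y ∈ cos P x, sl A U y := by
        symm
        refine sum_subset (subset_univ _) fun y _ hy => ?_
        refine sl_zero A U y fun b hb h => hy ?_
        rw [mem_cos, ← h, ← hax]
        exact hU b hb a ha
      rw [h3]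
      refine sum_bij (fun s _ => x - s) ?_ ?_ ?_ ?_
      · intro s hs
        rw [mem_cos, sub_zero] at hs
        rw [mem_cos, sub_sub_cancel_left]
        exact P.neg_mem hs
      · intro s _ t _ h
        exact sub_right_injective h
      · intro y hy
        rw [mem_cos] at hy
        refine ⟨x - y, ?_, by simp⟩
        rw [mem_cos, sub_zero, ← neg_sub]
        exact P.neg_mem hy
      · intro s _
        rfl
  rw [sum_congr rfl fun x _ => h2 x, ← mul_sum, ← sq]
  ring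

/-- the deficit and the affinity with the uniform law -/
theorem deficit_aff (P : AddSubgroup G) (p : ℕ) (hp : 0 < p) (hP : Nat.card P = p)
    (A : Finset ι) (U : ι → G) (hA : A.Nonempty) (hU : ∀ a ∈ A, ∀ b ∈ A, U a - U b ∈ P) :
    log p * A.card - K A U ≤ A.card * ((3 + log p) * (2 - 2 * ((∑ x, sl A U x) / √p))) := by
  classical
  have pp : (0 : ℝ) < p := by exact_mod_cast hp
  have lp : 0 ≤ log (p : ℝ) := log_nonneg (by exact_mod_cast hp)
  have np : (0 : ℝ) < A.card := by exact_mod_cast card_pos.2 hA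
  set f := sl A U with hf
  have sf : ∑ x, f x ^ 2 = 1 := sum_sl A hA U
  have sp : 0 < √(p : ℝ) := sqrt_pos.2 pp
  have spq : √(p : ℝ) ^ 2 = p := sq_sqrt pp.le
  obtain ⟨a₀, ha₀⟩ := id hA
  have hz : ∀ x, x ∉ cos P (U a₀) → f x = 0 := by
    intro x hx
    refine sl_zero A U x fun a ha h => hx ?_
    rw [mem_cos, ← h]
    exact hU a ha a₀ ha₀
  have e1 : log p * A.card - K A U = ∑ a ∈ A, 2 * log (√p * f (U a)) := by
    rw [K_eq, mul_comm, ← nsmul_eq_mul, ← sum_const, ← sum_sub_distrib]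
    refine sum_congr rfl fun a ha => ?_
    have p1 : (0 : ℝ) < N A U a := by exact_mod_cast N_pos ha
    have h1 := sl_val A U a
    have h2 : 0 < f (U a) := by
      refine pos_of_sq (sl_nonneg _ _ _) ?_
      rw [hf, h1]; positivity
    have h3 : (2 : ℝ) * log (√p * f (U a)) = log ((√p * f (U a)) ^ 2) := by
      rw [log_pow]; norm_num
    rw [h3, mul_pow, spq, hf, h1, ← log_div pp.ne' (by positivity)]
    congr 1
    field_simp
  have e2 := sum_val A hA U (fun x => 2 * log (√p * f x))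
  rw [e1, e2]
  refine mul_le_mul_of_nonneg_left ?_ np.le
  have e3 : ∑ x, f x ^ 2 * (2 * log (√p * f x)) =
      ∑ x ∈ cos P (U a₀), f x ^ 2 * (2 * log (√p * f x)) := by
    symm
    refine sum_subset (subset_univ _) fun x _ hx => ?_
    rw [hz x hx]; simp
  have e3' : ∑ g, sl A U g ^ 2 * (2 * log (√p * f g)) =
      ∑ x, f x ^ 2 * (2 * log (√p * f x)) := rfl
  rw [e3', e3]
  have h1 : ∀ x ∈ cos P (U a₀), f x ^ 2 * (2 * log (√p * f x)) ≤
      1 / p * ((√p * f x) ^ 2 - 1 + (3 + log p) * (√p * f x - 1) ^ 2) := by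
    intro x _
    have fx : 0 ≤ f x := sl_nonneg _ _ _
    have fx1 : f x ^ 2 ≤ 1 := by
      rw [← sf]
      exact single_le_sum (f := fun x => f x ^ 2) (fun y _ => sq_nonneg (f y)) (mem_univ x)
    have h2 := phi_ineq (y := √p * f x) (M := log p) (by positivity) lp (by
      rcases fx.eq_or_lt with h | h
      · rw [← h, mul_zero, log_zero, mul_zero]; exact lp
      · have h3 : (2 : ℝ) * log (√p * f x) = log ((√p * f x) ^ 2) := by
          rw [log_pow]; norm_num
        rw [h3, mul_pow, spq]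
        refine log_le_log (by positivity) ?_
        nlinarith)
    have h4 : f x ^ 2 * (2 * log (√p * f x)) =
        1 / p * ((√p * f x) ^ 2 * (2 * log (√p * f x))) := by
      rw [mul_pow, spq]
      field_simp
    rw [h4]
    exact mul_le_mul_of_nonneg_left h2 (by positivity)
  refine (sum_le_sum h1).trans (le_of_eq ?_)
  rw [← mul_sum, sum_add_distrib, sum_sub_distrib, ← mul_sum, sum_const, nsmul_eq_mul, mul_one,
    card_cos, hP]
  have s1 : ∑ x ∈ cos P (U a₀), (√p * f x) ^ 2 = p := by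
    have : ∑ x ∈ cos P (U a₀), f x ^ 2 = 1 := by
      rw [← sf]
      refine sum_subset (subset_univ _) fun x _ hx => ?_
      rw [hz x hx]; simp
    simp only [mul_pow, spq]
    rw [← mul_sum, this, mul_one]
  have s2 : ∑ x ∈ cos P (U a₀), f x = ∑ x, f x :=
    sum_subset (subset_univ _) fun x _ hx => hz x hx
  have s3 : ∑ x ∈ cos P (U a₀), (√p * f x - 1) ^ 2 = 2 * p - 2 * √p * ∑ x, f x := by
    have : ∀ x, (√p * f x - 1) ^ 2 = (√p * f x) ^ 2 - 2 * √p * f x + 1 := fun x => by ring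
    simp only [this]
    rw [sum_add_distrib, sum_sub_distrib, s1, ← mul_sum, s2, sum_const, nsmul_eq_mul, mul_one,
      card_cos, hP]
    ring
  rw [s1, s3]
  have e4 : (∑ x, f x) / √p = (√p * ∑ x, f x) / p := by
    rw [div_eq_div_iff sp.ne' pp.ne']
    have h7 : (∑ x, f x) * (√(p : ℝ) ^ 2) = (√p * ∑ x, f x) * √p := by ring
    rw [spq] at h7
    exact h7
  rw [e4]
  field_simp
  ring

/-- **The deficit.** -/
theorem deficit (P : AddSubgroup G) (p : ℕ) (hp : p.Prime) (hP : Nat.card P = p)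
    (A : Finset ι) (B : Finset κ) (U : ι → G) (V : κ → G) (hA : A.Nonempty) (hB : B.Nonempty)
    (hU : ∀ a ∈ A, ∀ b ∈ A, U a - U b ∈ P) (hV : ∀ a ∈ B, ∀ b ∈ B, V a - V b ∈ P)
    (ε : ℝ) (hε : 0 < ε) (hε1 : ε ≤ 1 / 100)
    (h1 : K (A ×ˢ B) (fun z => U z.1 + V z.2) - B.card * K A U ≤ ε ^ 4 / 64 * (A.card * B.card))
    (h2 : K (A ×ˢ B) (fun z => U z.1 + V z.2) - A.card * K B V ≤
      ε ^ 4 / 64 * (A.card * B.card)) :
    K B V ≤ 5 * ε * B.card ∨ K A U ≤ 5 * ε * A.card ∨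
      ((log p / 2 + 1 / 10) * A.card ≤ K A U ∧
        B.card * (log p * A.card - K A U) ≤
          5 * (3 + log p) * (K (A ×ˢ B) (fun z => U z.1 + V z.2) - B.card * K A U)) := by
  classical
  have np : (0 : ℝ) < A.card := by exact_mod_cast card_pos.2 hA
  have mp : (0 : ℝ) < B.card := by exact_mod_cast card_pos.2 hB
  have pp : (0 : ℝ) < p := by exact_mod_cast hp.pos
  have lp : 0 ≤ log (p : ℝ) := log_nonneg (by exact_mod_cast hp.one_lt.le)
  have cp : 0 ≤ ε ^ 4 / 64 * (A.card * B.card) := by positivity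
  obtain ⟨H, u₀, v₀, h3, h4, _⟩ := structure_lemma A B U V hA hB ε hε hε1 h1 (by linarith)
  obtain ⟨H', u₁, v₁, h5, h6, _⟩ := structure_lemma B A V U hB hA ε hε hε1
    (by rw [K_swap A B U V]; linarith) (by rw [K_swap A B U V]; linarith)
  by_cases hH : H = ⊥
  · left
    subst hH
    exact triv_case A B U V hA hB ε hε hε1 h1 u₀ h4
  by_cases hH' : H' = ⊥
  · right; left
    subst hH'
    exact triv_case B A V U hB hA ε hε hε1 (by rw [K_swap A B U V]; linarith) u₁ h6
  right; right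
  have i1 := full_inv P p hp hP A U hA hU ε hε hε1 H hH h3
  have i2 := full_inv P p hp hP B V hB hV ε hε hε1 H' hH' h5
  refine ⟨nontriv_case A U hA p hp.two_le ε hε hε1 P hP.ge i1, ?_⟩
  set f := sl A U with hf
  set w := sw A B U V with hw
  set X := ∑ b ∈ B, D (tr (V b) f) w ^ 2 with hX
  have k1 : A.card * X ≤ K (A ×ˢ B) (fun z => U z.1 + V z.2) - B.card * K A U :=
    hell A B U V hA hB
  have k2 : ∑ b' ∈ B, ∑ b ∈ B, D (tr (V b - V b') f) f ^ 2 ≤ 4 * B.card * X := by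
    have h7 : ∀ b' ∈ B, ∀ b ∈ B, D (tr (V b - V b') f) f ^ 2 ≤
        2 * D (tr (V b') f) w ^ 2 + 2 * D (tr (V b) f) w ^ 2 := by
      intro b' _ b _
      have e : D (tr (V b - V b') f) f = D (tr (V b) f) (tr (V b') f) := by
        rw [← D_tr (V b') (tr (V b - V b') f) f, tr_tr]
        congr 2
        abel
      have h8 := D_triangle (tr (V b) f) w (tr (V b') f)
      rw [D_comm w] at h8
      rw [e]
      have n1 := D_nonneg (tr (V b) f) (tr (V b') f)
      have n2 := D_nonneg (tr (V b) f) w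
      have n3 := D_nonneg (tr (V b') f) w
      have h9 : D (tr (V b) f) (tr (V b') f) ^ 2 ≤ (D (tr (V b) f) w + D (tr (V b') f) w) ^ 2 :=
        pow_le_pow_left₀ n1 h8 2
      nlinarith [sq_nonneg (D (tr (V b) f) w - D (tr (V b') f) w)]
    refine (sum_le_sum fun b' hb' => sum_le_sum fun b hb => h7 b' hb' b hb).trans (le_of_eq ?_)
    simp only [sum_add_distrib, ← mul_sum, sum_const, nsmul_eq_mul]
    rw [← hX]
    ring
  have k3 := pair_lower P p hp.pos hP B V hB hV ε hε1 hε i2 (fun s => D (tr s f) f ^ 2)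
    (fun _ => sq_nonneg _)
  have k4 : ∑ s ∈ cos P 0, D (tr s f) f ^ 2 = 2 * p - 2 * (∑ x, f x) ^ 2 :=
    avg_tr P p hP A U hA hU
  have k5 : log p * A.card - K A U ≤
      A.card * ((3 + log p) * (2 - 2 * ((∑ x, f x) / √p))) :=
    deficit_aff P p hp.pos hP A U hA hU
  obtain ⟨α, hα⟩ : ∃ α, α = (∑ x, f x) / √(p : ℝ) := ⟨_, rfl⟩
  have sp : 0 < √(p : ℝ) := sqrt_pos.2 pp
  have α0 : 0 ≤ α := by
    rw [hα]
    exact div_nonneg (sum_nonneg fun _ _ => sl_nonneg _ _ _) sp.le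
  have α2 : (∑ x, f x) ^ 2 = p * α ^ 2 := by
    rw [hα, div_pow, sq_sqrt pp.le]
    field_simp
  rw [α2] at k4
  have k6 : 0 ≤ ∑ s ∈ cos P 0, D (tr s f) f ^ 2 := sum_nonneg fun _ _ => sq_nonneg _
  have α1 : α ≤ 1 := by
    rw [k4] at k6
    have h7 : p * α ^ 2 ≤ p * 1 := by linarith
    have h8 := le_of_mul_le_mul_left h7 pp
    nlinarith
  have k7 : (1 - 2 * ε ^ 2) ^ 2 * (B.card * (2 - 2 * α ^ 2)) ≤ 4 * X := by
    have h7 := k3.trans k2
    rw [k4] at h7
    have h8 : (B.card : ℝ) ^ 2 * ((1 - 2 * ε ^ 2) ^ 2 / p * (2 * p - 2 * (p * α ^ 2))) =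
        B.card * ((1 - 2 * ε ^ 2) ^ 2 * (B.card * (2 - 2 * α ^ 2))) := by
      field_simp
    rw [h8] at h7
    have h9 : B.card * ((1 - 2 * ε ^ 2) ^ 2 * (B.card * (2 - 2 * α ^ 2))) ≤
        B.card * (4 * X) := by linarith
    exact le_of_mul_le_mul_left h9 mp
  have k8 : B.card * (2 - 2 * α ^ 2) ≤ 5 * X := by
    have h7 : 4 / 5 ≤ (1 - 2 * ε ^ 2) ^ 2 := by
      have : ε ^ 2 ≤ 1 / 10000 := by nlinarith
      nlinarith
    have h8 : 0 ≤ B.card * (2 - 2 * α ^ 2) := mul_nonneg mp.le (by nlinarith)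
    have := mul_le_mul_of_nonneg_right h7 h8
    linarith
  have k9 : B.card * (2 - 2 * α) ≤ 5 * X := by
    refine le_trans (mul_le_mul_of_nonneg_left ?_ mp.le) k8
    nlinarith
  rw [← hα] at k5
  have k10 : B.card * (log p * A.card - K A U) ≤
      B.card * (A.card * ((3 + log p) * (2 - 2 * α))) := mul_le_mul_of_nonneg_left k5 mp.le
  have k11 : B.card * (A.card * ((3 + log p) * (2 - 2 * α))) =
      A.card * (3 + log p) * (B.card * (2 - 2 * α)) := by ring
  have k12 : A.card * (3 + log p) * (B.card * (2 - 2 * α)) ≤ A.card * (3 + log p) * (5 * X) :=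
    mul_le_mul_of_nonneg_left k9 (by positivity)
  have k13 : A.card * (3 + log p) * (5 * X) = 5 * (3 + log p) * (A.card * X) := by ring
  have k14 := mul_le_mul_of_nonneg_left k1 (by positivity : 0 ≤ 5 * (3 + log (p : ℝ)))
  linarith

end Pool.Agent.U234.OD
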