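import Pool.Agent.U234.OD.Inv

/-! The inverse theorem for entropies. -/

set_option autoImplicit false
set_option linter.unusedSectionVars false

open Finset Real
open Pool.Agent.U234.LD

namespace Pool.Agent.U234.OD

variable {ι κ G : Type*} [AddCommGroup G]

open scoped Classical in
/-- the entropy of an indicator function -/
theorem K_ind (A : Finset ι) (hA : A.Nonempty) (P : ι → Prop) (ε : ℝ) (hε : 0 < ε) (hε1 : ε ≤ 1)
    (h : ((A.filter fun a => ¬ P a).card : ℝ) ≤ ε ^ 2 * A.card)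
    (h0 : (A.filter fun a => P a).Nonempty) :
    K A (fun a => decide (P a)) ≤ 2 * ε * A.card := by
  have np : (0 : ℝ) < A.card := by exact_mod_cast card_pos.2 hA
  set n0 : ℝ := ((A.filter fun a => P a).card : ℝ) with hn0
  set n1 : ℝ := ((A.filter fun a => ¬ P a).card : ℝ) with hn1
  have hs : n0 + n1 = A.card := by
    rw [hn0, hn1]; exact_mod_cast card_filter_add_card_filter_not (s := A) (fun a => P a)
  have p0 : 0 < n0 := by rw [hn0]; exact_mod_cast card_pos.2 h0
  have p1 : 0 ≤ n1 := by positivity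
  rw [K_eq, ← sum_filter_add_sum_filter_not A (fun a => P a)]
  have e0 : ∑ a ∈ A.filter (fun a => P a), log ((A.card : ℝ) / N A (fun a => decide (P a)) a) =
      n0 * log (A.card / n0) := by
    rw [hn0, ← nsmul_eq_mul, ← sum_const]
    refine sum_congr rfl fun a ha => ?_
    have ha2 := (mem_filter.1 ha).2
    congr 2
    unfold N
    congr 2
    ext b
    simp [ha2]
  have e1 : ∑ a ∈ A.filter (fun a => ¬ P a), log ((A.card : ℝ) / N A (fun a => decide (P a)) a) =
      n1 * log (A.card / n1) := by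
    rw [hn1, ← nsmul_eq_mul, ← sum_const]
    refine sum_congr rfl fun a ha => ?_
    have ha2 := (mem_filter.1 ha).2
    congr 2
    unfold N
    congr 2
    ext b
    simp [ha2]
  rw [e0, e1]
  have b0 : n0 * log (A.card / n0) ≤ n1 := by
    have := log_le_sub_one_of_pos (x := (A.card : ℝ) / n0) (by positivity)
    have h3 := mul_le_mul_of_nonneg_left this p0.le
    rw [mul_sub, mul_div_cancel₀ _ p0.ne', mul_one] at h3
    linarith
  have b1 : n1 * log (A.card / n1) ≤ ε * A.card := by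
    rcases p1.eq_or_lt with h3 | h3
    · rw [← h3, zero_mul]; positivity
    · have h4 := log_le_div_exp (x := √((A.card : ℝ) / n1)) (by positivity)
      rw [log_sqrt (by positivity)] at h4
      have h5 : (2 : ℝ) < exp 1 := by have := exp_one_gt_d9; linarith
      have h6 : √((A.card : ℝ) / n1) / exp 1 ≤ √((A.card : ℝ) / n1) / 2 :=
        div_le_div_of_nonneg_left (sqrt_nonneg _) (by norm_num) h5.le
      have h7 : log ((A.card : ℝ) / n1) ≤ √((A.card : ℝ) / n1) := by linarith
      have h8 : n1 * √((A.card : ℝ) / n1) ≤ ε * A.card := by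
        refine abs_le_of_sq_le_sq' ?_ (by positivity) |>.2
        rw [mul_pow, sq_sqrt (by positivity)]
        have h9 : n1 ^ 2 * ((A.card : ℝ) / n1) = n1 * A.card := by field_simp
        rw [h9]
        nlinarith
      exact (mul_le_mul_of_nonneg_left h7 h3.le).trans h8
  have h9 : ε ^ 2 ≤ ε := by nlinarith
  nlinarith

/-- the trivial subgroup -/
theorem triv_case [Fintype G] (A : Finset ι) (B : Finset κ) (U : ι → G) (V : κ → G) (hA : A.Nonempty)
    (hB : B.Nonempty) (ε : ℝ) (hε : 0 < ε) (hε1 : ε ≤ 1 / 100)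
    (h1 : K (A ×ˢ B) (fun z => U z.1 + V z.2) - B.card * K A U ≤ ε ^ 4 / 64 * (A.card * B.card))
    (u₀ : G) (hu : D (out {x | x - u₀ ∈ (⊥ : AddSubgroup G)} (sl A U)) 0 ≤ ε) :
    K B V ≤ 5 * ε * B.card := by
  classical
  have np : (0 : ℝ) < A.card := by exact_mod_cast card_pos.2 hA
  have mp : (0 : ℝ) < B.card := by exact_mod_cast card_pos.2 hB
  set A0 := A.filter fun a => U a = u₀ with hA0
  set A1 := A.filter fun a => ¬ U a = u₀ with hA1
  have hs : (A0.card : ℝ) + A1.card = A.card := by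
    exact_mod_cast card_filter_add_card_filter_not (s := A) (fun a => U a = u₀)
  have hcard : (A1.card : ℝ) ≤ ε ^ 2 * A.card := by
    have h2 := prob_out A hA U {x | x - u₀ ∈ (⊥ : AddSubgroup G)}
    have h3 : A.filter (fun a => U a ∉ {x | x - u₀ ∈ (⊥ : AddSubgroup G)}) = A1 := by
      rw [hA1]
      refine filter_congr fun a _ => ?_
      rw [Set.mem_ofPred_eq, AddSubgroup.mem_bot, sub_eq_zero]
    rw [h3] at h2
    rw [h2, mul_comm]
    refine mul_le_mul_of_nonneg_right ?_ np.le
    rw [D_zero] at hu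
    have h4 := (sqrt_le_iff.1 hu).2
    exact h4
  have he2 : ε ^ 2 ≤ 1 / 10000 := by nlinarith
  have hA0n : A0.Nonempty := by
    rw [← card_pos]
    have : (0 : ℝ) < A0.card := by nlinarith
    exact_mod_cast this
  have hJ := K_ind A hA (fun a => U a = u₀) ε hε (by linarith) hcard hA0n
  -- splitting
  have s1 := K_cond (A ×ˢ B) (fun z => U z.1 + V z.2) (fun z => decide (U z.1 = u₀))
    (fun _ => ()) (fun _ _ _ _ _ => rfl) (fun _ _ _ _ _ => rfl)
  have s2 : ∑ b ∈ (A ×ˢ B).image (fun z => decide (U z.1 = u₀)),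
      K ((A ×ˢ B).filter fun z => decide (U z.1 = u₀) = b) (fun z => U z.1 + V z.2) =
      ∑ b : Bool, K ((A ×ˢ B).filter fun z => decide (U z.1 = u₀) = b) (fun z => U z.1 + V z.2) := by
    refine sum_subset (subset_univ _) fun b _ hb => ?_
    have : (A ×ˢ B).filter (fun z => decide (U z.1 = u₀) = b) = ∅ := by
      refine filter_eq_empty_iff.2 fun z hz h => hb ?_
      exact mem_image.2 ⟨z, hz, h⟩
    rw [this]
    simp [K]
  rw [s2, Fintype.sum_bool] at s1
  have f1 : (A ×ˢ B).filter (fun z => decide (U z.1 = u₀) = true) = A0 ×ˢ B := by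
    ext z
    simp only [mem_filter, mem_product, decide_eq_true_eq, hA0]
    tauto
  have f2 : (A ×ˢ B).filter (fun z => decide (U z.1 = u₀) = false) = A1 ×ˢ B := by
    ext z
    simp only [mem_filter, mem_product, decide_eq_false_iff_not, hA1]
    tauto
  rw [f1, f2] at s1
  have k1 : K (A0 ×ˢ B) (fun z => U z.1 + V z.2) = A0.card * K B V := by
    rw [← K_snd]
    refine K_congr fun x hx y hy => ?_
    have h2 := (mem_filter.1 (mem_product.1 hx).1).2
    have h3 := (mem_filter.1 (mem_product.1 hy).1).2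
    rw [h2, h3]
    exact ⟨fun h => add_left_cancel h, fun h => by rw [h]⟩
  have k2 := K_add_ge_fst A1 B U V
  have k3 := K_fiber A U (fun a => decide (U a = u₀)) (fun x _ y _ h => by rw [h])
  have s3 : ∑ b ∈ A.image (fun a => decide (U a = u₀)),
      K (A.filter fun a => decide (U a = u₀) = b) U =
      ∑ b : Bool, K (A.filter fun a => decide (U a = u₀) = b) U := by
    refine sum_subset (subset_univ _) fun b _ hb => ?_
    have : A.filter (fun a => decide (U a = u₀) = b) = ∅ := by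
      refine filter_eq_empty_iff.2 fun z hz h => hb ?_
      exact mem_image.2 ⟨z, hz, h⟩
    rw [this]
    simp [K]
  have g1 : A.filter (fun a => decide (U a = u₀) = true) = A0 := by
    ext z
    simp [hA0]
  have g2 : A.filter (fun a => decide (U a = u₀) = false) = A1 := by
    ext z
    simp [hA1]
  rw [s3, Fintype.sum_bool, g1, g2, K_const A0 U (fun x hx y hy => by
    rw [(mem_filter.1 hx).2, (mem_filter.1 hy).2]), zero_add] at k3
  have k4 := K_nonneg (A ×ˢ B) (fun _ => ())
  have h5 : (A0.card : ℝ) * K B V ≤ 2 * ε * A.card * B.card + ε ^ 4 / 64 * (A.card * B.card) := by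
    have h6 := mul_le_mul_of_nonneg_left hJ mp.le
    rw [k3] at h1
    rw [k1] at s1
    linarith
  have h7 : (1 - ε ^ 2) * A.card ≤ A0.card := by linarith
  have h8 := mul_le_mul_of_nonneg_right h7 (K_nonneg B V)
  have h9 : A.card * ((1 - ε ^ 2) * K B V) ≤ A.card * ((2 * ε + ε ^ 4 / 64) * B.card) := by linarith
  have h10 := le_of_mul_le_mul_left h9 np
  have h11 : ε ^ 4 ≤ ε := by
    have : ε ^ 4 = ε ^ 2 * ε ^ 2 := by ring
    nlinarith
  have h12 := K_nonneg B V
  have h13 : (2 * ε + ε ^ 4 / 64) * B.card ≤ 3 * ε * B.card :=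
    mul_le_mul_of_nonneg_right (by linarith) mp.le
  have h14 : (9 / 10) * K B V ≤ (1 - ε ^ 2) * K B V := mul_le_mul_of_nonneg_right (by linarith) h12
  have h15 : 0 < ε * B.card := by positivity
  nlinarith

/-- a nontrivial subgroup -/
theorem nontriv_case [Fintype G] (A : Finset ι) (U : ι → G) (hA : A.Nonempty) (p : ℕ) (hp : 2 ≤ p)
    (ε : ℝ) (hε : 0 < ε) (hε1 : ε ≤ 1 / 100) (H : AddSubgroup G) (hH : p ≤ Nat.card H)
    (hinv : ∀ s ∈ H, D (tr s (sl A U)) (sl A U) ≤ 2 * ε) :
    (log p / 2 + 1 / 10) * A.card ≤ K A U := by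
  classical
  have np : (0 : ℝ) < A.card := by exact_mod_cast card_pos.2 hA
  set f := sl A U with hf
  have sf : ∑ x, f x ^ 2 = 1 := sum_sl A hA U
  set Hs : Finset G := univ.filter fun s => s ∈ H with hHs
  have hq : Hs.card = Nat.card H := by
    rw [hHs, Nat.card_eq_fintype_card, Fintype.card_subtype]
  have hqp : p ≤ Hs.card := by rw [hq]; exact hH
  set q : ℝ := (Hs.card : ℝ) with hqd
  have qp : (p : ℝ) ≤ q := by rw [hqd]; exact_mod_cast hqp
  have p2 : (2 : ℝ) ≤ p := by exact_mod_cast hp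
  have q0 : 0 < q := by linarith
  set av : G → ℝ := fun x => (∑ s ∈ Hs, f (x - s)) / q with hav
  have a1 : ∑ x, (f x - av x) ^ 2 ≤ 4 * ε ^ 2 := by
    have h1 : ∀ x, (f x - av x) ^ 2 ≤ (∑ s ∈ Hs, (f (x - s) - f x) ^ 2) / q := by
      intro x
      have h2 : f x - av x = -(∑ s ∈ Hs, (f (x - s) - f x)) / q := by
        rw [sum_sub_distrib, sum_const, nsmul_eq_mul, hav, ← hqd]
        field_simp
        ring
      have h3 := sq_sum_le_card_mul_sum_sq (s := Hs) (f := fun s => f (x - s) - f x)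
      rw [h2, div_pow, neg_sq, div_le_div_iff₀ (by positivity) q0]
      have h4 := mul_le_mul_of_nonneg_right h3 q0.le
      rw [← hqd] at h4
      linarith
    refine (sum_le_sum fun x _ => h1 x).trans ?_
    rw [← sum_div, sum_comm, div_le_iff₀ q0]
    have h5 : ∀ s ∈ Hs, ∑ x, (f (x - s) - f x) ^ 2 ≤ 4 * ε ^ 2 := by
      intro s hs
      have h6 := hinv s (mem_filter.1 hs).2
      have h7 := D_sq (tr s f) f
      have h8 : ∑ x, (f (x - s) - f x) ^ 2 = D (tr s f) f ^ 2 := h7.symm
      rw [h8]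
      have := D_nonneg (tr s f) f
      nlinarith
    refine (sum_le_sum h5).trans (le_of_eq ?_)
    rw [sum_const, nsmul_eq_mul, ← hqd]
    ring
  have a2 : ∀ x, av x ^ 2 ≤ 1 / q := by
    intro x
    have h3 := sq_sum_le_card_mul_sum_sq (s := Hs) (f := fun s => f (x - s))
    have h4 : ∑ s ∈ Hs, f (x - s) ^ 2 ≤ 1 := by
      rw [← sf]
      have h5 : ∑ s ∈ Hs, f (x - s) ^ 2 ≤ ∑ s, f (x - s) ^ 2 :=
        sum_le_sum_of_subset_of_nonneg (subset_univ _) fun _ _ _ => sq_nonneg _
      refine h5.trans (le_of_eq ?_)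
      exact Fintype.sum_equiv (Equiv.subLeft x) _ _ fun s => rfl
    rw [hav]
    simp only
    rw [div_pow, div_le_div_iff₀ (by positivity) q0]
    have h6 := mul_le_mul_of_nonneg_left h4 q0.le
    rw [← hqd] at h3
    nlinarith
  -- the large values
  set Z : Set G := {x | 121 / 100 / q < f x ^ 2} with hZ
  have a3 : ∀ x, x ∈ Z → f x ^ 2 ≤ 121 * (f x - av x) ^ 2 := by
    intro x hx
    have p1 : 0 ≤ f x := sl_nonneg _ _ _
    have p3 : 0 ≤ av x := div_nonneg (sum_nonneg fun _ _ => sl_nonneg _ _ _) q0.le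
    have h3 : 121 / 100 / q < f x ^ 2 := hx
    have h4 := a2 x
    have h5 : (11 / 10 * av x) ^ 2 ≤ f x ^ 2 := by
      have : 121 / 100 / q = 121 / 100 * (1 / q) := by ring
      rw [mul_pow]
      nlinarith
    have h6 : 11 / 10 * av x ≤ f x := abs_le_of_sq_le_sq' h5 p1 |>.2
    have h7 : f x / 11 ≤ f x - av x := by linarith
    have h8 : (f x / 11) ^ 2 ≤ (f x - av x) ^ 2 := pow_le_pow_left₀ (by positivity) h7 2
    nlinarith
  have a4 : ((A.filter fun a => U a ∉ Zᶜ).card : ℝ) ≤ 484 * ε ^ 2 * A.card := by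
    have h0 : ((A.filter fun a => U a ∉ Zᶜ).card : ℝ) = A.card * ∑ x, out Zᶜ (sl A U) x ^ 2 := by
      have := prob_out A hA U Zᶜ
      convert this
    rw [h0, mul_comm]
    refine mul_le_mul_of_nonneg_right ?_ np.le
    have h3 : ∑ x, out Zᶜ f x ^ 2 ≤ ∑ x, 121 * (f x - av x) ^ 2 := by
      refine sum_le_sum fun x _ => ?_
      unfold out
      by_cases hx : x ∈ Z
      · have hx' : x ∉ Zᶜ := fun h => h hx
        rw [if_neg hx']
        exact a3 x hx
      · have hx' : x ∈ Zᶜ := hx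
        rw [if_pos hx']
        simp; positivity
    refine h3.trans ?_
    rw [← mul_sum]
    linarith
  have a5 : ((A.filter fun a => U a ∈ Zᶜ).card : ℝ) * log (q / (121 / 100)) ≤ K A U := by
    rw [K_eq, ← nsmul_eq_mul, ← sum_const]
    refine le_trans (sum_le_sum fun a ha => ?_)
      (sum_le_sum_of_subset_of_nonneg (filter_subset (fun a => U a ∈ Zᶜ) A)
        fun a ha _ => log_ratio_nonneg ha)
    obtain ⟨ha1, ha2⟩ := mem_filter.1 ha
    have p1 : (0 : ℝ) < N A U a := by exact_mod_cast N_pos ha1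
    refine log_le_log (by positivity) ?_
    have h3 : f (U a) ^ 2 ≤ 121 / 100 / q := not_lt.1 ha2
    rw [hf, sl_val, div_le_div_iff₀ np q0] at h3
    rw [div_le_div_iff₀ (by norm_num) p1]
    linarith
  have a6 : ((A.filter fun a => U a ∈ Zᶜ).card : ℝ) + (A.filter fun a => U a ∉ Zᶜ).card = A.card := by
    exact_mod_cast card_filter_add_card_filter_not (s := A) (fun a => U a ∈ Zᶜ)
  have l2 := log_two_gt_d9
  have lp : log 2 ≤ log p := log_le_log (by norm_num) p2
  have lq : log p ≤ log q := log_le_log (by linarith) qp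
  have l1 : log (121 / 100) ≤ 21 / 100 := by
    have := log_le_sub_one_of_pos (x := (121 / 100 : ℝ)) (by norm_num)
    linarith
  have e1 : log (q / (121 / 100)) = log q - log (121 / 100) := log_div q0.ne' (by norm_num)
  have he : 484 * ε ^ 2 ≤ 484 / 10000 := by nlinarith
  have e2 : (1 - 484 / 10000) * A.card ≤ ((A.filter fun a => U a ∈ Zᶜ).card : ℝ) := by
    have := mul_le_mul_of_nonneg_right he np.le
    linarith
  have e3 : 0 ≤ log (q / (121 / 100)) := by rw [e1]; linarith
  have e4 := mul_le_mul_of_nonneg_right e2 e3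
  have e5 : (log p / 2 + 1 / 10) ≤ (1 - 484 / 10000) * log (q / (121 / 100)) := by
    rw [e1]; linarith
  have e6 := mul_le_mul_of_nonneg_right e5 np.le
  linarith

/-- **The inverse theorem.** -/
theorem inverse [Finite G] (p : ℕ) (hp : 2 ≤ p) (hG : ∀ g : G, g ≠ 0 → p ≤ addOrderOf g)
    (A : Finset ι) (B : Finset κ) (U : ι → G) (V : κ → G) (hA : A.Nonempty)
    (hB : B.Nonempty) (ε : ℝ) (hε : 0 < ε) (hε1 : ε ≤ 1 / 100)
    (h1 : K (A ×ˢ B) (fun z => U z.1 + V z.2) - B.card * K A U ≤ ε ^ 4 / 64 * (A.card * B.card))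
    (h2 : K (A ×ˢ B) (fun z => U z.1 + V z.2) - A.card * K B V ≤
      2 * (ε ^ 4 / 64) * (A.card * B.card)) :
    K B V ≤ 5 * ε * B.card ∨ (log p / 2 + 1 / 10) * A.card ≤ K A U := by
  have := Fintype.ofFinite G
  obtain ⟨H, u₀, v₀, h3, h4, _⟩ := structure_lemma A B U V hA hB ε hε hε1 h1 h2
  by_cases hH : H = ⊥
  · left
    subst hH
    exact triv_case A B U V hA hB ε hε hε1 h1 u₀ h4
  · right
    obtain ⟨⟨s, hs⟩, hs0'⟩ := AddSubgroup.ne_bot_iff_exists_ne_zero.1 hH
    have hs0 : s ≠ 0 := fun h => hs0' (Subtype.ext h)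
    refine nontriv_case A U hA p hp ε hε hε1 H ?_ h3
    refine (hG s hs0).trans ?_
    rw [← Nat.card_zmultiples]
    exact Nat.card_mono (Set.toFinite _) ((AddSubgroup.zmultiples_le_of_mem hs))

end Pool.Agent.U234.OD
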