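import Pool.Agent.U234.LD.Core
import Pool.Agent.U234.OD.Avg
import Pool.Agent.U234.OD.Inv2

/-! One level of the filtration: the increment is small or large. -/

set_option autoImplicit false

open Finset Real

namespace Pool.Agent.U234.OD

open Pool.Agent.U234.LD

variable {Γ : Type*} [AddCommGroup Γ]

theorem level4 (F : ℕ → AddSubgroup Γ) (ψ : Γ →+ Γ) (r : ℕ) (hanti : Antitone F)
    (hψ : ∀ s z, ψ z ∈ F s ↔ z ∈ F (s - r)) (A : Finset Γ) (hA : A.Nonempty) (t : ℕ)
    [Finite (Q (F (t + 1)))] (p : ℕ) (hp : 2 ≤ p)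
    (hG : ∀ g : Q (F (t + 1)), g ≠ 0 → p ≤ addOrderOf g) (ε c η η' : ℝ) (hε : 0 < ε)
    (hε1 : ε ≤ 1 / 100) (hc : 10 * c ≤ ε ^ 4 / 64)
    (eη : K A (pi (F (t + 1))) - K A (pi (F t)) = A.card * η)
    (eη' : K A (pi (F (t + 1 - r))) - K A (pi (F (t - r))) = A.card * η')
    (h1 : K (A ×ˢ A) (ps (F (t + 1)) ψ) - K (A ×ˢ A) (ps (F t) ψ) ≤
      A.card * A.card * (η + c))
    (h2 : η ≤ η' + c) : η ≤ 6 * ε ∨ log p / 2 ≤ η := by
  classical
  have np : (0 : ℝ) < A.card := by exact_mod_cast card_pos.2 hA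
  have h0 := block F ψ r hanti hψ A A (t := t) (s := t + 1) (Nat.le_succ t)
  have eA : ∑ x ∈ cls (F t) A, K (fib (F t) A x) (pi (F (t + 1))) = A.card * η := by
    rw [← eη]
    refine sum_fibre F A (pi (F (t + 1))) fun x _ y _ h => ?_
    rw [pi_eq] at h ⊢
    exact hanti (Nat.le_succ t) h
  have eB : ∑ y ∈ cls (F (t - r)) A, K (fib (F (t - r)) A y) (pj (F (t + 1)) ψ) =
      A.card * η' := by
    rw [← eη', sum_fibre F A (pj (F (t + 1)) ψ) (fun x _ y _ h => ?_), K_shift F ψ r hψ]
    unfold pj at h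
    rw [pi_eq, ← map_sub, hψ] at h
    rw [pi_eq]
    exact hanti (by omega) h
  have cA := sum_card_fibre F A t
  have cB := sum_card_fibre F A (t - r)
  have neA : ∀ x ∈ cls (F t) A, (fib (F t) A x).Nonempty := by
    intro x hx
    obtain ⟨y, hy, hyx⟩ := mem_cls.1 hx
    exact ⟨y, mem_fib.2 ⟨hy, hyx⟩⟩
  have neB : ∀ x ∈ cls (F (t - r)) A, (fib (F (t - r)) A x).Nonempty := by
    intro x hx
    obtain ⟨y, hy, hyx⟩ := mem_cls.1 hx
    exact ⟨y, mem_fib.2 ⟨hy, hyx⟩⟩
  have pA : ∀ x ∈ cls (F t) A, (0 : ℝ) < (fib (F t) A x).card := fun x hx => by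
    exact_mod_cast card_pos.2 (neA x hx)
  have pB : ∀ x ∈ cls (F (t - r)) A, (0 : ℝ) < (fib (F (t - r)) A x).card := fun x hx => by
    exact_mod_cast card_pos.2 (neB x hx)
  obtain ⟨x, hx, y, hy, k1, k2, k3, k4⟩ := avg (cls (F t) A) (cls (F (t - r)) A)
    (fun x => ((fib (F t) A x).card : ℝ) / A.card)
    (fun y => ((fib (F (t - r)) A y).card : ℝ) / A.card)
    (fun x hx => div_pos (pA x hx) np) (fun y hy => div_pos (pB y hy) np)
    (by rw [← sum_div, cA, div_self np.ne']) (by rw [← sum_div, cB, div_self np.ne'])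
    (fun x => K (fib (F t) A x) (pi (F (t + 1))) / (fib (F t) A x).card)
    (fun y => K (fib (F (t - r)) A y) (pj (F (t + 1)) ψ) / (fib (F (t - r)) A y).card)
    (fun x y => K (fib (F t) A x ×ˢ fib (F (t - r)) A y) (ps (F (t + 1)) ψ) /
      ((fib (F t) A x).card * (fib (F (t - r)) A y).card))
    (fun x hx y hy => by
      have h3 : (fib (F (t - r)) A y).card * K (fib (F t) A x) (pi (F (t + 1))) ≤
          K (fib (F t) A x ×ˢ fib (F (t - r)) A y) (ps (F (t + 1)) ψ) :=
        K_add_ge_fst (fib (F t) A x) (fib (F (t - r)) A y) (pi (F (t + 1))) (pj (F (t + 1)) ψ)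
      have q1 := pA x hx
      have q2 := pB y hy
      rw [div_le_div_iff₀ q1 (by positivity)]
      calc K (fib (F t) A x) (pi (F (t + 1))) *
            ((fib (F t) A x).card * (fib (F (t - r)) A y).card) =
          (fib (F (t - r)) A y).card * K (fib (F t) A x) (pi (F (t + 1))) *
            (fib (F t) A x).card := by ring
        _ ≤ _ := mul_le_mul_of_nonneg_right h3 q1.le)
    (fun x hx y hy => by
      have h3 : (fib (F t) A x).card * K (fib (F (t - r)) A y) (pj (F (t + 1)) ψ) ≤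
          K (fib (F t) A x ×ˢ fib (F (t - r)) A y) (ps (F (t + 1)) ψ) :=
        K_add_ge_snd (fib (F t) A x) (fib (F (t - r)) A y) (pi (F (t + 1))) (pj (F (t + 1)) ψ)
      have q1 := pA x hx
      have q2 := pB y hy
      rw [div_le_div_iff₀ q2 (by positivity)]
      calc K (fib (F (t - r)) A y) (pj (F (t + 1)) ψ) *
            ((fib (F t) A x).card * (fib (F (t - r)) A y).card) =
          (fib (F t) A x).card * K (fib (F (t - r)) A y) (pj (F (t + 1)) ψ) *
            (fib (F (t - r)) A y).card := by ring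
        _ ≤ _ := mul_le_mul_of_nonneg_right h3 q2.le) c η η'
    (by
      have g : ∀ x ∈ cls (F t) A, ((fib (F t) A x).card : ℝ) / A.card *
          (K (fib (F t) A x) (pi (F (t + 1))) / (fib (F t) A x).card) =
          K (fib (F t) A x) (pi (F (t + 1))) / A.card := by
        intro x hx
        have q1 := (pA x hx).ne'
        have q2 := np.ne'
        field_simp
      rw [sum_congr rfl g, ← sum_div, eA, mul_div_cancel_left₀ _ np.ne'])
    (by
      have g : ∀ y ∈ cls (F (t - r)) A, ((fib (F (t - r)) A y).card : ℝ) / A.card *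
          (K (fib (F (t - r)) A y) (pj (F (t + 1)) ψ) / (fib (F (t - r)) A y).card) =
          K (fib (F (t - r)) A y) (pj (F (t + 1)) ψ) / A.card := by
        intro y hy
        have q1 := (pB y hy).ne'
        have q2 := np.ne'
        field_simp
      rw [sum_congr rfl g, ← sum_div, eB, mul_div_cancel_left₀ _ np.ne'])
    (by
      have g : ∀ x ∈ cls (F t) A, ∀ y ∈ cls (F (t - r)) A,
          ((fib (F t) A x).card : ℝ) / A.card * (((fib (F (t - r)) A y).card : ℝ) / A.card) *
          (K (fib (F t) A x ×ˢ fib (F (t - r)) A y) (ps (F (t + 1)) ψ) /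
            ((fib (F t) A x).card * (fib (F (t - r)) A y).card)) =
          K (fib (F t) A x ×ˢ fib (F (t - r)) A y) (ps (F (t + 1)) ψ) /
            (A.card * A.card) := by
        intro x hx y hy
        have q1 := (pA x hx).ne'
        have q2 := (pB y hy).ne'
        have q3 := np.ne'
        field_simp
      rw [sum_congr rfl fun x hx => sum_congr rfl fun y hy => g x hx y hy]
      simp only [← sum_div]
      rw [div_le_iff₀ (by positivity)]
      linarith) h2
  have q1 := pA x hx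
  have q2 := pB y hy
  have r1 : K (fib (F t) A x ×ˢ fib (F (t - r)) A y)
      (fun z => pi (F (t + 1)) z.1 + pj (F (t + 1)) ψ z.2) -
      (fib (F (t - r)) A y).card * K (fib (F t) A x) (pi (F (t + 1))) ≤
      ε ^ 4 / 64 * ((fib (F t) A x).card * (fib (F (t - r)) A y).card) := by
    have h5 := k1.trans hc
    have e5 : K (fib (F t) A x ×ˢ fib (F (t - r)) A y)
        (fun z => pi (F (t + 1)) z.1 + pj (F (t + 1)) ψ z.2) =
        K (fib (F t) A x ×ˢ fib (F (t - r)) A y) (ps (F (t + 1)) ψ) := rfl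
    rw [e5]
    have h6 := mul_le_mul_of_nonneg_right h5 (mul_pos q1 q2).le
    refine le_trans (le_of_eq ?_) h6
    have q3 := q1.ne'
    have q4 := q2.ne'
    field_simp
  have r2 : K (fib (F t) A x ×ˢ fib (F (t - r)) A y)
      (fun z => pi (F (t + 1)) z.1 + pj (F (t + 1)) ψ z.2) -
      (fib (F t) A x).card * K (fib (F (t - r)) A y) (pj (F (t + 1)) ψ) ≤
      2 * (ε ^ 4 / 64) * ((fib (F t) A x).card * (fib (F (t - r)) A y).card) := by
    have h5 : K (fib (F t) A x ×ˢ fib (F (t - r)) A y) (ps (F (t + 1)) ψ) /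
        ((fib (F t) A x).card * (fib (F (t - r)) A y).card) -
        K (fib (F (t - r)) A y) (pj (F (t + 1)) ψ) / (fib (F (t - r)) A y).card ≤
        2 * (ε ^ 4 / 64) := by
      have : 0 ≤ ε ^ 4 / 64 := by positivity
      linarith
    have e5 : K (fib (F t) A x ×ˢ fib (F (t - r)) A y)
        (fun z => pi (F (t + 1)) z.1 + pj (F (t + 1)) ψ z.2) =
        K (fib (F t) A x ×ˢ fib (F (t - r)) A y) (ps (F (t + 1)) ψ) := rfl
    rw [e5]
    have h6 := mul_le_mul_of_nonneg_right h5 (mul_pos q1 q2).le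
    refine le_trans (le_of_eq ?_) h6
    have q3 := q1.ne'
    have q4 := q2.ne'
    field_simp
  have he : ε ^ 4 / 64 ≤ ε := by
    have h5 : ε ^ 4 ≤ ε := by
      have : ε ^ 3 ≤ 1 := pow_le_one₀ hε.le (by linarith)
      calc ε ^ 4 = ε ^ 3 * ε := by ring
        _ ≤ 1 * ε := mul_le_mul_of_nonneg_right this hε.le
        _ = ε := one_mul ε
    linarith
  have he2 : ε ^ 4 / 64 ≤ 1 / 10 := by linarith
  obtain ⟨_, k3'⟩ := abs_le.1 k3
  obtain ⟨k4', _⟩ := abs_le.1 k4
  rcases inverse p hp hG (fib (F t) A x) (fib (F (t - r)) A y) (pi (F (t + 1)))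
    (pj (F (t + 1)) ψ) (neA x hx) (neB y hy) ε hε hε1 r1 r2 with h | h
  · left
    have h6 : K (fib (F (t - r)) A y) (pj (F (t + 1)) ψ) / (fib (F (t - r)) A y).card ≤
        5 * ε := by
      rw [div_le_iff₀ q2]; exact h
    linarith
  · right
    have h6 : log p / 2 + 1 / 10 ≤ K (fib (F t) A x) (pi (F (t + 1))) /
        (fib (F t) A x).card := by
      rw [le_div_iff₀ q1]; exact h
    linarith

end Pool.Agent.U234.OD
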