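import Pool.Agent.U234.OD.Seq

/-! The sequence theorem. -/

set_option autoImplicit false

open Finset

namespace Pool.Agent.U234.OD

theorem sh_nonneg {θ : ℕ → ℝ} (h : ∀ t, 0 ≤ θ t) (r t : ℕ) : 0 ≤ sh r θ t := by
  unfold sh
  split_ifs
  · exact h _
  · exact le_rfl

/-- the positive part of `x - c` is a contraction -/
theorem cut_le (x y c : ℝ) (hy : 0 ≤ y) (hc : 0 ≤ c) :
    max (max (x - c) 0 - max (y - c) 0) 0 ≤ max (x - y) 0 := by
  refine max_le ?_ (le_max_right _ _)
  rcases le_total x c with h1 | h1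
  · rw [max_eq_right (by linarith : x - c ≤ 0)]
    have := le_max_right (y - c) 0
    have := le_max_right (x - y) 0
    linarith
  · rw [max_eq_left (by linarith : 0 ≤ x - c)]
    have := le_max_left (y - c) 0
    have := le_max_left (x - y) 0
    linarith

theorem sh_cut (r : ℕ) (θ : ℕ → ℝ) (c : ℝ) (hc : 0 ≤ c) (t : ℕ) :
    sh r (fun t => max (θ t - c) 0) t = max (sh r θ t - c) 0 := by
  unfold sh
  split_ifs
  · rfl
  · rw [max_eq_right (by linarith : (0 : ℝ) - c ≤ 0)]

theorem Φ_cut (T : ℕ) (S : Finset ℕ) (θ : ℕ → ℝ) (h0 : ∀ t, 0 ≤ θ t) (c : ℝ) (hc : 0 ≤ c) :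
    Φ T S (fun t => max (θ t - c) 0) ≤ Φ T S θ := by
  unfold Φ
  refine sum_le_sum fun r _ => sum_le_sum fun t _ => ?_
  rw [sh_cut r θ c hc]
  exact cut_le _ _ _ (sh_nonneg h0 r t) hc

/-- counting large values -/
theorem count_le (s : Finset ℕ) (f : ℕ → ℝ) (hf : ∀ t ∈ s, 0 ≤ f t) (E : Finset ℕ) (hE : E ⊆ s)
    (c : ℝ) (h : ∀ t ∈ E, c ≤ f t) : c * E.card ≤ ∑ t ∈ s, f t := by
  refine le_trans ?_ (sum_le_sum_of_subset_of_nonneg hE fun t ht _ => hf t ht)
  rw [mul_comm, ← nsmul_eq_mul]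
  exact card_nsmul_le_sum E f c h

/-- **The sequence theorem.** -/
theorem seq (T : ℕ) (η : ℕ → ℝ) (h0 : ∀ t, 0 ≤ η t) (hT : ∀ t, T ≤ t → η t = 0)
    (S : Finset ℕ) (hS1 : ∀ r ∈ S, 1 ≤ r) (cost : ℕ → ℕ → ℝ)
    (hc0 : ∀ r ∈ S, ∀ t, 0 ≤ cost r t) (c2 c3 β L : ℝ) (p2 : 0 < c2) (p3 : 0 < c3) (pβ : 0 < β)
    (h2 : ∀ r ∈ S, ∀ t, sh r η t - η t ≤ cost r t)
    (h3 : ∀ r ∈ S, ∀ t, η t ≤ c3 → η t ≤ 4 * sh r η t → η t ≤ 16 * cost r t)
    (h4 : ∀ r ∈ S, ∀ t, cost r t ≤ c2 → η t ≤ sh r η t + c2 → η t ≤ c3 ∨ β ≤ η t)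
    (hL : ∀ r ∈ S, ∑ t ∈ range T, cost r t ≤ L)
    (hsum : ∀ r ∈ S, ∑ t ∈ range T, η t = ∑ t ∈ range T, sh r η t)
    (hR : 2 * L < β * S.card) (hL0 : 0 ≤ L) :
    ∑ t ∈ range T, η t ≤ 2 * L * ((2 * L / c2 + 2 * L / β) / S.card + 1) +
      c3 * (2 * L / c2 + 2 * L / β) + 18 * L := by
  classical
  have hSc : (0 : ℝ) < S.card := by
    by_contra hno
    have h1 : (S.card : ℝ) ≤ 0 := not_lt.1 hno
    nlinarith
  have hS : S.Nonempty := by
    rw [← card_pos]; exact_mod_cast hSc
  -- the increases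
  have inc : ∀ r ∈ S, ∑ t ∈ range T, max (η t - sh r η t) 0 ≤ L := by
    intro r hr
    have e1 : ∀ t, max (η t - sh r η t) 0 = (η t - sh r η t) + max (sh r η t - η t) 0 := by
      intro t
      rcases le_total (η t) (sh r η t) with h | h
      · rw [max_eq_right (by linarith), max_eq_left (by linarith)]; ring
      · rw [max_eq_left (by linarith), max_eq_right (by linarith)]; ring
    rw [sum_congr rfl fun t _ => e1 t, sum_add_distrib, sum_sub_distrib, hsum r hr, sub_self,
      zero_add]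
    refine le_trans (sum_le_sum fun t _ => ?_) (hL r hr)
    exact max_le (h2 r hr t) (hc0 r hr t)
  have hΦ : Φ T S η ≤ S.card * L := by
    unfold Φ
    rw [← nsmul_eq_mul, ← sum_const]
    exact sum_le_sum inc
  obtain ⟨r₀, hr₀⟩ := id hS
  -- the sets
  set E := (range T).filter fun t => c3 < η t with hE
  set B := (range T).filter fun t => β ≤ η t with hB
  set M := (range T).filter fun t => c3 < η t ∧ η t < β with hM
  have cM : c2 * M.card ≤ 2 * L := by
    have h5 := count_le (range T) (fun t => cost r₀ t + max (η t - sh r₀ η t) 0)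
      (fun t _ => add_nonneg (hc0 r₀ hr₀ t) (le_max_right _ _)) M (filter_subset _ _) c2 (by
      intro t ht
      obtain ⟨_, ht1, ht2⟩ := mem_filter.1 ht
      by_contra hno
      push Not at hno
      have k1 := hc0 r₀ hr₀ t
      have k2 := le_max_left (η t - sh r₀ η t) 0
      have k3 := le_max_right (η t - sh r₀ η t) 0
      rcases h4 r₀ hr₀ t (by linarith) (by linarith) with h | h <;> linarith)
    rw [sum_add_distrib] at h5
    have := hL r₀ hr₀
    have := inc r₀ hr₀
    linarith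
  have cB : β * B.card ≤ 2 * L := by
    have h5 := lc2 T S hS1 B ((range T).filter fun t => 0 < η t).card η β pβ.le h0
      ((range T).filter fun t => 0 < η t) (filter_subset _ _) (by
        intro t
        rw [mem_filter]
        refine ⟨fun h => h.2, fun h => ⟨?_, h⟩⟩
        rw [mem_range]
        by_contra hno
        rw [hT t (not_lt.1 hno)] at h
        exact lt_irrefl _ h) rfl (fun t ht => (mem_filter.1 ht).2) (fun t ht => by
        obtain ⟨k1, k2⟩ := mem_filter.1 ht
        exact mem_filter.2 ⟨k1, pβ.trans_le k2⟩)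
    have h6 : β * ((min S.card B.card : ℕ) : ℝ) ≤ 2 * L := by
      refine le_of_mul_le_mul_left (a := (S.card : ℝ)) ?_ hSc
      calc (S.card : ℝ) * (β * ((min S.card B.card : ℕ) : ℝ)) =
          β * ((S.card : ℝ) * ((min S.card B.card : ℕ) : ℝ)) := by ring
        _ ≤ 2 * Φ T S η := h5
        _ ≤ 2 * (S.card * L) := by linarith
        _ = _ := by ring
    rcases le_total S.card B.card with h | h
    · rw [min_eq_left h] at h6
      linarith
    · rwa [min_eq_right h] at h6
  have hEM : E.card ≤ M.card + B.card := by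
    refine (card_le_card (fun t ht => ?_)).trans (card_union_le M B)
    obtain ⟨k1, k2⟩ := mem_filter.1 ht
    rw [mem_union]
    rcases lt_or_ge (η t) β with h | h
    · exact Or.inl (mem_filter.2 ⟨k1, k2, h⟩)
    · exact Or.inr (mem_filter.2 ⟨k1, h⟩)
  have cE : (E.card : ℝ) ≤ 2 * L / c2 + 2 * L / β := by
    have h5 : (E.card : ℝ) ≤ M.card + B.card := by exact_mod_cast hEM
    have h6 : (M.card : ℝ) ≤ 2 * L / c2 := by rw [le_div_iff₀ p2]; linarith
    have h7 : (B.card : ℝ) ≤ 2 * L / β := by rw [le_div_iff₀ pβ]; linarith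
    linarith
  -- the large values
  set θ : ℕ → ℝ := fun t => max (η t - c3) 0 with hθ
  have Eθ : ∀ t, t ∈ E ↔ 0 < θ t := by
    intro t
    rw [hE, mem_filter, mem_range, hθ]
    simp only [lt_max_iff, lt_irrefl, or_false, sub_pos]
    refine ⟨fun h => h.2, fun h => ⟨?_, h⟩⟩
    by_contra hno
    rw [hT t (not_lt.1 hno)] at h
    linarith
  have l1 := lc1 T S hS1 E.card E.card θ (fun t => le_max_right _ _) E (filter_subset _ _) Eθ
    rfl le_rfl
  have l2 : Φ T S θ ≤ S.card * L := (Φ_cut T S η h0 c3 p3.le).trans hΦ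
  have l3 : ∑ t ∈ range T, θ t ≤ 2 * L * (E.card / S.card + 1) := by
    rcases Nat.eq_zero_or_pos E.card with hz | hz
    · have : ∑ t ∈ range T, θ t = 0 := by
        refine sum_eq_zero fun t _ => le_antisymm (not_lt.1 fun h => ?_) (le_max_right _ _)
        have := (Eθ t).2 h
        rw [card_eq_zero.1 hz] at this
        exact absurd this (notMem_empty _)
      rw [this]
      positivity
    · have hEp : (0 : ℝ) < E.card := by exact_mod_cast hz
      have l4 : ((min S.card E.card : ℕ) : ℝ) * ∑ t ∈ range T, θ t ≤ 2 * E.card * L := by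
        refine le_of_mul_le_mul_left (a := (S.card : ℝ)) ?_ hSc
        calc (S.card : ℝ) * (((min S.card E.card : ℕ) : ℝ) * ∑ t ∈ range T, θ t) =
            (S.card : ℝ) * ((min S.card E.card : ℕ) : ℝ) * ∑ t ∈ range T, θ t := by ring
          _ ≤ 2 * E.card * Φ T S θ := l1
          _ ≤ 2 * E.card * (S.card * L) := mul_le_mul_of_nonneg_left l2 (by positivity)
          _ = _ := by ring
      have hθ0 : 0 ≤ ∑ t ∈ range T, θ t := sum_nonneg fun t _ => le_max_right _ _
      rcases le_total S.card E.card with h | h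
      · rw [min_eq_left h] at l4
        have h5 : ∑ t ∈ range T, θ t ≤ 2 * E.card * L / S.card := by
          rw [le_div_iff₀ hSc]; linarith
        have h6 : 2 * L * ((E.card : ℝ) / S.card + 1) = 2 * E.card * L / S.card + 2 * L := by
          ring
        rw [h6]
        linarith
      · rw [min_eq_right h] at l4
        have h5 : ∑ t ∈ range T, θ t ≤ 2 * L := by
          refine le_of_mul_le_mul_left (a := (E.card : ℝ)) ?_ hEp
          linarith
        have h6 : 0 ≤ 2 * L * ((E.card : ℝ) / S.card) := by positivity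
        linarith
  -- the sum
  have split : ∀ t ∈ range T, η t ≤ θ t + (if t ∈ E then c3 else 0) +
      (16 * cost r₀ t + 4 / 3 * max (η t - sh r₀ η t) 0) := by
    intro t ht
    have k1 := hc0 r₀ hr₀ t
    have k2 := le_max_left (η t - sh r₀ η t) 0
    have k3 := le_max_right (η t - sh r₀ η t) 0
    have k4 : η t - c3 ≤ θ t := le_max_left _ _
    have k5 : 0 ≤ θ t := le_max_right _ _
    by_cases h : t ∈ E
    · rw [if_pos h]
      linarith
    · rw [if_neg h]
      have k6 : η t ≤ c3 := not_lt.1 fun hlt => h (mem_filter.2 ⟨ht, hlt⟩)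
      rcases le_or_gt (η t) (4 * sh r₀ η t) with h7 | h7
      · have := h3 r₀ hr₀ t k6 h7
        linarith
      · linarith
  have l5 := sum_le_sum split
  rw [sum_add_distrib, sum_add_distrib, sum_add_distrib, ← mul_sum, ← mul_sum] at l5
  have l6 : ∑ t ∈ range T, (if t ∈ E then c3 else 0) = c3 * E.card := by
    rw [← sum_filter, filter_mem_eq_inter, inter_eq_right.2 (filter_subset _ _), sum_const,
      nsmul_eq_mul, mul_comm]
  rw [l6] at l5
  have l7 := hL r₀ hr₀
  have l8 := inc r₀ hr₀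
  have l9 : c3 * E.card ≤ c3 * (2 * L / c2 + 2 * L / β) := mul_le_mul_of_nonneg_left cE p3.le
  have l10 : 2 * L * ((E.card : ℝ) / S.card + 1) ≤
      2 * L * ((2 * L / c2 + 2 * L / β) / S.card + 1) := by
    refine mul_le_mul_of_nonneg_left ?_ (by positivity)
    have : (E.card : ℝ) / S.card ≤ (2 * L / c2 + 2 * L / β) / S.card :=
      div_le_div_of_nonneg_right cE hSc.le
    linarith
  linarith

end Pool.Agent.U234.OD
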