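import Pool.Agent.U234.LD.Two
import Pool.Agent.U234.OD.Seqt
import Pool.Agent.U234.OD.Lev

/-! The main inequality for few large dilates. -/

set_option autoImplicit false

open Finset Real

namespace Pool.Agent.U234.OD

open Pool.Agent.U234.LD

variable {Γ : Type*} [AddCommGroup Γ]

theorem gain (F : ℕ → AddSubgroup Γ) (ψ : Γ →+ Γ) (r : ℕ) (hanti : Antitone F)
    (hψ : ∀ s z, ψ z ∈ F s ↔ z ∈ F (s - r)) (A : Finset Γ) (t : ℕ) :
    A.card * (K A (pi (F (t + 1))) - K A (pi (F t))) ≤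
      K (A ×ˢ A) (ps (F (t + 1)) ψ) - K (A ×ˢ A) (ps (F t) ψ) ∧
    A.card * (K A (pi (F (t + 1 - r))) - K A (pi (F (t - r)))) ≤
      K (A ×ˢ A) (ps (F (t + 1)) ψ) - K (A ×ˢ A) (ps (F t) ψ) := by
  classical
  have h0 := block F ψ r hanti hψ A A (t := t) (s := t + 1) (Nat.le_succ t)
  have eA : ∑ x ∈ cls (F t) A, K (fib (F t) A x) (pi (F (t + 1))) =
      K A (pi (F (t + 1))) - K A (pi (F t)) := by
    refine sum_fibre F A (pi (F (t + 1))) fun x _ y _ h => ?_
    rw [pi_eq] at h ⊢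
    exact hanti (Nat.le_succ t) h
  have eB : ∑ y ∈ cls (F (t - r)) A, K (fib (F (t - r)) A y) (pj (F (t + 1)) ψ) =
      K A (pi (F (t + 1 - r))) - K A (pi (F (t - r))) := by
    rw [sum_fibre F A (pj (F (t + 1)) ψ) (fun x _ y _ h => ?_), K_shift F ψ r hψ]
    unfold pj at h
    rw [pi_eq, ← map_sub, hψ] at h
    rw [pi_eq]
    exact hanti (by omega) h
  have cA := sum_card_fibre F A t
  have cB := sum_card_fibre F A (t - r)
  constructor
  · have h3 : ∑ c ∈ cls (F t) A, ∑ c' ∈ cls (F (t - r)) A,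
        ((fib (F (t - r)) A c').card : ℝ) * K (fib (F t) A c) (pi (F (t + 1))) ≤
        ∑ c ∈ cls (F t) A, ∑ c' ∈ cls (F (t - r)) A,
          K (fib (F t) A c ×ˢ fib (F (t - r)) A c') (ps (F (t + 1)) ψ) :=
      sum_le_sum fun c _ => sum_le_sum fun c' _ =>
        K_add_ge_fst (fib (F t) A c) (fib (F (t - r)) A c') (pi (F (t + 1))) (pj (F (t + 1)) ψ)
    have gen : ∀ (S : Finset (Q (F t))) (S' : Finset (Q (F (t - r)))) (k : Q (F t) → ℝ)
        (m : Q (F (t - r)) → ℝ), ∑ c ∈ S, ∑ c' ∈ S', m c' * k c =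
          (∑ c' ∈ S', m c') * ∑ c ∈ S, k c := by
      intro S S' k m
      simp only [← mul_sum, ← sum_mul]
    rw [gen _ _ (fun c => K (fib (F t) A c) (pi (F (t + 1))))
      (fun c' => ((fib (F (t - r)) A c').card : ℝ)), cB, eA] at h3
    linarith
  · have h3 : ∑ c ∈ cls (F t) A, ∑ c' ∈ cls (F (t - r)) A,
        ((fib (F t) A c).card : ℝ) * K (fib (F (t - r)) A c') (pj (F (t + 1)) ψ) ≤
        ∑ c ∈ cls (F t) A, ∑ c' ∈ cls (F (t - r)) A,
          K (fib (F t) A c ×ˢ fib (F (t - r)) A c') (ps (F (t + 1)) ψ) :=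
      sum_le_sum fun c _ => sum_le_sum fun c' _ =>
        K_add_ge_snd (fib (F t) A c) (fib (F (t - r)) A c') (pi (F (t + 1))) (pj (F (t + 1)) ψ)
    have gen : ∀ (S : Finset (Q (F t))) (S' : Finset (Q (F (t - r)))) (n : Q (F t) → ℝ)
        (l : Q (F (t - r)) → ℝ), ∑ c ∈ S, ∑ c' ∈ S', n c * l c' =
          (∑ c ∈ S, n c) * ∑ c' ∈ S', l c' := by
      intro S S' n l
      simp only [← mul_sum, ← sum_mul]
    rw [gen _ _ (fun c => ((fib (F t) A c).card : ℝ))
      (fun c' => K (fib (F (t - r)) A c') (pj (F (t + 1)) ψ)), cA, eB] at h3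
    linarith

theorem exp_ten : 20 * exp 10 * (1 / 2000000) ≤ (1 / 4 : ℝ) := by
  have h1 : exp 10 = exp 1 ^ 10 := by
    rw [← Real.exp_nat_mul]; norm_num
  have h2 : exp 1 ^ 10 ≤ (2.7182818286 : ℝ) ^ 10 :=
    pow_le_pow_left₀ (exp_pos 1).le exp_one_lt_d9.le 10
  have h3 : (2.7182818286 : ℝ) ^ 10 ≤ 22027 := by norm_num
  rw [h1]
  linarith

/-- **The main inequality**, abstract form. -/
theorem core1 (F : ℕ → AddSubgroup Γ) (h0 : F 0 = ⊤) (hanti : Antitone F) (T₀ : ℕ)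
    (S : Finset ℕ) (hS1 : ∀ r ∈ S, 1 ≤ r) (ψ : ℕ → (Γ →+ Γ))
    (hψ : ∀ r ∈ S, ∀ s z, ψ r z ∈ F s ↔ z ∈ F (s - r)) (A : Finset Γ)
    (hA : A.Nonempty) (E L : ℝ)
    (sep : ∀ t, T₀ ≤ t → K A (pi (F t)) = A.card * E)
    (upper : ∀ r ∈ S, ∀ T, K (A ×ˢ A) (ps (F T) (ψ r)) ≤ A.card * A.card * (E + L))
    (p : ℕ) (hp : 2 ≤ p) (hfin : ∀ t, Finite (Q (F t)))
    (hG : ∀ t, ∀ g : Q (F t), g ≠ 0 → p ≤ addOrderOf g)
    (hL0 : 0 ≤ L) (hR : 4 * L < S.card * log p) :
    E ≤ 10 ^ 32 * (L ^ 2 / S.card + L) := by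
  classical
  have np : (0 : ℝ) < A.card := by exact_mod_cast card_pos.2 hA
  have zA : K A (pi (F 0)) = 0 := by
    refine K_const A _ fun x _ y _ => ?_
    rw [pi_eq, h0]; exact AddSubgroup.mem_top _
  have lp : log 2 ≤ log p := log_le_log (by norm_num) (by exact_mod_cast hp)
  have l2 := log_two_gt_d9
  have hlp : 0 < log (p : ℝ) := by linarith
  set η : ℕ → ℝ := fun t => (K A (pi (F (t + 1))) - K A (pi (F t))) / A.card with hη
  have eη : ∀ t, K A (pi (F (t + 1))) - K A (pi (F t)) = A.card * η t := by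
    intro t
    rw [hη]
    simp only
    rw [mul_div_cancel₀ _ np.ne']
  have esh : ∀ r t, K A (pi (F (t + 1 - r))) - K A (pi (F (t - r))) = A.card * sh r η t := by
    intro r t
    unfold sh
    by_cases h : r ≤ t
    · rw [if_pos h, ← eη, show t + 1 - r = t - r + 1 by omega]
    · rw [if_neg h, mul_zero, show t + 1 - r = 0 by omega, show t - r = 0 by omega, sub_self]
  have η0 : ∀ t, 0 ≤ η t := fun t =>
    div_nonneg (sub_nonneg.2 (mono_level F hanti A (Nat.le_succ t))) np.le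
  set cost : ℕ → ℕ → ℝ := fun r t =>
    (K (A ×ˢ A) (ps (F (t + 1)) (ψ r)) - K (A ×ˢ A) (ps (F t) (ψ r))) / (A.card * A.card) - η t
    with hcost
  have ecost : ∀ r t, K (A ×ˢ A) (ps (F (t + 1)) (ψ r)) - K (A ×ˢ A) (ps (F t) (ψ r)) =
      A.card * A.card * (η t + cost r t) := by
    intro r t
    rw [hcost]
    simp only
    rw [add_sub_cancel, mul_div_cancel₀ _ (mul_pos np np).ne']
  have nn : (0 : ℝ) < A.card * A.card := mul_pos np np
  have g1 : ∀ r ∈ S, ∀ t, 0 ≤ cost r t := by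
    intro r hr t
    have h := (gain F (ψ r) r hanti (hψ r hr) A t).1
    rw [eη, ecost, ← mul_assoc] at h
    have := le_of_mul_le_mul_left h nn
    linarith
  have g2 : ∀ r ∈ S, ∀ t, sh r η t - η t ≤ cost r t := by
    intro r hr t
    have h := (gain F (ψ r) r hanti (hψ r hr) A t).2
    rw [esh, ecost, ← mul_assoc] at h
    have := le_of_mul_le_mul_left h nn
    linarith
  have zη : ∀ t, T₀ ≤ t → η t = 0 := by
    intro t ht
    rw [hη]
    simp only
    rw [sep t ht, sep (t + 1) (by omega), sub_self, zero_div]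
  obtain ⟨J, hJ⟩ : ∃ J : ℕ, ∀ r ∈ S, r ≤ J := ⟨S.sup id, fun r hr => le_sup (f := id) hr⟩
  have tel : ∀ T, ∑ t ∈ range T, A.card * η t = K A (pi (F T)) := by
    intro T
    have e2 := sum_range_sub (fun t => K A (pi (F t))) T
    rw [zA, sub_zero] at e2
    rw [← e2]
    exact sum_congr rfl fun t _ => (eη t).symm
  have s1 : ∑ t ∈ range (T₀ + J), η t = E := by
    have h := tel (T₀ + J)
    rw [← mul_sum, sep _ (by omega)] at h
    exact mul_left_cancel₀ np.ne' h
  have s2 : ∀ r ∈ S, ∑ t ∈ range (T₀ + J), η t = ∑ t ∈ range (T₀ + J), sh r η t := by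
    intro r hr
    have hrJ := hJ r hr
    rw [s1]
    have e3 := sum_range_sub (fun t => K A (pi (F (t - r)))) (T₀ + J)
    rw [Nat.zero_sub, zA, sub_zero, sep _ (by omega)] at e3
    refine mul_left_cancel₀ np.ne' ?_
    rw [← e3, mul_sum]
    exact sum_congr rfl fun t _ => esh r t
  have s3 : ∀ r ∈ S, ∑ t ∈ range (T₀ + J), cost r t ≤ L := by
    intro r hr
    have e1 := sum_range_sub (fun t => K (A ×ˢ A) (ps (F t) (ψ r))) (T₀ + J)
    have e2 : ∑ t ∈ range (T₀ + J), (K (A ×ˢ A) (ps (F (t + 1)) (ψ r)) -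
        K (A ×ˢ A) (ps (F t) (ψ r))) =
        A.card * A.card * (E + ∑ t ∈ range (T₀ + J), cost r t) := by
      rw [← s1, ← sum_add_distrib, mul_sum]
      exact sum_congr rfl fun t _ => ecost r t
    rw [e2] at e1
    have h3 := K_nonneg (A ×ˢ A) (ps (F 0) (ψ r))
    have h4 := upper r hr (T₀ + J)
    have h5 : (A.card : ℝ) * A.card * (E + ∑ t ∈ range (T₀ + J), cost r t) ≤
        A.card * A.card * (E + L) := by linarith
    have := le_of_mul_le_mul_left h5 nn
    linarith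
  have l3 : ∀ r ∈ S, ∀ t, η t ≤ 1 / 2000000 → η t ≤ 4 * sh r η t → η t ≤ 16 * cost r t := by
    intro r hr t h1 h2
    have h := level F (ψ r) r hanti (hψ r hr) A A (1 / 10) (by norm_num) (by norm_num) t
    have e := ecost r t
    rw [eη, esh] at h
    have e10 : (2 : ℝ) / (1 / 10) * exp (1 / (1 / 10)) = 20 * exp 10 := by norm_num
    rw [e10] at h
    have h6 : (A.card : ℝ) * A.card * ((1 - 1 / 10) * (η t + sh r η t) -
        20 * exp 10 * (η t * sh r η t)) ≤ A.card * A.card * (η t + cost r t) := by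
      rw [← e]
      refine le_trans (le_of_eq ?_) (sub_le_sub_right h (K (A ×ˢ A) (ps (F t) (ψ r))))
      ring
    have h7 := le_of_mul_le_mul_left h6 nn
    have h8 := sh_nonneg η0 r t
    have h9 : 20 * exp 10 * (η t * sh r η t) ≤ 1 / 4 * sh r η t := by
      have h10 : 20 * exp 10 * η t ≤ 1 / 4 := by
        refine le_trans ?_ exp_ten
        exact mul_le_mul_of_nonneg_left h1 (by positivity)
      calc 20 * exp 10 * (η t * sh r η t) = 20 * exp 10 * η t * sh r η t := by ring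
        _ ≤ _ := mul_le_mul_of_nonneg_right h10 h8
    linarith
  have l4 : ∀ r ∈ S, ∀ t, cost r t ≤ 1 / (2 * 10 ^ 31) → η t ≤ sh r η t + 1 / (2 * 10 ^ 31) →
      η t ≤ 1 / 2000000 ∨ log p / 2 ≤ η t := by
    intro r hr t h1 h2
    have := hfin (t + 1)
    have h := level4 F (ψ r) r hanti (hψ r hr) A hA t p hp (hG (t + 1)) (1 / 12000000)
      (1 / (2 * 10 ^ 31)) (η t) (sh r η t) (by norm_num) (by norm_num) (by norm_num)
      (eη t) (esh r t) (by
        rw [ecost]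
        exact mul_le_mul_of_nonneg_left (by linarith) nn.le) h2
    rcases h with h | h
    · left; linarith
    · right; exact h
  have main := seq (T₀ + J) η η0 (fun t ht => zη t (by omega)) S hS1 cost g1
    (1 / (2 * 10 ^ 31)) (1 / 2000000) (log p / 2) L (by norm_num) (by norm_num) (by linarith)
    g2 l3 l4 s3 s2 (by linarith) hL0
  rw [s1] at main
  have hSc : (0 : ℝ) < S.card := by
    by_contra hno
    have h1 : (S.card : ℝ) ≤ 0 := not_lt.1 hno
    nlinarith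
  have b1 : 2 * L / (1 / (2 * 10 ^ 31)) + 2 * L / (log p / 2) ≤ 5 * 10 ^ 31 * L := by
    have b2 : 2 * L / (log p / 2) ≤ 6 * L := by
      rw [div_le_iff₀ (by linarith)]
      nlinarith
    have b3 : 2 * L / (1 / (2 * 10 ^ 31)) = 4 * 10 ^ 31 * L := by
      field_simp
      ring
    rw [b3]
    linarith
  have b4 : (2 * L / (1 / (2 * 10 ^ 31)) + 2 * L / (log p / 2)) / S.card ≤
      5 * 10 ^ 31 * L / S.card := div_le_div_of_nonneg_right b1 hSc.le
  have b5 : 2 * L * ((2 * L / (1 / (2 * 10 ^ 31)) + 2 * L / (log p / 2)) / S.card + 1) ≤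
      2 * L * (5 * 10 ^ 31 * L / S.card + 1) :=
    mul_le_mul_of_nonneg_left (by linarith) (by linarith)
  have b6 : 2 * L * (5 * 10 ^ 31 * L / S.card + 1) = 10 ^ 32 * (L ^ 2 / S.card) + 2 * L := by
    ring
  linarith

end Pool.Agent.U234.OD
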