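import Pool.Agent.U234.OD.Inv2

/-! The inverse theorem for two successive quotients. -/

set_option autoImplicit false
set_option linter.unusedSectionVars false

open Finset Real
open Pool.Agent.U234.LD

namespace Pool.Agent.U234.OD

variable {ι κ G G' : Type*} [AddCommGroup G] [AddCommGroup G']

/-- a nontrivial subgroup of the kernel -/
theorem nontriv2 [Fintype G] (ϖ : G →+ G') (A : Finset ι) (U : ι → G) (hA : A.Nonempty) (p : ℕ)
    (hp : 2 ≤ p) (ε : ℝ) (hε : 0 < ε) (hε1 : ε ≤ 1 / 100) (H : AddSubgroup G)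
    (hH : p ≤ Nat.card H) (hker : ∀ s ∈ H, ϖ s = 0)
    (hinv : ∀ s ∈ H, D (tr s (sl A U)) (sl A U) ≤ 2 * ε) :
    (log p / 2 + 1 / 10) * A.card ≤ K A U - K A (fun a => ϖ (U a)) := by
  classical
  have np : (0 : ℝ) < A.card := by exact_mod_cast card_pos.2 hA
  set f := sl A U with hf
  have sf : ∑ x, f x ^ 2 = 1 := sum_sl A hA U
  set Hs : Finset G := univ.filter fun s => s ∈ H with hHs
  have hq : Hs.card = Nat.card H := by
    rw [hHs, Nat.card_eq_fintype_card, Fintype.card_subtype]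
  have hqp : p ≤ Hs.card := by rw [hq]; exact hH
  set q : ℝ := (Hs.card : ℝ) with hqd
  have qp : (p : ℝ) ≤ q := by rw [hqd]; exact_mod_cast hqp
  have p2 : (2 : ℝ) ≤ p := by exact_mod_cast hp
  have q0 : 0 < q := by linarith
  set av : G → ℝ := fun x => (∑ s ∈ Hs, f (x - s)) / q with hav
  have a1 : ∑ x, (f x - av x) ^ 2 ≤ 4 * ε ^ 2 := by
    have h1 : ∀ x, (f x - av x) ^ 2 ≤ (∑ s ∈ Hs, (f (x - s) - f x) ^ 2) / q := by
      intro x
      have h2 : f x - av x = -(∑ s ∈ Hs, (f (x - s) - f x)) / q := by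
        rw [sum_sub_distrib, sum_const, nsmul_eq_mul, hav, ← hqd]
        field_simp
        ring
      have h3 := sq_sum_le_card_mul_sum_sq (s := Hs) (f := fun s => f (x - s) - f x)
      rw [h2, div_pow, neg_sq, div_le_div_iff₀ (by positivity) q0]
      have h4 := mul_le_mul_of_nonneg_right h3 q0.le
      rw [← hqd] at h4
      linarith
    refine (sum_le_sum fun x _ => h1 x).trans ?_
    rw [← sum_div, sum_comm, div_le_iff₀ q0]
    have h5 : ∀ s ∈ Hs, ∑ x, (f (x - s) - f x) ^ 2 ≤ 4 * ε ^ 2 := by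
      intro s hs
      have h6 := hinv s (mem_filter.1 hs).2
      have h7 := D_sq (tr s f) f
      have h8 : ∑ x, (f (x - s) - f x) ^ 2 = D (tr s f) f ^ 2 := h7.symm
      rw [h8]
      have := D_nonneg (tr s f) f
      nlinarith
    refine (sum_le_sum h5).trans (le_of_eq ?_)
    rw [sum_const, nsmul_eq_mul, ← hqd]
    ring
  -- the mass of the fibre of `ϖ`
  set ν : G → ℝ := fun x => ∑ y ∈ univ.filter (fun y => ϖ y = ϖ x), f y ^ 2 with hν
  have ν0 : ∀ x, 0 ≤ ν x := fun x => sum_nonneg fun _ _ => sq_nonneg _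
  have νU : ∀ a, ν (U a) = (N A (fun a => ϖ (U a)) a : ℝ) / A.card := by
    intro a
    have h := sum_val A hA U (fun g => if ϖ g = ϖ (U a) then (1 : ℝ) else 0)
    have h1 : ∑ b ∈ A, (if ϖ (U b) = ϖ (U a) then (1 : ℝ) else 0) =
        (N A (fun a => ϖ (U a)) a : ℝ) := by
      unfold N
      rw [card_filter]
      push_cast
      exact sum_congr rfl fun b _ => rfl
    have h2 : ∑ x, f x ^ 2 * (if ϖ x = ϖ (U a) then (1 : ℝ) else 0) = ν (U a) := by
      rw [hν]
      simp only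
      rw [sum_filter]
      refine sum_congr rfl fun x _ => ?_
      split_ifs <;> simp
    rw [h1] at h
    rw [eq_div_iff np.ne', h, ← h2, mul_comm]
  have a2 : ∀ x, av x ^ 2 ≤ ν x / q := by
    intro x
    have h3 := sq_sum_le_card_mul_sum_sq (s := Hs) (f := fun s => f (x - s))
    have h4 : ∑ s ∈ Hs, f (x - s) ^ 2 ≤ ν x := by
      have h5 : ∑ s ∈ Hs, f (x - s) ^ 2 = ∑ y ∈ Hs.image (fun s => x - s), f y ^ 2 := by
        rw [sum_image]
        intro s _ t _ h
        exact sub_right_inj.1 h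
      rw [h5]
      refine sum_le_sum_of_subset_of_nonneg ?_ fun _ _ _ => sq_nonneg _
      intro y hy
      obtain ⟨s, hs, rfl⟩ := mem_image.1 hy
      rw [mem_filter]
      refine ⟨mem_univ _, ?_⟩
      rw [map_sub, hker s (mem_filter.1 hs).2, sub_zero]
    rw [hav]
    simp only
    rw [div_pow, div_le_div_iff₀ (by positivity) q0]
    have h6 := mul_le_mul_of_nonneg_left h4 q0.le
    rw [← hqd] at h3
    nlinarith
  -- the large values
  set Z : Set G := {x | 121 / 100 * ν x / q < f x ^ 2} with hZ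
  have a3 : ∀ x, x ∈ Z → f x ^ 2 ≤ 121 * (f x - av x) ^ 2 := by
    intro x hx
    have p1 : 0 ≤ f x := sl_nonneg _ _ _
    have p3 : 0 ≤ av x := div_nonneg (sum_nonneg fun _ _ => sl_nonneg _ _ _) q0.le
    have h3 : 121 / 100 * ν x / q < f x ^ 2 := hx
    have h4 := a2 x
    have h5 : (11 / 10 * av x) ^ 2 ≤ f x ^ 2 := by
      have : 121 / 100 * ν x / q = 121 / 100 * (ν x / q) := by ring
      rw [mul_pow]
      nlinarith
    have h6 : 11 / 10 * av x ≤ f x := abs_le_of_sq_le_sq' h5 p1 |>.2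
    have h7 : f x / 11 ≤ f x - av x := by linarith
    have h8 : (f x / 11) ^ 2 ≤ (f x - av x) ^ 2 := pow_le_pow_left₀ (by positivity) h7 2
    nlinarith
  have a4 : ((A.filter fun a => U a ∉ Zᶜ).card : ℝ) ≤ 484 * ε ^ 2 * A.card := by
    have h0 : ((A.filter fun a => U a ∉ Zᶜ).card : ℝ) = A.card * ∑ x, out Zᶜ (sl A U) x ^ 2 := by
      have := prob_out A hA U Zᶜ
      convert this
    rw [h0, mul_comm]
    refine mul_le_mul_of_nonneg_right ?_ np.le
    have h3 : ∑ x, out Zᶜ f x ^ 2 ≤ ∑ x, 121 * (f x - av x) ^ 2 := by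
      refine sum_le_sum fun x _ => ?_
      unfold out
      by_cases hx : x ∈ Z
      · have hx' : x ∉ Zᶜ := fun h => h hx
        rw [if_neg hx']
        exact a3 x hx
      · have hx' : x ∈ Zᶜ := hx
        rw [if_pos hx']
        simp; positivity
    refine h3.trans ?_
    rw [← mul_sum]
    linarith
  have Nle : ∀ a ∈ A, N A U a ≤ N A (fun a => ϖ (U a)) a := by
    intro a _
    unfold N
    refine card_le_card fun b hb => ?_
    rw [mem_filter] at hb ⊢
    exact ⟨hb.1, by simp only; rw [hb.2]⟩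
  have eK : K A U - K A (fun a => ϖ (U a)) =
      ∑ a ∈ A, log ((N A (fun a => ϖ (U a)) a : ℝ) / N A U a) := by
    unfold K
    have : ∀ a ∈ A, log ((N A (fun a => ϖ (U a)) a : ℝ) / N A U a) =
        log (N A (fun a => ϖ (U a)) a) - log (N A U a) := by
      intro a ha
      have h1 : (0 : ℝ) < N A (fun a => ϖ (U a)) a := by exact_mod_cast N_pos ha
      have h2 : (0 : ℝ) < N A U a := by exact_mod_cast N_pos ha
      rw [log_div h1.ne' h2.ne']
    rw [sum_congr rfl this, sum_sub_distrib]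
    ring
  have a5 : ((A.filter fun a => U a ∈ Zᶜ).card : ℝ) * log (q / (121 / 100)) ≤
      K A U - K A (fun a => ϖ (U a)) := by
    rw [eK, ← nsmul_eq_mul, ← sum_const]
    refine le_trans (sum_le_sum fun a ha => ?_)
      (sum_le_sum_of_subset_of_nonneg (filter_subset (fun a => U a ∈ Zᶜ) A)
        fun a ha _ => log_nonneg (by
          have h2 : (0 : ℝ) < N A U a := by exact_mod_cast N_pos ha
          rw [le_div_iff₀ h2, one_mul]
          exact_mod_cast Nle a ha))
    obtain ⟨ha1, ha2⟩ := mem_filter.1 ha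
    have p1 : (0 : ℝ) < N A U a := by exact_mod_cast N_pos ha1
    refine log_le_log (by positivity) ?_
    have h3 : f (U a) ^ 2 ≤ 121 / 100 * ν (U a) / q := not_lt.1 ha2
    rw [hf, sl_val, νU] at h3
    rw [div_le_div_iff₀ (by norm_num) p1]
    have h4 : (N A U a : ℝ) / A.card * (A.card * q) ≤
        121 / 100 * ((N A (fun a => ϖ (U a)) a : ℝ) / A.card) / q * (A.card * q) :=
      mul_le_mul_of_nonneg_right h3 (by positivity)
    have e1 : (N A U a : ℝ) / A.card * (A.card * q) = N A U a * q := by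
      field_simp
    have e2 : 121 / 100 * ((N A (fun a => ϖ (U a)) a : ℝ) / A.card) / q * (A.card * q) =
        121 / 100 * N A (fun a => ϖ (U a)) a := by
      field_simp
    rw [e1, e2] at h4
    linarith
  have a6 : ((A.filter fun a => U a ∈ Zᶜ).card : ℝ) + (A.filter fun a => U a ∉ Zᶜ).card = A.card := by
    exact_mod_cast card_filter_add_card_filter_not (s := A) (fun a => U a ∈ Zᶜ)
  have l2 := log_two_gt_d9
  have lp : log 2 ≤ log p := log_le_log (by norm_num) p2
  have lq : log p ≤ log q := log_le_log (by linarith) qp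
  have l1 : log (121 / 100) ≤ 21 / 100 := by
    have := log_le_sub_one_of_pos (x := (121 / 100 : ℝ)) (by norm_num)
    linarith
  have e1 : log (q / (121 / 100)) = log q - log (121 / 100) := log_div q0.ne' (by norm_num)
  have he : 484 * ε ^ 2 ≤ 484 / 10000 := by nlinarith
  have e2 : (1 - 484 / 10000) * A.card ≤ ((A.filter fun a => U a ∈ Zᶜ).card : ℝ) := by
    have := mul_le_mul_of_nonneg_right he np.le
    linarith
  have e3 : 0 ≤ log (q / (121 / 100)) := by rw [e1]; linarith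
  have e4 := mul_le_mul_of_nonneg_right e2 e3
  have e5 : (log p / 2 + 1 / 10) ≤ (1 - 484 / 10000) * log (q / (121 / 100)) := by
    rw [e1]; linarith
  have e6 := mul_le_mul_of_nonneg_right e5 np.le
  linarith

/-- **The inverse theorem for two quotients.** -/
theorem inverse2 [Finite G] [Finite G'] (ϖ : G →+ G') (q : ℕ) (hq : 2 ≤ q)
    (hG : ∀ g : G, ϖ g ≠ 0 → ∃ n : ℕ, ϖ (n • g) = 0 ∧ q ≤ addOrderOf (n • g))
    (A : Finset ι) (B : Finset κ) (U : ι → G) (V : κ → G) (hA : A.Nonempty)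
    (hB : B.Nonempty) (ε : ℝ) (hε : 0 < ε) (hε1 : ε ≤ 1 / 100)
    (h1 : K (A ×ˢ B) (fun z => U z.1 + V z.2) - B.card * K A U ≤ ε ^ 4 / 64 * (A.card * B.card))
    (h2 : K (A ×ˢ B) (fun z => U z.1 + V z.2) - A.card * K B V ≤
      2 * (ε ^ 4 / 64) * (A.card * B.card))
    (h3 : K (A ×ˢ B) (fun z => ϖ (U z.1) + ϖ (V z.2)) - B.card * K A (fun a => ϖ (U a)) ≤
      ε ^ 4 / 64 * (A.card * B.card)) :
    K B (fun b => ϖ (V b)) ≤ 5 * ε * B.card ∨
      (log q / 2 + 1 / 10) * A.card ≤ K A U - K A (fun a => ϖ (U a)) := by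
  classical
  have := Fintype.ofFinite G
  have := Fintype.ofFinite G'
  obtain ⟨H, u₀, v₀, h4, h5, _⟩ := structure_lemma A B U V hA hB ε hε hε1 h1 h2
  by_cases hH : ∀ x ∈ H, ϖ x = 0
  · left
    have np : (0 : ℝ) < A.card := by exact_mod_cast card_pos.2 hA
    refine triv_case A B (fun a => ϖ (U a)) (fun b => ϖ (V b)) hA hB ε hε hε1 h3 (ϖ u₀) ?_
    rw [D_zero] at h5 ⊢
    refine le_trans (sqrt_le_sqrt ?_) h5
    have k1 := prob_out A hA U {x | x - u₀ ∈ H}
    have k2 := prob_out A hA (fun a => ϖ (U a)) {x | x - ϖ u₀ ∈ (⊥ : AddSubgroup G')}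
    refine le_of_mul_le_mul_left (a := (A.card : ℝ)) ?_ np
    rw [← k1, ← k2]
    refine Nat.cast_le.2 (card_le_card fun a ha => ?_)
    rw [mem_filter] at ha ⊢
    refine ⟨ha.1, fun h => ha.2 ?_⟩
    have h6 : U a - u₀ ∈ H := h
    have h7 := hH _ h6
    rw [map_sub] at h7
    exact (AddSubgroup.mem_bot).2 h7
  · right
    push Not at hH
    obtain ⟨x, hx, hx0⟩ := hH
    obtain ⟨n, hn1, hn2⟩ := hG x hx0
    refine nontriv2 ϖ A U hA q hq ε hε hε1 (AddSubgroup.zmultiples (n • x)) ?_ ?_ ?_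
    · rw [Nat.card_zmultiples]; exact hn2
    · intro s hs
      obtain ⟨m, rfl⟩ := AddSubgroup.mem_zmultiples_iff.1 hs
      rw [map_zsmul, hn1, smul_zero]
    · intro s hs
      refine h4 s ?_
      exact (AddSubgroup.zmultiples_le_of_mem (H.nsmul_mem hx n)) hs

end Pool.Agent.U234.OD
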