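import Pool.Agent.U234.LD.Core
import Pool.Agent.U234.OD.Avg2
import Pool.Agent.U234.OD.Inv3

/-! Two successive levels of the filtration. -/

set_option autoImplicit false

open Finset Real

namespace Pool.Agent.U234.OD

open Pool.Agent.U234.LD

variable {Γ : Type*} [AddCommGroup Γ]

/-- the mean entropy of a class -/
noncomputable def ea (F : ℕ → AddSubgroup Γ) (A : Finset Γ) (t s : ℕ) (x : Q (F t)) : ℝ :=
  K (fib (F t) A x) (pi (F s)) / (fib (F t) A x).card

/-- the mean entropy of a class, after `ψ` -/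
noncomputable def eb (F : ℕ → AddSubgroup Γ) (ψ : Γ →+ Γ) (A : Finset Γ) (t s : ℕ)
    (y : Q (F t)) : ℝ :=
  K (fib (F t) A y) (pj (F s) ψ) / (fib (F t) A y).card

/-- the mean entropy of a sum -/
noncomputable def eh (F : ℕ → AddSubgroup Γ) (ψ : Γ →+ Γ) (A : Finset Γ) (t t' s : ℕ)
    (x : Q (F t)) (y : Q (F t')) : ℝ :=
  K (fib (F t) A x ×ˢ fib (F t') A y) (ps (F s) ψ) / ((fib (F t) A x).card * (fib (F t') A y).card)

theorem ea_le (F : ℕ → AddSubgroup Γ) (ψ : Γ →+ Γ) (A : Finset Γ) (t t' s : ℕ)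
    (x : Q (F t)) (y : Q (F t')) (hx : (0 : ℝ) < (fib (F t) A x).card)
    (hy : (0 : ℝ) < (fib (F t') A y).card) :
    ea F A t s x ≤ eh F ψ A t t' s x y ∧ eb F ψ A t' s y ≤ eh F ψ A t t' s x y := by
  unfold ea eb eh
  constructor
  · have h3 : (fib (F t') A y).card * K (fib (F t) A x) (pi (F s)) ≤
        K (fib (F t) A x ×ˢ fib (F t') A y) (ps (F s) ψ) :=
      K_add_ge_fst (fib (F t) A x) (fib (F t') A y) (pi (F s)) (pj (F s) ψ)
    rw [div_le_div_iff₀ hx (by positivity)]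
    calc K (fib (F t) A x) (pi (F s)) * ((fib (F t) A x).card * (fib (F t') A y).card) =
        (fib (F t') A y).card * K (fib (F t) A x) (pi (F s)) * (fib (F t) A x).card := by ring
      _ ≤ _ := mul_le_mul_of_nonneg_right h3 hx.le
  · have h3 : (fib (F t) A x).card * K (fib (F t') A y) (pj (F s) ψ) ≤
        K (fib (F t) A x ×ˢ fib (F t') A y) (ps (F s) ψ) :=
      K_add_ge_snd (fib (F t) A x) (fib (F t') A y) (pi (F s)) (pj (F s) ψ)
    rw [div_le_div_iff₀ hy (by positivity)]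
    calc K (fib (F t') A y) (pj (F s) ψ) * ((fib (F t) A x).card * (fib (F t') A y).card) =
        (fib (F t) A x).card * K (fib (F t') A y) (pj (F s) ψ) * (fib (F t') A y).card := by ring
      _ ≤ _ := mul_le_mul_of_nonneg_right h3 hy.le

/-- the total defect of a pair of classes -/
noncomputable def X (F : ℕ → AddSubgroup Γ) (ψ : Γ →+ Γ) (A : Finset Γ) (t t' s : ℕ) (η : ℝ)
    (x : Q (F t)) (y : Q (F t')) : ℝ :=
  ((eh F ψ A t t' s x y - ea F A t s x) + (eh F ψ A t t' s x y - eb F ψ A t' s y)) +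
    |ea F A t s x - η| + |eb F ψ A t' s y - η|

theorem sys (F : ℕ → AddSubgroup Γ) (ψ : Γ →+ Γ) (r : ℕ) (hanti : Antitone F)
    (hψ : ∀ s z, ψ z ∈ F s ↔ z ∈ F (s - r)) (A : Finset Γ) (hA : A.Nonempty) {t s : ℕ}
    (hts : t ≤ s) (c η η' : ℝ)
    (eη : K A (pi (F s)) - K A (pi (F t)) = A.card * η)
    (eη' : K A (pi (F (s - r))) - K A (pi (F (t - r))) = A.card * η')
    (h1 : K (A ×ˢ A) (ps (F s) ψ) - K (A ×ˢ A) (ps (F t) ψ) ≤ A.card * A.card * (η + c))
    (h2 : η ≤ η' + c) :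
    ∑ x ∈ cls (F t) A, ∑ y ∈ cls (F (t - r)) A,
      ((fib (F t) A x).card : ℝ) / A.card * (((fib (F (t - r)) A y).card : ℝ) / A.card) *
        X F ψ A t (t - r) s η x y ≤ 10 * c := by
  classical
  have np : (0 : ℝ) < A.card := by exact_mod_cast card_pos.2 hA
  have h0 := block F ψ r hanti hψ A A (t := t) (s := s) hts
  have eA : ∑ x ∈ cls (F t) A, K (fib (F t) A x) (pi (F s)) = A.card * η := by
    rw [← eη]
    refine sum_fibre F A (pi (F s)) fun x _ y _ h => ?_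
    rw [pi_eq] at h ⊢
    exact hanti hts h
  have eB : ∑ y ∈ cls (F (t - r)) A, K (fib (F (t - r)) A y) (pj (F s) ψ) =
      A.card * η' := by
    rw [← eη', sum_fibre F A (pj (F s) ψ) (fun x _ y _ h => ?_), K_shift F ψ r hψ]
    unfold pj at h
    rw [pi_eq, ← map_sub, hψ] at h
    rw [pi_eq]
    exact hanti (by omega) h
  have cA := sum_card_fibre F A t
  have cB := sum_card_fibre F A (t - r)
  have pA : ∀ x ∈ cls (F t) A, (0 : ℝ) < (fib (F t) A x).card := fun x hx => by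
    obtain ⟨y, hy, hyx⟩ := mem_cls.1 hx
    exact_mod_cast card_pos.2 ⟨y, mem_fib.2 ⟨hy, hyx⟩⟩
  have pB : ∀ x ∈ cls (F (t - r)) A, (0 : ℝ) < (fib (F (t - r)) A x).card := fun x hx => by
    obtain ⟨y, hy, hyx⟩ := mem_cls.1 hx
    exact_mod_cast card_pos.2 ⟨y, mem_fib.2 ⟨hy, hyx⟩⟩
  refine avgt (cls (F t) A) (cls (F (t - r)) A)
    (fun x => ((fib (F t) A x).card : ℝ) / A.card)
    (fun y => ((fib (F (t - r)) A y).card : ℝ) / A.card)
    (fun x hx => div_pos (pA x hx) np) (fun y hy => div_pos (pB y hy) np)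
    (by rw [← sum_div, cA, div_self np.ne']) (by rw [← sum_div, cB, div_self np.ne'])
    (fun x => ea F A t s x) (fun y => eb F ψ A (t - r) s y)
    (fun x y => eh F ψ A t (t - r) s x y)
    (fun x hx y hy => (ea_le F ψ A t (t - r) s x y (pA x hx) (pB y hy)).1)
    (fun x hx y hy => (ea_le F ψ A t (t - r) s x y (pA x hx) (pB y hy)).2) c η η' ?_ ?_ ?_ h2
  · have g : ∀ x ∈ cls (F t) A, ((fib (F t) A x).card : ℝ) / A.card *
          ea F A t s x = K (fib (F t) A x) (pi (F s)) / A.card := by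
      intro x hx
      unfold ea
      have q1 := (pA x hx).ne'
      have q2 := np.ne'
      field_simp
    rw [sum_congr rfl g, ← sum_div, eA, mul_div_cancel_left₀ _ np.ne']
  · have g : ∀ y ∈ cls (F (t - r)) A, ((fib (F (t - r)) A y).card : ℝ) / A.card *
          eb F ψ A (t - r) s y = K (fib (F (t - r)) A y) (pj (F s) ψ) / A.card := by
      intro y hy
      unfold eb
      have q1 := (pB y hy).ne'
      have q2 := np.ne'
      field_simp
    rw [sum_congr rfl g, ← sum_div, eB, mul_div_cancel_left₀ _ np.ne']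
  · have g : ∀ x ∈ cls (F t) A, ∀ y ∈ cls (F (t - r)) A,
          ((fib (F t) A x).card : ℝ) / A.card * (((fib (F (t - r)) A y).card : ℝ) / A.card) *
          eh F ψ A t (t - r) s x y =
          K (fib (F t) A x ×ˢ fib (F (t - r)) A y) (ps (F s) ψ) / (A.card * A.card) := by
      intro x hx y hy
      unfold eh
      have q1 := (pA x hx).ne'
      have q2 := (pB y hy).ne'
      have q3 := np.ne'
      field_simp
    rw [sum_congr rfl fun x hx => sum_congr rfl fun y hy => g x hx y hy]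
    simp only [← sum_div]
    rw [div_le_iff₀ (by positivity)]
    linarith

/-- the projection of the quotients -/
def pr (F : ℕ → AddSubgroup Γ) (hanti : Antitone F) {t s : ℕ} (hts : t ≤ s) :
    Q (F s) →+ Q (F t) :=
  (QuotientAddGroup.map (F s) (F t) (AddMonoidHom.id Γ) (fun _ hx => hanti hts hx) :
    Γ ⧸ F s →+ Γ ⧸ F t)

theorem pr_pi (F : ℕ → AddSubgroup Γ) (hanti : Antitone F) {t s : ℕ} (hts : t ≤ s) (x : Γ) :
    pr F hanti hts (pi (F s) x) = pi (F t) x := rfl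

theorem level5 (F : ℕ → AddSubgroup Γ) (ψ : Γ →+ Γ) (r : ℕ) (hanti : Antitone F)
    (hψ : ∀ s z, ψ z ∈ F s ↔ z ∈ F (s - r)) (A : Finset Γ) (hA : A.Nonempty) (t : ℕ)
    [Finite (Q (F (t + 1)))] [Finite (Q (F (t + 2)))] (q : ℕ) (hq : 2 ≤ q)
    (hG : ∀ g : Q (F (t + 2)), pr F hanti (Nat.le_succ (t + 1)) g ≠ 0 → ∃ n : ℕ,
      pr F hanti (Nat.le_succ (t + 1)) (n • g) = 0 ∧ q ≤ addOrderOf (n • g))
    (ε c η₁ η₁' η₀ η₀' : ℝ) (hε : 0 < ε)
    (hε1 : ε ≤ 1 / 100) (hc : 20 * c ≤ ε ^ 4 / 64)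
    (eη₁ : K A (pi (F (t + 2))) - K A (pi (F t)) = A.card * η₁)
    (eη₁' : K A (pi (F (t + 2 - r))) - K A (pi (F (t - r))) = A.card * η₁')
    (eη₀ : K A (pi (F (t + 1))) - K A (pi (F t)) = A.card * η₀)
    (eη₀' : K A (pi (F (t + 1 - r))) - K A (pi (F (t - r))) = A.card * η₀')
    (h1 : K (A ×ˢ A) (ps (F (t + 2)) ψ) - K (A ×ˢ A) (ps (F t) ψ) ≤
      A.card * A.card * (η₁ + c))
    (h2 : η₁ ≤ η₁' + c)
    (h3 : K (A ×ˢ A) (ps (F (t + 1)) ψ) - K (A ×ˢ A) (ps (F t) ψ) ≤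
      A.card * A.card * (η₀ + c))
    (h4 : η₀ ≤ η₀' + c) : η₀ ≤ 6 * ε ∨ log q / 2 ≤ η₁ - η₀ := by
  classical
  have np : (0 : ℝ) < A.card := by exact_mod_cast card_pos.2 hA
  have s1 := sys F ψ r hanti hψ A hA (t := t) (s := t + 2) (by omega) c η₁ η₁' eη₁ eη₁' h1 h2
  have s2 := sys F ψ r hanti hψ A hA (t := t) (s := t + 1) (by omega) c η₀ η₀' eη₀ eη₀' h3 h4
  have cA := sum_card_fibre F A t
  have cB := sum_card_fibre F A (t - r)
  have neA : ∀ x ∈ cls (F t) A, (fib (F t) A x).Nonempty := by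
    intro x hx
    obtain ⟨y, hy, hyx⟩ := mem_cls.1 hx
    exact ⟨y, mem_fib.2 ⟨hy, hyx⟩⟩
  have neB : ∀ x ∈ cls (F (t - r)) A, (fib (F (t - r)) A x).Nonempty := by
    intro x hx
    obtain ⟨y, hy, hyx⟩ := mem_cls.1 hx
    exact ⟨y, mem_fib.2 ⟨hy, hyx⟩⟩
  have pA : ∀ x ∈ cls (F t) A, (0 : ℝ) < (fib (F t) A x).card := fun x hx => by
    exact_mod_cast card_pos.2 (neA x hx)
  have pB : ∀ x ∈ cls (F (t - r)) A, (0 : ℝ) < (fib (F (t - r)) A x).card := fun x hx => by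
    exact_mod_cast card_pos.2 (neB x hx)
  obtain ⟨x, hx, y, hy, hle⟩ := avg2 (cls (F t) A) (cls (F (t - r)) A)
    (fun x => ((fib (F t) A x).card : ℝ) / A.card)
    (fun y => ((fib (F (t - r)) A y).card : ℝ) / A.card)
    (fun x hx => div_pos (pA x hx) np) (fun y hy => div_pos (pB y hy) np)
    (by rw [← sum_div, cA, div_self np.ne']) (by rw [← sum_div, cB, div_self np.ne'])
    (fun x y => X F ψ A t (t - r) (t + 2) η₁ x y) (fun x y => X F ψ A t (t - r) (t + 1) η₀ x y)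
    c s1 s2
  have q1 := pA x hx
  have q2 := pB y hy
  obtain ⟨b1, b2⟩ := ea_le F ψ A t (t - r) (t + 2) x y q1 q2
  obtain ⟨b3, b4⟩ := ea_le F ψ A t (t - r) (t + 1) x y q1 q2
  unfold X at hle
  have a1 := abs_nonneg (ea F A t (t + 2) x - η₁)
  have a2 := abs_nonneg (eb F ψ A (t - r) (t + 2) y - η₁)
  have a3 := abs_nonneg (ea F A t (t + 1) x - η₀)
  have a4 := abs_nonneg (eb F ψ A (t - r) (t + 1) y - η₀)
  have k1 : eh F ψ A t (t - r) (t + 2) x y - ea F A t (t + 2) x ≤ 20 * c := by linarith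
  have k2 : eh F ψ A t (t - r) (t + 2) x y - eb F ψ A (t - r) (t + 2) y ≤ 20 * c := by linarith
  have k3 : eh F ψ A t (t - r) (t + 1) x y - ea F A t (t + 1) x ≤ 20 * c := by linarith
  have k4 : |ea F A t (t + 2) x - η₁| ≤ 20 * c := by linarith
  have k5 : |ea F A t (t + 1) x - η₀| ≤ 20 * c := by linarith
  have k6 : |eb F ψ A (t - r) (t + 1) y - η₀| ≤ 20 * c := by linarith
  have gen : ∀ (s : ℕ) (C : ℝ), eh F ψ A t (t - r) s x y - ea F A t s x ≤ C →
      K (fib (F t) A x ×ˢ fib (F (t - r)) A y) (ps (F s) ψ) -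
      (fib (F (t - r)) A y).card * K (fib (F t) A x) (pi (F s)) ≤
      C * ((fib (F t) A x).card * (fib (F (t - r)) A y).card) := by
    intro s C h5
    have h6 := mul_le_mul_of_nonneg_right h5 (mul_pos q1 q2).le
    refine le_trans (le_of_eq ?_) h6
    unfold eh ea
    have q3 := q1.ne'
    have q4 := q2.ne'
    field_simp
  have gen2 : ∀ (s : ℕ) (C : ℝ), eh F ψ A t (t - r) s x y - eb F ψ A (t - r) s y ≤ C →
      K (fib (F t) A x ×ˢ fib (F (t - r)) A y) (ps (F s) ψ) -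
      (fib (F t) A x).card * K (fib (F (t - r)) A y) (pj (F s) ψ) ≤
      C * ((fib (F t) A x).card * (fib (F (t - r)) A y).card) := by
    intro s C h5
    have h6 := mul_le_mul_of_nonneg_right h5 (mul_pos q1 q2).le
    refine le_trans (le_of_eq ?_) h6
    unfold eh eb
    have q3 := q1.ne'
    have q4 := q2.ne'
    field_simp
  have he : ε ^ 4 / 64 ≤ ε := by
    have h5 : ε ^ 4 ≤ ε := by
      have : ε ^ 3 ≤ 1 := pow_le_one₀ hε.le (by linarith)
      calc ε ^ 4 = ε ^ 3 * ε := by ring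
        _ ≤ 1 * ε := mul_le_mul_of_nonneg_right this hε.le
        _ = ε := one_mul ε
    linarith
  have he3 : ε ^ 4 / 64 ≤ 1 / 100 := by linarith
  have he2 : 0 ≤ ε ^ 4 / 64 := by positivity
  obtain ⟨k4', _⟩ := abs_le.1 k4
  obtain ⟨_, k4''⟩ := abs_le.1 k4
  obtain ⟨k5', _⟩ := abs_le.1 k5
  obtain ⟨k6', _⟩ := abs_le.1 k6
  rcases inverse2 (pr F hanti (Nat.le_succ (t + 1))) q hq hG (fib (F t) A x)
    (fib (F (t - r)) A y) (pi (F (t + 2)))
    (pj (F (t + 2)) ψ) (neA x hx) (neB y hy) ε hε hε1 (gen (t + 2) _ (k1.trans hc))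
    (gen2 (t + 2) _ (k2.trans (by linarith))) (gen (t + 1) _ (k3.trans hc)) with h | h
  · left
    have h6 : eb F ψ A (t - r) (t + 1) y ≤ 5 * ε := by
      unfold eb
      rw [div_le_iff₀ q2]; exact h
    linarith
  · right
    have h6 : log q / 2 + 1 / 10 ≤ ea F A t (t + 2) x - ea F A t (t + 1) x := by
      unfold ea
      rw [← sub_div, le_div_iff₀ q1]; exact h
    linarith

end Pool.Agent.U234.OD
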