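import Pool.Agent.U234.OD.Seqt

/-! The sequence theorem, version with two successive levels. -/

set_option autoImplicit false

open Finset

namespace Pool.Agent.U234.OD

/-- **The sequence theorem.** -/
theorem seq2 (T : ℕ) (η : ℕ → ℝ) (h0 : ∀ t, 0 ≤ η t) (hT : ∀ t, T ≤ t + 1 → η t = 0)
    (S : Finset ℕ) (hS1 : ∀ r ∈ S, 1 ≤ r) (cost : ℕ → ℕ → ℝ)
    (hc0 : ∀ r ∈ S, ∀ t, 0 ≤ cost r t) (c2 c3 β L : ℝ) (p2 : 0 < c2) (p3 : 0 < c3) (pβ : 0 < β)
    (h2 : ∀ r ∈ S, ∀ t, sh r η t - η t ≤ cost r t)
    (h3 : ∀ r ∈ S, ∀ t, η t ≤ c3 → η t ≤ 4 * sh r η t → η t ≤ 16 * cost r t)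
    (h4 : ∀ r ∈ S, ∀ t, cost r t + max (η t - sh r η t) 0 +
      (cost r (t + 1) + max (η (t + 1) - sh r η (t + 1)) 0) ≤ c2 → η t ≤ c3 ∨ β ≤ η (t + 1))
    (hL : ∀ r ∈ S, ∑ t ∈ range T, cost r t ≤ L)
    (hsum : ∀ r ∈ S, ∑ t ∈ range T, η t = ∑ t ∈ range T, sh r η t)
    (hR : 2 * L < β * S.card) (hL0 : 0 ≤ L) :
    ∑ t ∈ range T, η t ≤ 2 * L * ((4 * L / c2 + 2 * L / β) / S.card + 1) +
      c3 * (4 * L / c2 + 2 * L / β) + 18 * L := by
  classical
  have hSc : (0 : ℝ) < S.card := by
    by_contra hno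
    have h1 : (S.card : ℝ) ≤ 0 := not_lt.1 hno
    nlinarith
  have hS : S.Nonempty := by
    rw [← card_pos]; exact_mod_cast hSc
  have hT' : ∀ t, 0 < η t → t + 1 < T := by
    intro t ht
    by_contra hno
    rw [hT t (not_lt.1 hno)] at ht
    exact lt_irrefl _ ht
  -- the increases
  have inc : ∀ r ∈ S, ∑ t ∈ range T, max (η t - sh r η t) 0 ≤ L := by
    intro r hr
    have e1 : ∀ t, max (η t - sh r η t) 0 = (η t - sh r η t) + max (sh r η t - η t) 0 := by
      intro t
      rcases le_total (η t) (sh r η t) with h | h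
      · rw [max_eq_right (by linarith), max_eq_left (by linarith)]; ring
      · rw [max_eq_left (by linarith), max_eq_right (by linarith)]; ring
    rw [sum_congr rfl fun t _ => e1 t, sum_add_distrib, sum_sub_distrib, hsum r hr, sub_self,
      zero_add]
    refine le_trans (sum_le_sum fun t _ => ?_) (hL r hr)
    exact max_le (h2 r hr t) (hc0 r hr t)
  have hΦ : Φ T S η ≤ S.card * L := by
    unfold Φ
    rw [← nsmul_eq_mul, ← sum_const]
    exact sum_le_sum inc
  obtain ⟨r₀, hr₀⟩ := id hS
  -- the sets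
  set E := (range T).filter fun t => c3 < η t with hE
  set B := (range T).filter fun t => β ≤ η t with hB
  set M := (range T).filter fun t => c3 < η t ∧ η (t + 1) < β with hM
  set B' := (range T).filter fun t => β ≤ η (t + 1) with hB'
  set f : ℕ → ℝ := fun t => cost r₀ t + max (η t - sh r₀ η t) 0 with hf
  have f0 : ∀ t, 0 ≤ f t := fun t => add_nonneg (hc0 r₀ hr₀ t) (le_max_right _ _)
  have sf : ∑ t ∈ range T, f t ≤ 2 * L := by
    rw [hf, sum_add_distrib]
    have := hL r₀ hr₀
    have := inc r₀ hr₀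
    linarith
  have cM : c2 * M.card ≤ 4 * L := by
    have h5 : c2 * M.card ≤ ∑ t ∈ M, (f t + f (t + 1)) := by
      rw [mul_comm, ← nsmul_eq_mul]
      refine card_nsmul_le_sum M _ c2 fun t ht => ?_
      obtain ⟨_, ht1, ht2⟩ := mem_filter.1 ht
      by_contra hno
      push Not at hno
      rcases h4 r₀ hr₀ t hno.le with h | h <;> linarith
    rw [sum_add_distrib] at h5
    have h6 : ∑ t ∈ M, f t ≤ ∑ t ∈ range T, f t :=
      sum_le_sum_of_subset_of_nonneg (filter_subset _ _) fun t _ _ => f0 t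
    have h7 : ∑ t ∈ M, f (t + 1) ≤ ∑ t ∈ range T, f t := by
      have h8 : ∑ t ∈ M, f (t + 1) = ∑ s ∈ M.image (fun t => t + 1), f s := by
        rw [sum_image]
        intro a _ b _ h
        exact Nat.succ_injective h
      rw [h8]
      refine sum_le_sum_of_subset_of_nonneg ?_ fun t _ _ => f0 t
      intro s hs
      obtain ⟨t, ht, rfl⟩ := mem_image.1 hs
      rw [mem_range]
      exact hT' t (p3.trans (mem_filter.1 ht).2.1)
    linarith
  have cB : β * B.card ≤ 2 * L := by
    have h5 := lc2 T S hS1 B ((range T).filter fun t => 0 < η t).card η β pβ.le h0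
      ((range T).filter fun t => 0 < η t) (filter_subset _ _) (by
        intro t
        rw [mem_filter]
        refine ⟨fun h => h.2, fun h => ⟨?_, h⟩⟩
        rw [mem_range]
        have := hT' t h
        omega) rfl (fun t ht => (mem_filter.1 ht).2) (fun t ht => by
        obtain ⟨k1, k2⟩ := mem_filter.1 ht
        exact mem_filter.2 ⟨k1, pβ.trans_le k2⟩)
    have h6 : β * ((min S.card B.card : ℕ) : ℝ) ≤ 2 * L := by
      refine le_of_mul_le_mul_left (a := (S.card : ℝ)) ?_ hSc
      calc (S.card : ℝ) * (β * ((min S.card B.card : ℕ) : ℝ)) =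
          β * ((S.card : ℝ) * ((min S.card B.card : ℕ) : ℝ)) := by ring
        _ ≤ 2 * Φ T S η := h5
        _ ≤ 2 * (S.card * L) := by linarith
        _ = _ := by ring
    rcases le_total S.card B.card with h | h
    · rw [min_eq_left h] at h6
      linarith
    · rwa [min_eq_right h] at h6
  have cBB : B'.card ≤ B.card := by
    refine card_le_card_of_injOn (fun t => t + 1) ?_ ?_
    · intro t ht
      obtain ⟨_, k2⟩ := mem_filter.1 (mem_coe.1 ht)
      refine mem_coe.2 (mem_filter.2 ⟨mem_range.2 ?_, k2⟩)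
      have := hT' (t + 1) (pβ.trans_le k2)
      change t + 1 < T
      omega
    · intro a _ b _ h
      exact Nat.succ_injective h
  have hEM : E.card ≤ M.card + B.card := by
    refine le_trans (card_le_card (fun t ht => ?_)) ((card_union_le M B').trans
      (Nat.add_le_add_left cBB _))
    obtain ⟨k1, k2⟩ := mem_filter.1 ht
    rw [mem_union]
    rcases lt_or_ge (η (t + 1)) β with h | h
    · exact Or.inl (mem_filter.2 ⟨k1, k2, h⟩)
    · exact Or.inr (mem_filter.2 ⟨k1, h⟩)
  have cE : (E.card : ℝ) ≤ 4 * L / c2 + 2 * L / β := by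
    have h5 : (E.card : ℝ) ≤ M.card + B.card := by exact_mod_cast hEM
    have h6 : (M.card : ℝ) ≤ 4 * L / c2 := by rw [le_div_iff₀ p2]; linarith
    have h7 : (B.card : ℝ) ≤ 2 * L / β := by rw [le_div_iff₀ pβ]; linarith
    linarith
  -- the large values
  set θ : ℕ → ℝ := fun t => max (η t - c3) 0 with hθ
  have Eθ : ∀ t, t ∈ E ↔ 0 < θ t := by
    intro t
    rw [hE, mem_filter, mem_range, hθ]
    simp only [lt_max_iff, lt_irrefl, or_false, sub_pos]
    refine ⟨fun h => h.2, fun h => ⟨?_, h⟩⟩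
    have := hT' t (p3.trans h)
    omega
  have l1 := lc1 T S hS1 E.card E.card θ (fun t => le_max_right _ _) E (filter_subset _ _) Eθ
    rfl le_rfl
  have l2 : Φ T S θ ≤ S.card * L := (Φ_cut T S η h0 c3 p3.le).trans hΦ
  have l3 : ∑ t ∈ range T, θ t ≤ 2 * L * (E.card / S.card + 1) := by
    rcases Nat.eq_zero_or_pos E.card with hz | hz
    · have : ∑ t ∈ range T, θ t = 0 := by
        refine sum_eq_zero fun t _ => le_antisymm (not_lt.1 fun h => ?_) (le_max_right _ _)
        have := (Eθ t).2 h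
        rw [card_eq_zero.1 hz] at this
        exact absurd this (notMem_empty _)
      rw [this]
      positivity
    · have hEp : (0 : ℝ) < E.card := by exact_mod_cast hz
      have l4 : ((min S.card E.card : ℕ) : ℝ) * ∑ t ∈ range T, θ t ≤ 2 * E.card * L := by
        refine le_of_mul_le_mul_left (a := (S.card : ℝ)) ?_ hSc
        calc (S.card : ℝ) * (((min S.card E.card : ℕ) : ℝ) * ∑ t ∈ range T, θ t) =
            (S.card : ℝ) * ((min S.card E.card : ℕ) : ℝ) * ∑ t ∈ range T, θ t := by ring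
          _ ≤ 2 * E.card * Φ T S θ := l1
          _ ≤ 2 * E.card * (S.card * L) := mul_le_mul_of_nonneg_left l2 (by positivity)
          _ = _ := by ring
      have hθ0 : 0 ≤ ∑ t ∈ range T, θ t := sum_nonneg fun t _ => le_max_right _ _
      rcases le_total S.card E.card with h | h
      · rw [min_eq_left h] at l4
        have h5 : ∑ t ∈ range T, θ t ≤ 2 * E.card * L / S.card := by
          rw [le_div_iff₀ hSc]; linarith
        have h6 : 2 * L * ((E.card : ℝ) / S.card + 1) = 2 * E.card * L / S.card + 2 * L := by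
          ring
        rw [h6]
        linarith
      · rw [min_eq_right h] at l4
        have h5 : ∑ t ∈ range T, θ t ≤ 2 * L := by
          refine le_of_mul_le_mul_left (a := (E.card : ℝ)) ?_ hEp
          linarith
        have h6 : 0 ≤ 2 * L * ((E.card : ℝ) / S.card) := by positivity
        linarith
  -- the sum
  have split : ∀ t ∈ range T, η t ≤ θ t + (if t ∈ E then c3 else 0) +
      (16 * cost r₀ t + 4 / 3 * max (η t - sh r₀ η t) 0) := by
    intro t ht
    have k1 := hc0 r₀ hr₀ t
    have k2 := le_max_left (η t - sh r₀ η t) 0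
    have k3 := le_max_right (η t - sh r₀ η t) 0
    have k4 : η t - c3 ≤ θ t := le_max_left _ _
    have k5 : 0 ≤ θ t := le_max_right _ _
    by_cases h : t ∈ E
    · rw [if_pos h]
      linarith
    · rw [if_neg h]
      have k6 : η t ≤ c3 := not_lt.1 fun hlt => h (mem_filter.2 ⟨ht, hlt⟩)
      rcases le_or_gt (η t) (4 * sh r₀ η t) with h7 | h7
      · have := h3 r₀ hr₀ t k6 h7
        linarith
      · linarith
  have l5 := sum_le_sum split
  rw [sum_add_distrib, sum_add_distrib, sum_add_distrib, ← mul_sum, ← mul_sum] at l5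
  have l6 : ∑ t ∈ range T, (if t ∈ E then c3 else 0) = c3 * E.card := by
    rw [← sum_filter, filter_mem_eq_inter, inter_eq_right.2 (filter_subset _ _), sum_const,
      nsmul_eq_mul, mul_comm]
  rw [l6] at l5
  have l7 := hL r₀ hr₀
  have l8 := inc r₀ hr₀
  have l9 : c3 * E.card ≤ c3 * (4 * L / c2 + 2 * L / β) := mul_le_mul_of_nonneg_left cE p3.le
  have l10 : 2 * L * ((E.card : ℝ) / S.card + 1) ≤
      2 * L * ((4 * L / c2 + 2 * L / β) / S.card + 1) := by
    refine mul_le_mul_of_nonneg_left ?_ (by positivity)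
    have : (E.card : ℝ) / S.card ≤ (4 * L / c2 + 2 * L / β) / S.card :=
      div_le_div_of_nonneg_right cE hSc.le
    linarith
  linarith

end Pool.Agent.U234.OD
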