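import Pool.Agent.U234.OD.Fin1
import Pool.Agent.U234.OD.Core2

/-! Few dilates by large prime powers. -/

set_option autoImplicit false

open Finset Real
open scoped Pointwise

namespace Pool.Agent.U234.OD

open Pool.Agent.U234.LD

/-- the filtration by the powers of `p ^ k` -/
def Fk (N : Type*) [AddCommGroup N] [Module ℤ N] (p k : ℕ) (s : ℕ) : AddSubgroup N :=
  (Fl N (p : ℤ) (k * s)).toAddSubgroup

theorem mem_Fk {N : Type*} [AddCommGroup N] [Module ℤ N] {p k s : ℕ} {x : N} :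
    x ∈ Fk N p k s ↔ x ∈ Fl N (p : ℤ) (k * s) := Iff.rfl

theorem Fk_anti (N : Type*) [AddCommGroup N] [Module ℤ N] (p k : ℕ) : Antitone (Fk N p k) :=
  fun _ _ hst => Fl_anti (M := N) (p : ℤ) (Nat.mul_le_mul_left k hst)

/-- the quotient map -/
def pih {Γ : Type*} [AddCommGroup Γ] (F : AddSubgroup Γ) : Γ →+ Q F :=
  (QuotientAddGroup.mk' F : Γ →+ Γ ⧸ F)

theorem pih_surj {Γ : Type*} [AddCommGroup Γ] (F : AddSubgroup Γ) (g : Q F) : ∃ x, pih F x = g :=
  QuotientAddGroup.mk'_surjective F g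

theorem pih_zero {Γ : Type*} [AddCommGroup Γ] (F : AddSubgroup Γ) (x : Γ) :
    pih F x = 0 ↔ x ∈ F := QuotientAddGroup.eq_zero_iff x

theorem pih_pr {Γ : Type*} [AddCommGroup Γ] (F : ℕ → AddSubgroup Γ) (hanti : Antitone F) {t s : ℕ}
    (hts : t ≤ s) (x : Γ) : pr F hanti hts (pih (F s) x) = pih (F t) x := rfl

theorem Fk_order {N : Type*} [AddCommGroup N] [i₀ : Module ℤ N] (p k : ℕ) (hp : p.Prime)
    (t : ℕ) (g : Q (Fk N p k (t + 2)))
    (hg : pr (Fk N p k) (Fk_anti N p k) (Nat.le_succ (t + 1)) g ≠ 0) :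
    ∃ n : ℕ, pr (Fk N p k) (Fk_anti N p k) (Nat.le_succ (t + 1)) (n • g) = 0 ∧
      p ^ k ≤ addOrderOf (n • g) := by
  classical
  obtain rfl : i₀ = AddCommGroup.toIntModule N := Subsingleton.elim _ _
  obtain ⟨x, rfl⟩ := pih_surj _ g
  have key : ∀ (s : ℕ) (n : ℕ), n • pih (Fk N p k s) x = 0 ↔ n • x ∈ Fk N p k s := by
    intro s n
    rw [← map_nsmul, pih_zero]
  have hpr : ∀ n : ℕ, pr (Fk N p k) (Fk_anti N p k) (Nat.le_succ (t + 1))
      (n • pih (Fk N p k (t + 2)) x) = n • pih (Fk N p k (t + 1)) x := by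
    intro n
    rw [map_nsmul, pih_pr]
  have shift : ∀ (j s : ℕ) (z : N), (p ^ j) • z ∈ Fl N (p : ℤ) s ↔ z ∈ Fl N (p : ℤ) (s - j) := by
    intro j s z
    have h := Fl_shift (M := N) (p : ℤ) 1 isCoprime_one_left j s z
    rw [mul_one] at h
    have e : (p ^ j) • z = ((p : ℤ) ^ j) • z := by
      rw [← Nat.cast_pow, natCast_zsmul]
    rw [e]
    exact h
  have hx : x ∉ Fk N p k (t + 1) := by
    intro h
    refine hg ?_
    rw [pih_pr, pih_zero]
    exact h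
  have hex : ∃ e : ℕ, (p ^ e) • x ∈ Fk N p k (t + 1) := by
    refine ⟨k * (t + 1), ?_⟩
    rw [mem_Fk, shift, Nat.sub_self, Fl_zero]
    exact Submodule.mem_top
  obtain ⟨e, he⟩ : ∃ e, e = Nat.find hex := ⟨_, rfl⟩
  have he1 : (p ^ e) • x ∈ Fk N p k (t + 1) := by rw [he]; exact Nat.find_spec hex
  have he0 : e ≠ 0 := by
    intro h
    rw [h, pow_zero, one_smul] at he1
    exact hx he1
  have he2 : (p ^ (e - 1)) • x ∉ Fk N p k (t + 1) := Nat.find_min hex (by rw [← he]; omega)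
  refine ⟨p ^ e, ?_, ?_⟩
  · exact (hpr (p ^ e)).trans ((key (t + 1) (p ^ e)).2 he1)
  · have k1 : (p ^ (k * (t + 2))) • (p ^ e • pih (Fk N p k (t + 2)) x) = 0 := by
      rw [← mul_smul]
      refine (key (t + 2) _).2 ?_
      rw [mul_smul, mem_Fk, shift, Nat.sub_self, Fl_zero]
      exact Submodule.mem_top
    obtain ⟨j, _, hj⟩ := (Nat.dvd_prime_pow hp).1 (addOrderOf_dvd_of_nsmul_eq_zero k1)
    rw [hj]
    refine Nat.pow_le_pow_right hp.pos ?_
    by_contra hlt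
    push Not at hlt
    have k2 : (p ^ j) • (p ^ e • pih (Fk N p k (t + 2)) x) = 0 := by
      rw [← hj]; exact addOrderOf_nsmul_eq_zero _
    rw [← mul_smul] at k2
    have k3 := (key (t + 2) _).1 k2
    have e1 : p ^ j * p ^ e = p ^ (j + 1) * p ^ (e - 1) := by
      rw [← pow_add, ← pow_add]
      congr 1
      omega
    rw [e1, mul_smul, mem_Fk, shift] at k3
    refine he2 ?_
    rw [mem_Fk]
    refine Fl_anti (M := N) (p : ℤ) ?_ k3
    have : k * (t + 2) = k * (t + 1) + k := by ring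
    omega

/-- **Few dilates by large prime powers**, general abelian groups. -/
theorem few2 {Γ : Type*} [AddCommGroup Γ] [DecidableEq Γ] (p k : ℕ) (hp : p.Prime) (hk : 1 ≤ k)
    (A : Finset Γ) (hA : A.Nonempty) (κ : ℝ) (hκ : 1 ≤ κ)
    (S : Finset ℕ) (hS1 : ∀ s ∈ S, 1 ≤ s) (hS : κ ^ 4 < ((p : ℝ) ^ k) ^ S.card)
    (hsum : ∀ s ∈ S, ∃ u : ℤ, IsCoprime u (p : ℤ) ∧
      ((A + A.image fun x => ((p : ℤ) ^ (k * s) * u) • x).card : ℝ) ≤ κ * A.card) :
    ∃ A' ⊆ A, (A.card : ℝ) ≤ exp (10 ^ 33 * (log κ ^ 2 / S.card + log κ)) * A'.card ∧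
      ∀ x ∈ A', ∀ y ∈ A', ∃ n : ℤ, n ≠ 0 ∧ n • (x - y) = 0 := by
  classical
  set W : Submodule ℤ Γ := Submodule.span ℤ (A : Set Γ) with hW
  have hAN : ∀ a ∈ A, a ∈ W := fun a ha => Submodule.subset_span (by
    rw [mem_coe]; exact ha)
  have : Module.Finite ℤ W := Module.Finite.span_finset ℤ A
  have cA := card_lift W A hAN
  set B := lift W A with hB
  have nB : B.Nonempty := by
    rw [← card_pos, cA]; exact card_pos.2 hA
  set F : ℕ → AddSubgroup W := Fk W p k with hF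
  have hanti : Antitone F := Fk_anti W p k
  have h0 : F 0 = ⊤ := by
    rw [hF]
    unfold Fk
    rw [mul_zero, Fl_zero]; rfl
  have np : (0 : ℝ) < B.card := by exact_mod_cast card_pos.2 nB
  have κp : 0 < κ := by linarith
  have k0 : 0 ≤ log κ := log_nonneg hκ
  have hp2 : 2 ≤ p := hp.two_le
  have hc : ∀ r : ℕ, ∃ ψ : W →+ W, r ∈ S → ((∀ s z, ψ z ∈ F s ↔ z ∈ F (s - r)) ∧
      (Set.ncard {x : W | ∃ a ∈ B, ∃ b ∈ B, x = a + ψ b} : ℝ) ≤ κ * B.card) := by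
    intro r
    by_cases hr : r ∈ S
    · obtain ⟨u, hu, hle⟩ := hsum r hr
      refine ⟨mulBy W ((p : ℤ) ^ (k * r) * u), fun _ => ⟨fun s z => ?_, ?_⟩⟩
      · have h := Fl_shift (p : ℤ) u hu (k * r) (k * s) z
        rw [← Nat.mul_sub] at h
        exact h
      · rw [ncard_lift W A A hAN hAN, cA, ncard_image]
        exact hle
    · exact ⟨0, fun h => absurd h hr⟩
  choose ψ hψ using hc
  obtain ⟨T₀, hT₀⟩ := exists_level F hanti B
  obtain ⟨Ea, hEa⟩ : ∃ Ea, Ea = K B (pi (F T₀)) / B.card := ⟨_, rfl⟩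
  have hEa' : K B (pi (F T₀)) = B.card * Ea := by
    rw [hEa, mul_div_cancel₀ _ np.ne']
  have sep : ∀ t, T₀ ≤ t → K B (pi (F t)) = B.card * Ea := by
    intro t ht
    rw [stable_level F hanti B B T₀ hT₀ Subset.rfl ht, hEa']
  have hq2 : 2 ≤ p ^ k := hp2.trans (Nat.le_self_pow (by omega) p)
  have hR : 4 * log κ < S.card * log ((p ^ k : ℕ) : ℝ) := by
    have h1 := log_lt_log (by positivity) hS
    rw [log_pow, log_pow] at h1
    rw [Nat.cast_pow]
    exact_mod_cast h1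
  have hE := core2 F h0 hanti T₀ S hS1 ψ (fun r hr => (hψ r hr).1) B nB Ea (log κ) sep (by
      intro r hr T
      have h1 := rel_upper F (ψ r) r (hψ r hr).1 B B nB nB T _ (hψ r hr).2
      rw [log_mul κp.ne' np.ne'] at h1
      have h2 : K B (pi (F T)) ≤ B.card * Ea := by
        rcases le_total T T₀ with h | h
        · exact (mono_level F hanti B h).trans (le_of_eq hEa')
        · exact (sep T h).le
      nlinarith) (p ^ k) hq2 (fun t => fin_quot p hp2 (k * t))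
    (fun t g hg => Fk_order p k hp t g hg) k0 hR
  -- a large class
  obtain ⟨x, hx, hle⟩ : ∃ x ∈ B, log ((B.card : ℝ) / N B (pi (F T₀)) x) ≤ Ea := by
    by_contra hno
    push Not at hno
    have h1 : ∑ x ∈ B, Ea < ∑ x ∈ B, log ((B.card : ℝ) / N B (pi (F T₀)) x) :=
      sum_lt_sum_of_nonempty nB hno
    rw [sum_const, nsmul_eq_mul, ← K_eq, hEa'] at h1
    exact lt_irrefl _ h1
  have hNp : (0 : ℝ) < N B (pi (F T₀)) x := by exact_mod_cast N_pos hx
  refine ⟨(fib (F T₀) B (pi (F T₀) x)).map ⟨Subtype.val, Subtype.val_injective⟩, ?_, ?_, ?_⟩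
  · intro y hy
    obtain ⟨z, hz, rfl⟩ := mem_map.1 hy
    exact mem_lift.1 (mem_fib.1 hz).1
  · have h1 : (B.card : ℝ) / N B (pi (F T₀)) x ≤ exp Ea :=
      (log_le_iff_le_exp (div_pos np hNp)).1 hle
    have h3 : (N B (pi (F T₀)) x : ℝ) = (fib (F T₀) B (pi (F T₀) x)).card := by
      unfold N fib
      congr!
    rw [div_le_iff₀ hNp] at h1
    rw [card_map, ← h3, ← cA]
    exact h1.trans (mul_le_mul_of_nonneg_right (exp_le_exp.2 hE) hNp.le)
  · intro y hy z hz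
    obtain ⟨y', hy', rfl⟩ := mem_map.1 hy
    obtain ⟨z', hz', rfl⟩ := mem_map.1 hz
    obtain ⟨hy1, hy2⟩ := mem_fib.1 hy'
    obtain ⟨hz1, hz2⟩ := mem_fib.1 hz'
    have h1 : ∀ t, y' - z' ∈ F t := by
      refine hT₀ y' hy1 z' hz1 ?_
      rw [← pi_eq, hy2, hz2]
    have h2 : ∀ s, y' - z' ∈ Fl W (p : ℤ) s := by
      intro s
      refine Fl_anti (M := W) (p : ℤ) ?_ (mem_Fk.1 (h1 s))
      exact Nat.le_mul_of_pos_left s (by omega)
    obtain ⟨i, c, hic⟩ := Fl_inter (p : ℤ) (y' - z') h2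
    refine ⟨(p : ℤ) ^ i * (1 - p * c), mul_ne_zero (pow_ne_zero _ (by positivity)) ?_, ?_⟩
    · intro h
      have h4 : IsUnit (p : ℤ) := IsUnit.of_mul_eq_one c (by linarith)
      rw [Int.isUnit_iff] at h4
      omega
    · have := congrArg (Subtype.val) hic
      simpa using this

/-- torsion-free groups -/
theorem few_tf {Γ : Type*} [AddCommGroup Γ] [DecidableEq Γ]
    (htf : ∀ (n : ℤ) (x : Γ), n ≠ 0 → n • x = 0 → x = 0) (p k : ℕ) (hp : p.Prime) (hk : 1 ≤ k)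
    (A : Finset Γ) (hA : A.Nonempty) (κ : ℝ) (hκ : 1 ≤ κ)
    (S : Finset ℕ) (hS1 : ∀ s ∈ S, 1 ≤ s) (hS : κ ^ 4 < ((p : ℝ) ^ k) ^ S.card)
    (hsum : ∀ s ∈ S, ∃ u : ℤ, IsCoprime u (p : ℤ) ∧
      ((A + A.image fun x => ((p : ℤ) ^ (k * s) * u) • x).card : ℝ) ≤ κ * A.card) :
    (A.card : ℝ) ≤ exp (10 ^ 33 * (log κ ^ 2 / S.card + log κ)) := by
  obtain ⟨A', _, h2, h3⟩ := few2 p k hp hk A hA κ hκ S hS1 hS hsum
  have h4 : A'.card ≤ 1 := by
    rw [card_le_one]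
    intro x hx y hy
    obtain ⟨n, hn, h⟩ := h3 x hx y hy
    exact sub_eq_zero.1 (htf n _ hn h)
  have h5 : (A'.card : ℝ) ≤ 1 := by exact_mod_cast h4
  refine h2.trans ?_
  have := exp_pos (10 ^ 33 * (log κ ^ 2 / S.card + log κ))
  nlinarith

end Pool.Agent.U234.OD
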