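import Pool.Agent.U234.OD.Core2
import Pool.Agent.U234.OD.Fin2
import Pool.Agent.U234.OD.Def2
import Pool.Agent.U234.OD.Comb

/-! The profile of a set with small doubling. -/

set_option autoImplicit false

open Finset Real

namespace Pool.Agent.U234.OD

open Pool.Agent.U234.LD

variable {Γ : Type*} [AddCommGroup Γ]

/-- the kernel of the projection -/
def ker1 (F : ℕ → AddSubgroup Γ) (hanti : Antitone F) (t : ℕ) : AddSubgroup (Q (F (t + 1))) :=
  (pr F hanti (Nat.le_succ t)).ker

/-- the deficit at one level -/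
theorem levdef (F : ℕ → AddSubgroup Γ) (ψ : Γ →+ Γ) (hanti : Antitone F)
    (hψ : ∀ s z, ψ z ∈ F s ↔ z ∈ F s) (A : Finset Γ) (hA : A.Nonempty) (t : ℕ)
    [Finite (Q (F (t + 1)))] (p : ℕ) (hp : p.Prime)
    (hP : Nat.card (ker1 F hanti t) = p) (η c : ℝ)
    (eη : K A (pi (F (t + 1))) - K A (pi (F t)) = A.card * η)
    (h1 : K (A ×ˢ A) (ps (F (t + 1)) ψ) - K (A ×ˢ A) (ps (F t) ψ) ≤
      A.card * A.card * (η + c)) (hη : log p / 2 ≤ η) :
    log p - η ≤ (15 + 5 * log p + 12 * log p / ((1 / 100) ^ 4 / 64)) * c := by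
  classical
  have := Fintype.ofFinite (Q (F (t + 1)))
  have np : (0 : ℝ) < A.card := by exact_mod_cast card_pos.2 hA
  have h0 : K (A ×ˢ A) (ps (F t) ψ) + ∑ x ∈ cls (F t) A, ∑ y ∈ cls (F t) A,
      K (fib (F t) A x ×ˢ fib (F t) A y) (ps (F (t + 1)) ψ) ≤
      K (A ×ˢ A) (ps (F (t + 1)) ψ) := block F ψ 0 hanti hψ A A (t := t) (s := t + 1) (Nat.le_succ t)
  have eA : ∑ x ∈ cls (F t) A, K (fib (F t) A x) (pi (F (t + 1))) = A.card * η := by
    rw [← eη]
    refine sum_fibre F A (pi (F (t + 1))) fun x _ y _ h => ?_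
    rw [pi_eq] at h ⊢
    exact hanti (Nat.le_succ t) h
  have cA := sum_card_fibre F A t
  have neA : ∀ x ∈ cls (F t) A, (fib (F t) A x).Nonempty := by
    intro x hx
    obtain ⟨y, hy, hyx⟩ := mem_cls.1 hx
    exact ⟨y, mem_fib.2 ⟨hy, hyx⟩⟩
  have pA : ∀ x ∈ cls (F t) A, (0 : ℝ) < (fib (F t) A x).card := fun x hx => by
    exact_mod_cast card_pos.2 (neA x hx)
  have hb : ∀ x, K (fib (F t) A x) (pj (F (t + 1)) ψ) = K (fib (F t) A x) (pi (F (t + 1))) := by
    intro x
    refine K_congr fun y _ z _ => ?_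
    unfold pj
    rw [pi_eq, pi_eq, ← map_sub, hψ]
  have hab : ∀ x, eb F ψ A t (t + 1) x = ea F A t (t + 1) x := by
    intro x
    unfold eb ea
    rw [hb]
  have l2 := log_two_gt_d9
  have lp : log 2 ≤ log p := log_le_log (by norm_num) (by exact_mod_cast hp.two_le)
  -- differences are in the kernel
  have hU : ∀ x, ∀ a ∈ fib (F t) A x, ∀ b ∈ fib (F t) A x,
      pi (F (t + 1)) a - pi (F (t + 1)) b ∈ ker1 F hanti t := by
    intro x a ha b hb
    unfold ker1
    rw [AddMonoidHom.mem_ker, map_sub, pr_pi, pr_pi, (mem_fib.1 ha).2, (mem_fib.1 hb).2, sub_self]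
  have hV : ∀ x, ∀ a ∈ fib (F t) A x, ∀ b ∈ fib (F t) A x,
      pj (F (t + 1)) ψ a - pj (F (t + 1)) ψ b ∈ ker1 F hanti t := by
    intro x a ha b hb
    unfold ker1 pj
    rw [AddMonoidHom.mem_ker, map_sub, pr_pi, pr_pi, sub_eq_zero, pi_eq, ← map_sub, hψ, ← pi_eq,
      (mem_fib.1 ha).2, (mem_fib.1 hb).2]
  have hM : ∀ x ∈ cls (F t) A, ea F A t (t + 1) x ≤ log p := by
    intro x hx
    unfold ea
    rw [div_le_iff₀ (pA x hx)]
    obtain ⟨a₀, ha₀⟩ := neA x hx
    have h3 := K_le (fib (F t) A x) (pi (F (t + 1)))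
    have h4 : ((fib (F t) A x).image (pi (F (t + 1)))).card ≤ p := by
      rw [← hP, ← card_cos (ker1 F hanti t) (pi (F (t + 1)) a₀)]
      refine card_le_card fun g hg => ?_
      obtain ⟨a, ha, rfl⟩ := mem_image.1 hg
      exact mem_cos.2 (hU x a ha a₀ ha₀)
    have h5 : (0 : ℝ) < ((fib (F t) A x).image (pi (F (t + 1)))).card := by
      exact_mod_cast card_pos.2 ((neA x hx).image _)
    have h6 := log_le_log h5 (by exact_mod_cast h4 :
      (((fib (F t) A x).image (pi (F (t + 1)))).card : ℝ) ≤ p)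
    have h7 := mul_le_mul_of_nonneg_left h6 (pA x hx).le
    linarith
  refine combine (cls (F t) A) (fun x => ((fib (F t) A x).card : ℝ) / A.card)
    (fun x => ea F A t (t + 1) x) (fun x y => eh F ψ A t t (t + 1) x y) (log p)
    ((1 / 100) ^ 4 / 64) η c (fun x hx => (div_pos (pA x hx) np).le)
    (by rw [← sum_div, cA, div_self np.ne']) (by linarith) (by norm_num)
    (fun x hx => div_nonneg (K_nonneg _ _) (pA x hx).le) hM
    (fun x hx y hy => ?_) ?_ ?_ hη ?_
  · have := ea_le F ψ A t t (t + 1) x y (pA x hx) (pA y hy)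
    rw [hab] at this
    exact this
  · have g : ∀ x ∈ cls (F t) A, ((fib (F t) A x).card : ℝ) / A.card *
          ea F A t (t + 1) x = K (fib (F t) A x) (pi (F (t + 1))) / A.card := by
      intro x hx
      unfold ea
      have q1 := (pA x hx).ne'
      have q2 := np.ne'
      field_simp
    rw [sum_congr rfl g, ← sum_div, eA, mul_div_cancel_left₀ _ np.ne']
  · have g : ∀ x ∈ cls (F t) A, ∀ y ∈ cls (F t) A,
          ((fib (F t) A x).card : ℝ) / A.card * (((fib (F t) A y).card : ℝ) / A.card) *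
          eh F ψ A t t (t + 1) x y =
          K (fib (F t) A x ×ˢ fib (F t) A y) (ps (F (t + 1)) ψ) / (A.card * A.card) := by
      intro x hx y hy
      unfold eh
      have q1 := (pA x hx).ne'
      have q2 := (pA y hy).ne'
      have q3 := np.ne'
      field_simp
    rw [sum_congr rfl fun x hx => sum_congr rfl fun y hy => g x hx y hy]
    simp only [← sum_div]
    rw [div_le_iff₀ (mul_pos np np)]
    linarith
  · intro x hx y hy k1 k2
    have q1 := pA x hx
    have q2 := pA y hy
    have r1 : K (fib (F t) A x ×ˢ fib (F t) A y)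
        (fun z => pi (F (t + 1)) z.1 + pj (F (t + 1)) ψ z.2) -
        (fib (F t) A y).card * K (fib (F t) A x) (pi (F (t + 1))) ≤
        (1 / 100 : ℝ) ^ 4 / 64 * ((fib (F t) A x).card * (fib (F t) A y).card) := by
      have h6 := mul_le_mul_of_nonneg_right k1 (mul_pos q1 q2).le
      refine le_trans (le_of_eq ?_) h6
      have e5 : K (fib (F t) A x ×ˢ fib (F t) A y)
        (fun z => pi (F (t + 1)) z.1 + pj (F (t + 1)) ψ z.2) =
        K (fib (F t) A x ×ˢ fib (F t) A y) (ps (F (t + 1)) ψ) := rfl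
      rw [e5]
      unfold eh ea
      have q3 := q1.ne'
      have q4 := q2.ne'
      field_simp
    have r2 : K (fib (F t) A x ×ˢ fib (F t) A y)
        (fun z => pi (F (t + 1)) z.1 + pj (F (t + 1)) ψ z.2) -
        (fib (F t) A x).card * K (fib (F t) A y) (pj (F (t + 1)) ψ) ≤
        (1 / 100 : ℝ) ^ 4 / 64 * ((fib (F t) A x).card * (fib (F t) A y).card) := by
      have h6 := mul_le_mul_of_nonneg_right k2 (mul_pos q1 q2).le
      refine le_trans (le_of_eq ?_) h6
      have e5 : K (fib (F t) A x ×ˢ fib (F t) A y)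
        (fun z => pi (F (t + 1)) z.1 + pj (F (t + 1)) ψ z.2) =
        K (fib (F t) A x ×ˢ fib (F t) A y) (ps (F (t + 1)) ψ) := rfl
      rw [e5, hb]
      unfold eh ea
      have q3 := q1.ne'
      have q4 := q2.ne'
      field_simp
    obtain ⟨m1, m2⟩ := ea_le F ψ A t t (t + 1) x y q1 q2
    rw [hab] at m2
    rcases deficit (ker1 F hanti t) p hp hP (fib (F t) A x) (fib (F t) A y) (pi (F (t + 1)))
      (pj (F (t + 1)) ψ) (neA x hx) (neA y hy) (hU x) (hV y) (1 / 100) (by norm_num) le_rfl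
      r1 r2 with h | h | ⟨h, h'⟩
    · left
      have h6 : ea F A t (t + 1) y ≤ 5 * (1 / 100) := by
        rw [← hab]
        unfold eb
        rw [div_le_iff₀ q2]; exact h
      constructor
      · linarith
      · linarith
    · left
      have h6 : ea F A t (t + 1) x ≤ 5 * (1 / 100) := by
        unfold ea
        rw [div_le_iff₀ q1]; exact h
      constructor
      · linarith
      · linarith
    · right
      have h6 : log p / 2 + 1 / 10 ≤ ea F A t (t + 1) x := by
        unfold ea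
        rw [le_div_iff₀ q1]; exact h
      refine ⟨by linarith, by linarith, ?_⟩
      have h7 : log p - ea F A t (t + 1) x =
          ((fib (F t) A y).card * (log p * (fib (F t) A x).card -
            K (fib (F t) A x) (pi (F (t + 1))))) /
            ((fib (F t) A x).card * (fib (F t) A y).card) := by
        unfold ea
        have q3 := q1.ne'
        have q4 := q2.ne'
        field_simp
      rw [h7, div_le_iff₀ (mul_pos q1 q2)]
      refine h'.trans (le_of_eq ?_)
      have e5 : K (fib (F t) A x ×ˢ fib (F t) A y)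
        (fun z => pi (F (t + 1)) z.1 + pj (F (t + 1)) ψ z.2) =
        K (fib (F t) A x ×ˢ fib (F t) A y) (ps (F (t + 1)) ψ) := rfl
      rw [e5]
      unfold eh ea
      have q3 := q1.ne'
      have q4 := q2.ne'
      field_simp

end Pool.Agent.U234.OD
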