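import Pool.Agent.U234.LD.Two
import Pool.Agent.U234.OD.Core1
import Pool.Agent.U234.OD.Seqt2
import Pool.Agent.U234.OD.Lev2

/-! The main inequality for few large dilates. -/

set_option autoImplicit false

open Finset Real

namespace Pool.Agent.U234.OD

open Pool.Agent.U234.LD

variable {Γ : Type*} [AddCommGroup Γ]

/-- **The main inequality**, abstract form. -/
theorem core3 (F : ℕ → AddSubgroup Γ) (h0 : F 0 = ⊤) (hanti : Antitone F) (T₀ : ℕ)
    (S : Finset ℕ) (hS1 : ∀ r ∈ S, 1 ≤ r) (ψ : ℕ → (Γ →+ Γ))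
    (hψ : ∀ r ∈ S, ∀ s z, ψ r z ∈ F s ↔ z ∈ F (s - r)) (A : Finset Γ)
    (hA : A.Nonempty) (E L : ℝ)
    (sep : ∀ t, T₀ ≤ t → K A (pi (F t)) = A.card * E)
    (T₁ : ℕ) (hT₁ : ∀ r ∈ S, T₀ + r + 1 ≤ T₁)
    (upper : ∀ r ∈ S, K (A ×ˢ A) (ps (F T₁) (ψ r)) ≤ A.card * A.card * (E + L))
    (p : ℕ) (hp : 2 ≤ p) (hfin : ∀ t, Finite (Q (F t)))
    (hG : ∀ t, ∀ g : Q (F (t + 2)), pr F hanti (Nat.le_succ (t + 1)) g ≠ 0 → ∃ n : ℕ,
      pr F hanti (Nat.le_succ (t + 1)) (n • g) = 0 ∧ p ≤ addOrderOf (n • g))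
    (hL0 : 0 ≤ L) (hR : 4 * L < S.card * log p) :
    E ≤ 10 ^ 33 * (L ^ 2 / S.card + L) := by
  classical
  have np : (0 : ℝ) < A.card := by exact_mod_cast card_pos.2 hA
  have zA : K A (pi (F 0)) = 0 := by
    refine K_const A _ fun x _ y _ => ?_
    rw [pi_eq, h0]; exact AddSubgroup.mem_top _
  have lp : log 2 ≤ log p := log_le_log (by norm_num) (by exact_mod_cast hp)
  have l2 := log_two_gt_d9
  have hlp : 0 < log (p : ℝ) := by linarith
  set η : ℕ → ℝ := fun t => (K A (pi (F (t + 1))) - K A (pi (F t))) / A.card with hη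
  have eη : ∀ t, K A (pi (F (t + 1))) - K A (pi (F t)) = A.card * η t := by
    intro t
    rw [hη]
    simp only
    rw [mul_div_cancel₀ _ np.ne']
  have esh : ∀ r t, K A (pi (F (t + 1 - r))) - K A (pi (F (t - r))) = A.card * sh r η t := by
    intro r t
    unfold sh
    by_cases h : r ≤ t
    · rw [if_pos h, ← eη, show t + 1 - r = t - r + 1 by omega]
    · rw [if_neg h, mul_zero, show t + 1 - r = 0 by omega, show t - r = 0 by omega, sub_self]
  have η0 : ∀ t, 0 ≤ η t := fun t =>
    div_nonneg (sub_nonneg.2 (mono_level F hanti A (Nat.le_succ t))) np.le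
  set cost : ℕ → ℕ → ℝ := fun r t =>
    (K (A ×ˢ A) (ps (F (t + 1)) (ψ r)) - K (A ×ˢ A) (ps (F t) (ψ r))) / (A.card * A.card) - η t
    with hcost
  have ecost : ∀ r t, K (A ×ˢ A) (ps (F (t + 1)) (ψ r)) - K (A ×ˢ A) (ps (F t) (ψ r)) =
      A.card * A.card * (η t + cost r t) := by
    intro r t
    rw [hcost]
    simp only
    rw [add_sub_cancel, mul_div_cancel₀ _ (mul_pos np np).ne']
  have nn : (0 : ℝ) < A.card * A.card := mul_pos np np
  have g1 : ∀ r ∈ S, ∀ t, 0 ≤ cost r t := by
    intro r hr t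
    have h := (gain F (ψ r) r hanti (hψ r hr) A t).1
    rw [eη, ecost, ← mul_assoc] at h
    have := le_of_mul_le_mul_left h nn
    linarith
  have g2 : ∀ r ∈ S, ∀ t, sh r η t - η t ≤ cost r t := by
    intro r hr t
    have h := (gain F (ψ r) r hanti (hψ r hr) A t).2
    rw [esh, ecost, ← mul_assoc] at h
    have := le_of_mul_le_mul_left h nn
    linarith
  have zη : ∀ t, T₀ ≤ t → η t = 0 := by
    intro t ht
    rw [hη]
    simp only
    rw [sep t ht, sep (t + 1) (by omega), sub_self, zero_div]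
  have hSc : (0 : ℝ) < S.card := by
    by_contra hno
    have h1 : (S.card : ℝ) ≤ 0 := not_lt.1 hno
    nlinarith
  have hT₁' : T₀ + 1 ≤ T₁ := by
    obtain ⟨r, hr⟩ : S.Nonempty := by
      rw [← card_pos]; exact_mod_cast hSc
    have := hT₁ r hr
    omega
  have tel : ∀ T, ∑ t ∈ range T, A.card * η t = K A (pi (F T)) := by
    intro T
    have e2 := sum_range_sub (fun t => K A (pi (F t))) T
    rw [zA, sub_zero] at e2
    rw [← e2]
    exact sum_congr rfl fun t _ => (eη t).symm
  have s1 : ∑ t ∈ range T₁, η t = E := by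
    have h := tel T₁
    rw [← mul_sum, sep _ (by omega)] at h
    exact mul_left_cancel₀ np.ne' h
  have s2 : ∀ r ∈ S, ∑ t ∈ range T₁, η t = ∑ t ∈ range T₁, sh r η t := by
    intro r hr
    have hrJ := hT₁ r hr
    rw [s1]
    have e3 := sum_range_sub (fun t => K A (pi (F (t - r)))) T₁
    rw [Nat.zero_sub, zA, sub_zero, sep _ (by omega)] at e3
    refine mul_left_cancel₀ np.ne' ?_
    rw [← e3, mul_sum]
    exact sum_congr rfl fun t _ => esh r t
  have s3 : ∀ r ∈ S, ∑ t ∈ range T₁, cost r t ≤ L := by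
    intro r hr
    have e1 := sum_range_sub (fun t => K (A ×ˢ A) (ps (F t) (ψ r))) T₁
    have e2 : ∑ t ∈ range T₁, (K (A ×ˢ A) (ps (F (t + 1)) (ψ r)) -
        K (A ×ˢ A) (ps (F t) (ψ r))) =
        A.card * A.card * (E + ∑ t ∈ range T₁, cost r t) := by
      rw [← s1, ← sum_add_distrib, mul_sum]
      exact sum_congr rfl fun t _ => ecost r t
    rw [e2] at e1
    have h3 := K_nonneg (A ×ˢ A) (ps (F 0) (ψ r))
    have h4 := upper r hr
    have h5 : (A.card : ℝ) * A.card * (E + ∑ t ∈ range T₁, cost r t) ≤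
        A.card * A.card * (E + L) := by linarith
    have := le_of_mul_le_mul_left h5 nn
    linarith
  have l3 : ∀ r ∈ S, ∀ t, η t ≤ 1 / 2000000 → η t ≤ 4 * sh r η t → η t ≤ 16 * cost r t := by
    intro r hr t h1 h2
    have h := level F (ψ r) r hanti (hψ r hr) A A (1 / 10) (by norm_num) (by norm_num) t
    have e := ecost r t
    rw [eη, esh] at h
    have e10 : (2 : ℝ) / (1 / 10) * exp (1 / (1 / 10)) = 20 * exp 10 := by norm_num
    rw [e10] at h
    have h6 : (A.card : ℝ) * A.card * ((1 - 1 / 10) * (η t + sh r η t) -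
        20 * exp 10 * (η t * sh r η t)) ≤ A.card * A.card * (η t + cost r t) := by
      rw [← e]
      refine le_trans (le_of_eq ?_) (sub_le_sub_right h (K (A ×ˢ A) (ps (F t) (ψ r))))
      ring
    have h7 := le_of_mul_le_mul_left h6 nn
    have h8 := sh_nonneg η0 r t
    have h9 : 20 * exp 10 * (η t * sh r η t) ≤ 1 / 4 * sh r η t := by
      have h10 : 20 * exp 10 * η t ≤ 1 / 4 := by
        refine le_trans ?_ exp_ten
        exact mul_le_mul_of_nonneg_left h1 (by positivity)
      calc 20 * exp 10 * (η t * sh r η t) = 20 * exp 10 * η t * sh r η t := by ring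
        _ ≤ _ := mul_le_mul_of_nonneg_right h10 h8
    linarith
  have l4 : ∀ r ∈ S, ∀ t, cost r t + max (η t - sh r η t) 0 +
      (cost r (t + 1) + max (η (t + 1) - sh r η (t + 1)) 0) ≤ 1 / (4 * 10 ^ 31) →
      η t ≤ 1 / 2000000 ∨ log p / 2 ≤ η (t + 1) := by
    intro r hr t hle
    have := hfin (t + 1)
    have := hfin (t + 2)
    have m1 := le_max_left (η t - sh r η t) 0
    have m2 := le_max_right (η t - sh r η t) 0
    have m3 := le_max_left (η (t + 1) - sh r η (t + 1)) 0
    have m4 := le_max_right (η (t + 1) - sh r η (t + 1)) 0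
    have m5 := g1 r hr t
    have m6 := g1 r hr (t + 1)
    have h := level5 F (ψ r) r hanti (hψ r hr) A hA t p hp (hG t) (1 / 12000000)
      (1 / (4 * 10 ^ 31)) (η t + η (t + 1)) (sh r η t + sh r η (t + 1)) (η t) (sh r η t)
      (by norm_num) (by norm_num) (by norm_num)
      (by
        have e1 := eη t
        have e2 := eη (t + 1)
        rw [mul_add]
        linarith)
      (by
        have e1 := esh r t
        have e2 := esh r (t + 1)
        rw [mul_add]
        linarith)
      (eη t) (esh r t) (by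
        have e1 := ecost r t
        have e2 := ecost r (t + 1)
        have e3 : K (A ×ˢ A) (ps (F (t + 2)) (ψ r)) - K (A ×ˢ A) (ps (F t) (ψ r)) =
            A.card * A.card * ((η t + cost r t) + (η (t + 1) + cost r (t + 1))) := by
          rw [mul_add, ← e1, ← e2]
          ring
        rw [e3]
        exact mul_le_mul_of_nonneg_left (by linarith) nn.le) (by linarith) (by
        rw [ecost]
        exact mul_le_mul_of_nonneg_left (by linarith) nn.le) (by linarith)
    rcases h with h | h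
    · left; linarith
    · right; linarith
  have main := seq2 T₁ η η0 (fun t ht => zη t (by omega)) S hS1 cost g1
    (1 / (4 * 10 ^ 31)) (1 / 2000000) (log p / 2) L (by norm_num) (by norm_num) (by linarith)
    g2 l3 l4 s3 s2 (by linarith) hL0
  rw [s1] at main
  have b1 : 4 * L / (1 / (4 * 10 ^ 31)) + 2 * L / (log p / 2) ≤ 17 * 10 ^ 31 * L := by
    have b2 : 2 * L / (log p / 2) ≤ 6 * L := by
      rw [div_le_iff₀ (by linarith)]
      nlinarith
    have b3 : 4 * L / (1 / (4 * 10 ^ 31)) = 16 * 10 ^ 31 * L := by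
      field_simp
      ring
    rw [b3]
    linarith
  have b4 : (4 * L / (1 / (4 * 10 ^ 31)) + 2 * L / (log p / 2)) / S.card ≤
      17 * 10 ^ 31 * L / S.card := div_le_div_of_nonneg_right b1 hSc.le
  have b5 : 2 * L * ((4 * L / (1 / (4 * 10 ^ 31)) + 2 * L / (log p / 2)) / S.card + 1) ≤
      2 * L * (17 * 10 ^ 31 * L / S.card + 1) :=
    mul_le_mul_of_nonneg_left (by linarith) (by linarith)
  have b6 : 2 * L * (17 * 10 ^ 31 * L / S.card + 1) = 34 * 10 ^ 31 * (L ^ 2 / S.card) + 2 * L := by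
    ring
  have b7 : 0 ≤ L ^ 2 / S.card := div_nonneg (sq_nonneg L) hSc.le
  linarith

end Pool.Agent.U234.OD
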