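import Mathlib

/-! Sets of digits. -/

set_option autoImplicit false

open Finset
open scoped Pointwise

namespace Pool.Agent.U234.OD

/-- the numbers with `n` digits smaller than `m` in base `q` -/
def dg (q : ℤ) (m : ℕ) : ℕ → Finset ℤ
  | 0 => {0}
  | n + 1 => ((range m) ×ˢ dg q m n).image fun z => (z.1 : ℤ) + q * z.2

theorem dg_card_le (q : ℤ) (m n : ℕ) : (dg q m n).card ≤ m ^ n := by
  induction n with
  | zero => simp [dg]
  | succ n ih =>
    refine card_image_le.trans ?_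
    rw [card_product, card_range, pow_succ, mul_comm]
    exact Nat.mul_le_mul_right m ih

theorem dg_card (q : ℤ) (m n : ℕ) (hm : (m : ℤ) ≤ q) : (dg q m n).card = m ^ n := by
  induction n with
  | zero => simp [dg]
  | succ n ih =>
    unfold dg
    rw [card_image_of_injOn, card_product, card_range, ih, pow_succ, mul_comm]
    intro x hx y hy h
    simp only [coe_product, Set.mem_prod, mem_coe, mem_range] at hx hy
    dsimp only at h
    obtain ⟨⟨x1, x2⟩, rfl⟩ : ∃ z, z = x := ⟨x, rfl⟩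
    obtain ⟨⟨y1, y2⟩, rfl⟩ : ∃ z, z = y := ⟨y, rfl⟩
    dsimp only at h hx hy
    have h1 : (x1 : ℤ) < m := by exact_mod_cast hx.1
    have h2 : (y1 : ℤ) < m := by exact_mod_cast hy.1
    have h3 : (0 : ℤ) ≤ x1 := by positivity
    have h4 : (0 : ℤ) ≤ y1 := by positivity
    have h5 : x2 = y2 := by
      by_contra hne
      rcases lt_or_gt_of_ne hne with hlt | hlt
      · have : q * (x2 + 1) ≤ q * y2 := mul_le_mul_of_nonneg_left (by omega) (by omega)
        nlinarith
      · have : q * (y2 + 1) ≤ q * x2 := mul_le_mul_of_nonneg_left (by omega) (by omega)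
        nlinarith
    subst h5
    have h6 : x1 = y1 := by
      have : (x1 : ℤ) = y1 := by linarith
      exact_mod_cast this
    rw [h6]

/-- sums -/
theorem dg_add (q : ℤ) (m : ℕ) (a b : ℕ) (hab : a ≤ b) :
    (dg q m a + dg q m b).card ≤ (2 * m) ^ a * m ^ (b - a) := by
  induction a generalizing b with
  | zero =>
    simp only [dg, singleton_zero, zero_add, pow_zero, one_mul, Nat.sub_zero]
    exact dg_card_le q m b
  | succ a ih =>
    obtain ⟨b, rfl⟩ : ∃ c, b = c + 1 := ⟨b - 1, by omega⟩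
    have h1 := ih b (by omega)
    have h2 : dg q m (a + 1) + dg q m (b + 1) ⊆
        ((range (2 * m)) ×ˢ (dg q m a + dg q m b)).image fun z => (z.1 : ℤ) + q * z.2 := by
      intro x hx
      obtain ⟨u, hu, v, hv, rfl⟩ := Finset.mem_add.1 hx
      unfold dg at hu hv
      obtain ⟨z, hz, rfl⟩ := mem_image.1 hu
      obtain ⟨w, hw, rfl⟩ := mem_image.1 hv
      obtain ⟨hz1, hz2⟩ := mem_product.1 hz
      obtain ⟨hw1, hw2⟩ := mem_product.1 hw
      rw [mem_range] at hz1 hw1
      refine mem_image.2 ⟨(z.1 + w.1, z.2 + w.2), mem_product.2 ⟨mem_range.2 (by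
        dsimp only; omega), Finset.add_mem_add hz2 hw2⟩, ?_⟩
      dsimp only
      push_cast
      ring
    refine (card_le_card h2).trans (card_image_le.trans ?_)
    rw [card_product, card_range, Nat.add_sub_add_right, pow_succ]
    calc 2 * m * (dg q m a + dg q m b).card ≤ 2 * m * ((2 * m) ^ a * m ^ (b - a)) :=
          Nat.mul_le_mul_left _ h1
      _ = _ := by ring

theorem dg_dil (q : ℤ) (m : ℕ) (s n j : ℕ) :
    (dg q m (n + s) + (dg q m j).image fun x => q ^ s * x).card ≤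
      m ^ s * (dg q m n + dg q m j).card := by
  induction s with
  | zero => simp
  | succ s ih =>
    have h2 : dg q m (n + (s + 1)) + ((dg q m j).image fun x => q ^ (s + 1) * x) ⊆
        ((range m) ×ˢ (dg q m (n + s) + (dg q m j).image fun x => q ^ s * x)).image
          fun z => (z.1 : ℤ) + q * z.2 := by
      intro x hx
      obtain ⟨u, hu, v, hv, rfl⟩ := Finset.mem_add.1 hx
      rw [← add_assoc] at hu
      unfold dg at hu
      obtain ⟨z, hz, rfl⟩ := mem_image.1 hu
      obtain ⟨w, hw, rfl⟩ := mem_image.1 hv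
      obtain ⟨hz1, hz2⟩ := mem_product.1 hz
      refine mem_image.2 ⟨(z.1, z.2 + q ^ s * w), mem_product.2 ⟨hz1,
        Finset.add_mem_add hz2 (mem_image_of_mem _ hw)⟩, ?_⟩
      dsimp only
      ring
    refine (card_le_card h2).trans (card_image_le.trans ?_)
    rw [card_product, card_range, pow_succ]
    calc m * _ ≤ m * (m ^ s * (dg q m n + dg q m j).card) := Nat.mul_le_mul_left _ ih
      _ = _ := by ring

theorem dg_main (q : ℤ) (m : ℕ) (N s : ℕ) (hs : s ≤ N) :
    (dg q m N + (dg q m N).image fun x => q ^ s * x).card ≤ m ^ s * 2 ^ N * m ^ N := by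
  have h1 := dg_dil q m s (N - s) N
  rw [Nat.sub_add_cancel hs] at h1
  have h2 := dg_add q m (N - s) N (Nat.sub_le _ _)
  refine h1.trans ((Nat.mul_le_mul_left _ h2).trans ?_)
  rw [Nat.sub_sub_self hs, mul_pow]
  have h3 : 2 ^ (N - s) ≤ 2 ^ N := Nat.pow_le_pow_right (by norm_num) (Nat.sub_le _ _)
  have h4 : m ^ N = m ^ (N - s) * m ^ s := by rw [← pow_add, Nat.sub_add_cancel hs]
  calc m ^ s * (2 ^ (N - s) * m ^ (N - s) * m ^ s) =
      m ^ s * 2 ^ (N - s) * (m ^ (N - s) * m ^ s) := by ring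
    _ ≤ m ^ s * 2 ^ N * (m ^ (N - s) * m ^ s) :=
        Nat.mul_le_mul_right _ (Nat.mul_le_mul_left _ h3)
    _ = _ := by rw [h4]

/-- the bound is sharp up to the constant, for every number of dilates -/
theorem sharp (r a : ℕ) (hr : 1 ≤ r) (ha : 1 ≤ a) (q : ℤ) (hq : 2 ^ a ≤ q) :
    ∃ A : Finset ℤ, A.card = 2 ^ (r * a ^ 2) ∧ ∀ s ∈ Icc 1 r,
      (A + A.image fun x => q ^ s * x).card ≤ 2 ^ (2 * r * a) * A.card := by
  have hm : ((2 ^ a : ℕ) : ℤ) ≤ q := by push_cast; exact hq
  refine ⟨dg q (2 ^ a) (r * a), ?_, fun s hs => ?_⟩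
  · rw [dg_card q _ _ hm, ← pow_mul]
    congr 1
    ring
  · obtain ⟨_, hsr⟩ := mem_Icc.1 hs
    have hsN : s ≤ r * a := hsr.trans (Nat.le_mul_of_pos_right r ha)
    rw [dg_card q _ _ hm]
    refine (dg_main q (2 ^ a) (r * a) s hsN).trans ?_
    refine Nat.mul_le_mul_right _ ?_
    rw [← pow_mul, ← pow_add]
    refine Nat.pow_le_pow_right (by norm_num) ?_
    have : a * s ≤ a * r := Nat.mul_le_mul_left a hsr
    nlinarith

/-- the lower bound on `q` is necessary -/
theorem interval (r n : ℕ) (q : ℕ) (hq : 1 ≤ q) :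
    ∃ A : Finset ℤ, A.card = n ∧ ∀ s ∈ Icc 1 r,
      (A + A.image fun x => (q : ℤ) ^ s * x).card ≤ (q ^ r + 1) * A.card := by
  refine ⟨Ico (0 : ℤ) n, by simp, fun s hs => ?_⟩
  obtain ⟨_, hsr⟩ := mem_Icc.1 hs
  have h1 : Ico (0 : ℤ) n + ((Ico (0 : ℤ) n).image fun x => (q : ℤ) ^ s * x) ⊆
      Ico (0 : ℤ) ((q ^ s + 1) * n : ℕ) := by
    intro x hx
    obtain ⟨u, hu, v, hv, rfl⟩ := Finset.mem_add.1 hx
    obtain ⟨w, hw, rfl⟩ := mem_image.1 hv
    rw [mem_Ico] at hu hw ⊢
    have hqs : (0 : ℤ) < (q : ℤ) ^ s := by positivity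
    push_cast
    constructor
    · nlinarith
    · nlinarith
  refine (card_le_card h1).trans ?_
  rw [Int.card_Ico, Int.card_Ico]
  simp only [sub_zero, Int.toNat_natCast]
  refine Nat.mul_le_mul_right _ (Nat.add_le_add_right ?_ _)
  exact Nat.pow_le_pow_right hq hsr

end Pool.Agent.U234.OD
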