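import Pool.Agent.U234.OD.Fin3
import Pool.Agent.U234.OD.Sharp

/-! Cosets of a finite subgroup. -/

set_option autoImplicit false

open Finset Real
open scoped Pointwise

namespace Pool.Agent.U234.OD

open Pool.Agent.U234.LD

/-- a large part in a coset of a finite subgroup -/
theorem few_coset {Γ : Type*} [AddCommGroup Γ] [DecidableEq Γ] (p k : ℕ) (hp : p.Prime)
    (hk : 1 ≤ k) (A : Finset Γ) (hA : A.Nonempty) (κ : ℝ) (hκ : 1 ≤ κ)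
    (S : Finset ℕ) (hS1 : ∀ s ∈ S, 1 ≤ s) (hS : κ ^ 4 < ((p : ℝ) ^ k) ^ S.card)
    (hsum : ∀ s ∈ S, ∃ u : ℤ, IsCoprime u (p : ℤ) ∧
      ((A + A.image fun x => ((p : ℤ) ^ (k * s) * u) • x).card : ℝ) ≤ κ * A.card) :
    ∃ U : AddSubgroup Γ, Finite U ∧ ∃ A' ⊆ A,
      (A.card : ℝ) ≤ exp (10 ^ 33 * (log κ ^ 2 / S.card + log κ)) * A'.card ∧
      (∀ x ∈ A', ∀ y ∈ A', x - y ∈ U) ∧
      (((A + A).card : ℝ) ≤ κ * A.card → ∃ T ⊆ A,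
        (T.card : ℝ) ≤ κ * exp (10 ^ 33 * (log κ ^ 2 / S.card + log κ)) ∧
        ∀ a ∈ A, ∃ t ∈ T, a - t ∈ U) := by
  obtain ⟨A', h1, h2, h3⟩ := few2 p k hp hk A hA κ hκ S hS1 hS hsum
  obtain ⟨U, hU, _, hdiff⟩ := finite_of_torsion A' h3
  refine ⟨U, hU, A', h1, h2, hdiff, fun hd => ?_⟩
  exact covering A A' hA h1 κ _ hκ (by rw [ncard_self]; exact hd) h2 (U : Set Γ) hdiff

end Pool.Agent.U234.OD
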