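import Pool.Agent.U234.OD.Inv2

/-! The deficit of the entropy on a coset of a subgroup of prime order. -/

set_option autoImplicit false
set_option linter.unusedSectionVars false

open Finset Real
open Pool.Agent.U234.LD

namespace Pool.Agent.U234.OD

theorem log_le_sinh {y : ℝ} (hy : 1 ≤ y) : log y ≤ (y ^ 2 - 1) / (2 * y) := by
  have y0 : 0 < y := by linarith
  have h1 : log y ≤ sinh (log y) := self_le_sinh_iff.2 (log_nonneg hy)
  rw [sinh_log y0] at h1
  refine h1.trans (le_of_eq ?_)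
  field_simp

/-- the elementary inequality -/
theorem phi_ineq {y M : ℝ} (hy : 0 ≤ y) (hM : 0 ≤ M) (h : 2 * log y ≤ M) :
    y ^ 2 * (2 * log y) ≤ y ^ 2 - 1 + (3 + M) * (y - 1) ^ 2 := by
  rcases le_total y 1 with h1 | h1
  · rcases hy.eq_or_lt with h0 | h0
    · rw [← h0]; norm_num; linarith
    · have h2 := log_le_sub_one_of_pos h0
      have h3 : y ^ 2 * (2 * log y) ≤ y ^ 2 * (2 * (y - 1)) :=
        mul_le_mul_of_nonneg_left (by linarith) (by positivity)
      have h4 : y ^ 2 * (2 * (y - 1)) ≤ y ^ 2 - 1 + 3 * (y - 1) ^ 2 := by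
        have : y ^ 2 - 1 + 3 * (y - 1) ^ 2 - y ^ 2 * (2 * (y - 1)) = (y - 1) ^ 2 * (2 - 2 * y) := by
          ring
        nlinarith [mul_nonneg (sq_nonneg (y - 1)) (by linarith : (0 : ℝ) ≤ 2 - 2 * y)]
      have h5 : 0 ≤ M * (y - 1) ^ 2 := by positivity
      linarith
  · have y0 : 0 < y := by linarith
    have h2 := log_le_sinh h1
    have l0 : 0 ≤ log y := log_nonneg h1
    have h3 : 2 * log y * (2 * y - 1) ≤ 2 * (y - 1) ^ 2 + (y ^ 2 - 1) := by
      have h4 : 2 * log y * (2 * y - 1) ≤ 2 * ((y ^ 2 - 1) / (2 * y)) * (2 * y - 1) :=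
        mul_le_mul_of_nonneg_right (by linarith) (by linarith)
      have h5 : 2 * ((y ^ 2 - 1) / (2 * y)) * (2 * y - 1) = (y ^ 2 - 1) * (2 * y - 1) / y := by
        field_simp
      rw [h5] at h4
      refine h4.trans ?_
      rw [div_le_iff₀ y0]
      have : (2 * (y - 1) ^ 2 + (y ^ 2 - 1)) * y - (y ^ 2 - 1) * (2 * y - 1) =
        (y - 1) ^ 2 * (y - 1) := by ring
      nlinarith [mul_nonneg (sq_nonneg (y - 1)) (by linarith : (0 : ℝ) ≤ y - 1)]
    have h6 : 2 * log y * (y - 1) ^ 2 ≤ M * (y - 1) ^ 2 :=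
      mul_le_mul_of_nonneg_right h (sq_nonneg _)
    have h7 : y ^ 2 * (2 * log y) = 2 * log y * (y - 1) ^ 2 + 2 * log y * (2 * y - 1) := by ring
    have h8 : 0 ≤ (y - 1) ^ 2 := sq_nonneg _
    linarith

variable {ι κ G : Type*} [AddCommGroup G]

/-- support in a coset -/
theorem sl_zero [Fintype G] (A : Finset ι) (U : ι → G) (x : G) (h : ∀ a ∈ A, U a ≠ x) :
    sl A U x = 0 := by
  classical
  unfold sl
  have : A.filter (fun a => U a = x) = ∅ := filter_eq_empty_iff.2 fun a ha => h a ha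
  rw [show (A.filter fun a => U a = x) = ∅ by convert this]
  simp

/-- the whole group of prime order is almost invariant -/
theorem full_inv [Fintype G] (P : AddSubgroup G) (p : ℕ) (hp : p.Prime) (hP : Nat.card P = p)
    (A : Finset ι) (U : ι → G) (hA : A.Nonempty) (hU : ∀ a ∈ A, ∀ b ∈ A, U a - U b ∈ P)
    (ε : ℝ) (hε : 0 < ε) (hε1 : ε ≤ 1 / 100) (H : AddSubgroup G) (hH : H ≠ ⊥)
    (hinv : ∀ s ∈ H, D (tr s (sl A U)) (sl A U) ≤ 2 * ε) :
    ∀ s ∈ P, D (tr s (sl A U)) (sl A U) ≤ 2 * ε := by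
  classical
  -- `H ≤ P`
  have hle : ∀ s ∈ H, s ∈ P := by
    intro s hs
    by_contra hno
    have h1 := hinv s hs
    have sf : ∑ x, sl A U x ^ 2 = 1 := sum_sl A hA U
    have h2 : D (tr s (sl A U)) (sl A U) ^ 2 = 2 := by
      rw [D_sq_unit _ _ (by rw [sum_tr s (sl A U) (fun t => t ^ 2)]; exact sf) sf]
      have : ∑ x, tr s (sl A U) x * sl A U x = 0 := by
        refine sum_eq_zero fun x _ => ?_
        by_contra hne
        have h3 : sl A U x ≠ 0 := fun h => hne (by rw [h, mul_zero])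
        have h4 : sl A U (x - s) ≠ 0 := fun h => hne (by unfold tr; rw [h, zero_mul])
        obtain ⟨a, ha, hax⟩ : ∃ a ∈ A, U a = x := by
          by_contra hc
          push Not at hc
          exact h3 (sl_zero A U x hc)
        obtain ⟨b, hb, hbx⟩ : ∃ b ∈ A, U b = x - s := by
          by_contra hc
          push Not at hc
          exact h4 (sl_zero A U (x - s) hc)
        have h5 := hU a ha b hb
        rw [hax, hbx, sub_sub_cancel] at h5
        exact hno h5
      rw [this]; ring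
    have h3 := D_nonneg (tr s (sl A U)) (sl A U)
    nlinarith
  obtain ⟨⟨s, hs⟩, hs0'⟩ := AddSubgroup.ne_bot_iff_exists_ne_zero.1 hH
  have hs0 : s ≠ 0 := fun h => hs0' (Subtype.ext h)
  intro x hx
  refine hinv x ?_
  have h1 : AddSubgroup.zmultiples s ≤ P := AddSubgroup.zmultiples_le_of_mem (hle s hs)
  have h2 : Nat.card (AddSubgroup.zmultiples s) ∣ Nat.card P := AddSubgroup.card_dvd_of_le h1
  rw [hP, Nat.card_zmultiples] at h2
  have h3 : addOrderOf s = p := by
    rcases (Nat.dvd_prime hp).1 h2 with h | h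
    · exact absurd (AddMonoid.addOrderOf_eq_one_iff.1 h) hs0
    · exact h
  have h4 : AddSubgroup.zmultiples s = P := by
    refine AddSubgroup.eq_of_le_of_card_ge h1 ?_
    rw [hP, Nat.card_zmultiples, h3]
  rw [← h4] at hx
  exact (AddSubgroup.zmultiples_le_of_mem hs) hx

end Pool.Agent.U234.OD
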