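import Pool.Agent.U234.OD.Prof

/-! The dichotomy for the levels of a set with small doubling. -/

set_option autoImplicit false

open Finset Real

namespace Pool.Agent.U234.OD

open Pool.Agent.U234.LD

variable {Γ : Type*} [AddCommGroup Γ]

/-- the dichotomy -/
theorem dich (F : ℕ → AddSubgroup Γ) (h0 : F 0 = ⊤) (hanti : Antitone F) (ψ : Γ →+ Γ)
    (hψ : ∀ s z, ψ z ∈ F s ↔ z ∈ F s) (A : Finset Γ) (hA : A.Nonempty) (L : ℝ)
    (upper : ∀ T, K (A ×ˢ A) (ps (F T) ψ) ≤ A.card * K A (pi (F T)) + A.card * A.card * L)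
    (p : ℕ) (hp : p.Prime) (hfin : ∀ t, Finite (Q (F t)))
    (hG1 : ∀ t, ∀ g : Q (F t), g ≠ 0 → p ≤ addOrderOf g)
    (hG : ∀ t, ∀ g : Q (F (t + 2)), pr F hanti (Nat.le_succ (t + 1)) g ≠ 0 → ∃ n : ℕ,
      pr F hanti (Nat.le_succ (t + 1)) (n • g) = 0 ∧ p ≤ addOrderOf (n • g)) :
    (∀ T, (((range T).filter fun t => ¬ (K A (pi (F (t + 1))) / A.card - K A (pi (F t)) / A.card ≤
        1 / 2000000 ∨
        (log p / 2 ≤ K A (pi (F (t + 1))) / A.card - K A (pi (F t)) / A.card ∧
          log p / 2 ≤ K A (pi (F (t + 2))) / A.card - K A (pi (F (t + 1))) / A.card))).card : ℝ) ≤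
        10 ^ 32 * L) ∧
      (∀ T, ∑ t ∈ (range T).filter fun t => K A (pi (F (t + 1))) / A.card -
        K A (pi (F t)) / A.card ≤ 1 / 2000000,
        (K A (pi (F (t + 1))) / A.card - K A (pi (F t)) / A.card) ≤ 2 * L) := by
  classical
  have np : (0 : ℝ) < A.card := by exact_mod_cast card_pos.2 hA
  have nn : (0 : ℝ) < A.card * A.card := mul_pos np np
  have zA : K A (pi (F 0)) = 0 := by
    refine K_const A _ fun x _ y _ => ?_
    rw [pi_eq, h0]; exact AddSubgroup.mem_top _
  have l2 := log_two_gt_d9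
  have lp : log 2 ≤ log p := log_le_log (by norm_num) (by exact_mod_cast hp.two_le)
  have hlp : 0 < log (p : ℝ) := by linarith
  set η : ℕ → ℝ := fun t => (K A (pi (F (t + 1))) - K A (pi (F t))) / A.card with hη
  have eη : ∀ t, K A (pi (F (t + 1))) - K A (pi (F t)) = A.card * η t := by
    intro t
    rw [hη]
    simp only
    rw [mul_div_cancel₀ _ np.ne']
  have η0 : ∀ t, 0 ≤ η t := fun t =>
    div_nonneg (sub_nonneg.2 (mono_level F hanti A (Nat.le_succ t))) np.le
  set cost : ℕ → ℝ := fun t =>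
    (K (A ×ˢ A) (ps (F (t + 1)) ψ) - K (A ×ˢ A) (ps (F t) ψ)) / (A.card * A.card) - η t
    with hcost
  have ecost : ∀ t, K (A ×ˢ A) (ps (F (t + 1)) ψ) - K (A ×ˢ A) (ps (F t) ψ) =
      A.card * A.card * (η t + cost t) := by
    intro t
    rw [hcost]
    simp only
    rw [add_sub_cancel, mul_div_cancel₀ _ nn.ne']
  have g1 : ∀ t, 0 ≤ cost t := by
    intro t
    have h := (gain F ψ 0 hanti hψ A t).1
    rw [eη, ecost, ← mul_assoc] at h
    have := le_of_mul_le_mul_left h nn
    linarith
  have tel : ∀ T, ∑ t ∈ range T, η t = K A (pi (F T)) / A.card := by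
    intro T
    have e2 := sum_range_sub (fun t => K A (pi (F t))) T
    rw [zA, sub_zero] at e2
    rw [← e2, sum_div]
  have s3 : ∀ T, ∑ t ∈ range T, cost t ≤ L := by
    intro T
    have e1 := sum_range_sub (fun t => K (A ×ˢ A) (ps (F t) ψ)) T
    have e2 : ∑ t ∈ range T, (K (A ×ˢ A) (ps (F (t + 1)) ψ) -
        K (A ×ˢ A) (ps (F t) ψ)) =
        A.card * A.card * (K A (pi (F T)) / A.card + ∑ t ∈ range T, cost t) := by
      rw [← tel, ← sum_add_distrib, mul_sum]
      exact sum_congr rfl fun t _ => ecost t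
    rw [e2] at e1
    have h3 := K_nonneg (A ×ˢ A) (ps (F 0) ψ)
    have h4 := upper T
    have h6 : (A.card : ℝ) * A.card * (K A (pi (F T)) / A.card) = A.card * K A (pi (F T)) := by
      rw [mul_assoc, mul_div_cancel₀ _ np.ne']
    have h5 : (A.card : ℝ) * A.card * ∑ t ∈ range T, cost t ≤ A.card * A.card * L := by
      rw [mul_add, h6] at e1
      linarith
    exact le_of_mul_le_mul_left h5 nn
  have hL0 : 0 ≤ L := by
    have := s3 0
    simpa using this
  -- small increments
  have l3 : ∀ t, η t ≤ 1 / 2000000 → η t ≤ 2 * cost t := by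
    intro t h1
    have h := level F ψ 0 hanti hψ A A (1 / 10) (by norm_num) (by norm_num) t
    have e := ecost t
    have e' := eη t
    have h' : K (A ×ˢ A) (ps (F t) ψ) +
      ((1 - 1 / 10) * (A.card * (K A (pi (F (t + 1))) - K A (pi (F t))) +
        A.card * (K A (pi (F (t + 1))) - K A (pi (F t)))) -
      2 / (1 / 10) * exp (1 / (1 / 10)) * ((K A (pi (F (t + 1))) - K A (pi (F t))) *
        (K A (pi (F (t + 1))) - K A (pi (F t))))) ≤
      K (A ×ˢ A) (ps (F (t + 1)) ψ) := h
    have e10 : (2 : ℝ) / (1 / 10) * exp (1 / (1 / 10)) = 20 * exp 10 := by norm_num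
    rw [e10, e'] at h'
    have h6 : (A.card : ℝ) * A.card * ((1 - 1 / 10) * (η t + η t) -
        20 * exp 10 * (η t * η t)) ≤ A.card * A.card * (η t + cost t) := by
      rw [← e]
      refine le_trans (le_of_eq ?_) (sub_le_sub_right h' (K (A ×ˢ A) (ps (F t) ψ)))
      ring
    have h7 := le_of_mul_le_mul_left h6 nn
    have h8 := η0 t
    have h9 : 20 * exp 10 * (η t * η t) ≤ 1 / 4 * η t := by
      have h10 : 20 * exp 10 * η t ≤ 1 / 4 := by
        refine le_trans ?_ exp_ten
        exact mul_le_mul_of_nonneg_left h1 (by positivity)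
      calc 20 * exp 10 * (η t * η t) = 20 * exp 10 * η t * η t := by ring
        _ ≤ _ := mul_le_mul_of_nonneg_right h10 h8
    linarith
  -- dichotomy
  have l4 : ∀ t, cost t ≤ 1 / (4 * 10 ^ 31) → η t ≤ 1 / 2000000 ∨ log p / 2 ≤ η t := by
    intro t h1
    have := hfin (t + 1)
    have h := level4 F ψ 0 hanti hψ A hA t p hp.two_le (hG1 (t + 1)) (1 / 12000000)
      (1 / (4 * 10 ^ 31)) (η t) (η t) (by norm_num) (by norm_num) (by norm_num)
      (eη t) (eη t) (by
        rw [ecost]
        exact mul_le_mul_of_nonneg_left (by linarith) nn.le) (by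
        have : (0 : ℝ) ≤ 1 / (4 * 10 ^ 31) := by positivity
        linarith)
    rcases h with h | h
    · left; linarith
    · right; exact h
  -- windows
  have l5 : ∀ t, cost t + cost (t + 1) ≤ 1 / (4 * 10 ^ 31) →
      η t ≤ 1 / 2000000 ∨ log p / 2 ≤ η (t + 1) := by
    intro t hle
    have := hfin (t + 1)
    have := hfin (t + 2)
    have m5 := g1 t
    have m6 := g1 (t + 1)
    have c0 : (0 : ℝ) ≤ 1 / (4 * 10 ^ 31) := by positivity
    have e1 := eη t
    have e2 := eη (t + 1)
    have e3 : K A (pi (F (t + 2))) - K A (pi (F t)) = A.card * (η t + η (t + 1)) := by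
      rw [mul_add]
      linarith
    have h := level5 F ψ 0 hanti hψ A hA t p hp.two_le (hG t) (1 / 12000000)
      (1 / (4 * 10 ^ 31)) (η t + η (t + 1)) (η t + η (t + 1)) (η t) (η t)
      (by norm_num) (by norm_num) (by norm_num) e3 e3 (eη t) (eη t) (by
        have e1 := ecost t
        have e2 := ecost (t + 1)
        have e3 : K (A ×ˢ A) (ps (F (t + 2)) ψ) - K (A ×ˢ A) (ps (F t) ψ) =
            A.card * A.card * ((η t + cost t) + (η (t + 1) + cost (t + 1))) := by
          rw [mul_add, ← e1, ← e2]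
          ring
        rw [e3]
        exact mul_le_mul_of_nonneg_left (by linarith) nn.le) (by linarith) (by
        rw [ecost]
        exact mul_le_mul_of_nonneg_left (by linarith) nn.le) (by linarith)
    rcases h with h | h
    · left; linarith
    · right; linarith
  have en : ∀ t, K A (pi (F (t + 1))) / A.card - K A (pi (F t)) / A.card = η t := by
    intro t
    rw [hη]
    simp only
    rw [sub_div]
  have en2 : ∀ t, K A (pi (F (t + 2))) / A.card - K A (pi (F (t + 1))) / A.card = η (t + 1) :=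
    fun t => en (t + 1)
  constructor
  · intro T
    set M := (range T).filter fun t => ¬ (K A (pi (F (t + 1))) / A.card - K A (pi (F t)) / A.card ≤
        1 / 2000000 ∨
        (log p / 2 ≤ K A (pi (F (t + 1))) / A.card - K A (pi (F t)) / A.card ∧
          log p / 2 ≤ K A (pi (F (t + 2))) / A.card - K A (pi (F (t + 1))) / A.card)) with hM
    have h1 : 1 / (4 * 10 ^ 31) * (M.card : ℝ) ≤ ∑ t ∈ M, (cost t + cost (t + 1)) := by
      rw [mul_comm, ← nsmul_eq_mul]
      refine card_nsmul_le_sum M _ _ fun t ht => ?_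
      obtain ⟨ht1, ht2⟩ := mem_filter.1 ht
      rw [en, en2] at ht2
      by_contra hno
      push Not at hno
      have m1 := g1 (t + 1)
      rcases l5 t hno.le with h | h
      · exact ht2 (Or.inl h)
      · rcases l4 t (by linarith) with h' | h'
        · exact ht2 (Or.inl h')
        · exact ht2 (Or.inr ⟨h', h⟩)
    rw [sum_add_distrib] at h1
    have h6 : ∑ t ∈ M, cost t ≤ L := by
      refine le_trans ?_ (s3 T)
      exact sum_le_sum_of_subset_of_nonneg (filter_subset _ _) fun t _ _ => g1 t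
    have h7 : ∑ t ∈ M, cost (t + 1) ≤ L := by
      refine le_trans ?_ (s3 (T + 1))
      have h8 : ∑ t ∈ M, cost (t + 1) = ∑ s ∈ M.image (fun t => t + 1), cost s := by
        rw [sum_image]
        intro a _ b _ h
        exact Nat.succ_injective h
      rw [h8]
      refine sum_le_sum_of_subset_of_nonneg ?_ fun t _ _ => g1 t
      intro s hs
      obtain ⟨t, ht, rfl⟩ := mem_image.1 hs
      have := mem_range.1 (mem_filter.1 ht).1
      rw [mem_range]
      omega
    have h9 : 1 / (4 * 10 ^ 31) * (M.card : ℝ) ≤ 2 * L := by linarith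
    rw [div_mul_eq_mul_div, one_mul, div_le_iff₀ (by positivity)] at h9
    linarith
  · intro T
    have h1 : ∑ t ∈ (range T).filter fun t => K A (pi (F (t + 1))) / A.card -
        K A (pi (F t)) / A.card ≤ 1 / 2000000,
        (K A (pi (F (t + 1))) / A.card - K A (pi (F t)) / A.card) ≤
        ∑ t ∈ (range T).filter fun t => K A (pi (F (t + 1))) / A.card -
        K A (pi (F t)) / A.card ≤ 1 / 2000000, 2 * cost t := by
      refine sum_le_sum fun t ht => ?_
      have h2 := (mem_filter.1 ht).2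
      rw [en] at h2 ⊢
      exact l3 t h2
    refine h1.trans ?_
    rw [← mul_sum]
    refine mul_le_mul_of_nonneg_left (le_trans ?_ (s3 T)) (by norm_num)
    exact sum_le_sum_of_subset_of_nonneg (filter_subset _ _) fun t _ _ => g1 t

end Pool.Agent.U234.OD
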