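import Pool.Agent.U234.LD.Apply
import Pool.Agent.U234.OD.Core1

/-! Few dilates by numbers without small prime factors. -/

set_option autoImplicit false

open Finset Real
open scoped Pointwise

namespace Pool.Agent.U234.OD

open Pool.Agent.U234.LD

theorem killed {R N : Type*} [CommRing R] [AddCommGroup N] [Module R N] (q : ℕ) (s : ℕ)
    (g : Q (Fl N (q : R) s).toAddSubgroup) : (q ^ s) • g = 0 := by
  obtain ⟨x, rfl⟩ : ∃ x : N, (QuotientAddGroup.mk' (Fl N (q : R) s).toAddSubgroup) x = g :=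
    QuotientAddGroup.mk'_surjective _ g
  have h : (q ^ s) • (QuotientAddGroup.mk' (Fl N (q : R) s).toAddSubgroup) x = 0 := by
    have e : (q ^ s) • x = ((q : R) ^ s) • x := by
      rw [← Nat.cast_pow, Nat.cast_smul_eq_nsmul]
    rw [← map_nsmul, QuotientAddGroup.mk'_apply, QuotientAddGroup.eq_zero_iff, e]
    have e2 : ((q : R) ^ s) • x ∈ Fl N (q : R) s :=
      ⟨0, x, by rw [pow_zero, one_smul, zero_add]⟩
    exact e2
  exact h

theorem order_ge {G : Type*} [AddCommGroup G] (q s : ℕ) (hq : 2 ≤ q) (g : G) (hg : g ≠ 0)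
    (h : (q ^ s) • g = 0) : q.minFac ≤ addOrderOf g := by
  have h1 := addOrderOf_dvd_of_nsmul_eq_zero h
  have h2 : addOrderOf g ≠ 1 := fun h2 => hg (AddMonoid.addOrderOf_eq_one_iff.1 h2)
  have h3 : (addOrderOf g).minFac ∣ q :=
    (Nat.minFac_prime h2).dvd_of_dvd_pow ((Nat.minFac_dvd _).trans h1)
  have h4 : q.minFac ≤ (addOrderOf g).minFac :=
    Nat.minFac_le_of_dvd (Nat.minFac_prime h2).two_le h3
  refine h4.trans (Nat.minFac_le ?_)
  exact Nat.pos_of_dvd_of_pos h1 (by positivity)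

theorem fin_quot {N : Type*} [AddCommGroup N] [i₀ : Module ℤ N] [Module.Finite ℤ N] (q : ℕ)
    (hq : 2 ≤ q) (s : ℕ) : Finite (Q (Fl N (q : ℤ) s).toAddSubgroup) := by
  have h1 : Finite (N ⧸ Fl N (q : ℤ) s) := by
    obtain rfl : i₀ = AddCommGroup.toIntModule N := Subsingleton.elim _ _
    have h2 : Module.Finite ℤ (N ⧸ Fl N (q : ℤ) s) :=
      Module.Finite.of_surjective ((Fl N (q : ℤ) s).mkQ.toAddMonoidHom.toIntLinearMap)
        (Submodule.mkQ_surjective _)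
    refine Module.finite_of_fg_torsion (N ⧸ Fl N (q : ℤ) s) ?_
    intro x
    refine ⟨⟨(q : ℤ) ^ s, mem_nonZeroDivisors_of_ne_zero (pow_ne_zero _ (by positivity))⟩, ?_⟩
    obtain ⟨y, rfl⟩ := Submodule.mkQ_surjective _ x
    have h3 : ((q : ℤ) ^ s) • (Fl N (q : ℤ) s).mkQ y = 0 := by
      have h4 : ((q : ℤ) ^ s) • (Fl N (q : ℤ) s).mkQ y =
          (Fl N (q : ℤ) s).mkQ (((q : ℤ) ^ s) • y) :=
        ((Fl N (q : ℤ) s).mkQ.toAddMonoidHom.map_zsmul ((q : ℤ) ^ s) y).symm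
      rw [h4, Submodule.mkQ_apply, Submodule.Quotient.mk_eq_zero]
      exact ⟨0, y, by rw [pow_zero, one_smul, zero_add]⟩
    exact h3
  exact h1

/-- **Few dilates by large numbers**, general abelian groups. -/
theorem few {Γ : Type*} [AddCommGroup Γ] [DecidableEq Γ] (q : ℕ) (hq : 2 ≤ q)
    (A : Finset Γ) (hA : A.Nonempty) (κ : ℝ) (hκ : 1 ≤ κ)
    (S : Finset ℕ) (hS1 : ∀ s ∈ S, 1 ≤ s) (hS : κ ^ 4 < (q.minFac : ℝ) ^ S.card)
    (hsum : ∀ s ∈ S, ∃ u : ℤ, IsCoprime u (q : ℤ) ∧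
      ((A + A.image fun x => ((q : ℤ) ^ s * u) • x).card : ℝ) ≤ κ * A.card) :
    ∃ A' ⊆ A, (A.card : ℝ) ≤ exp (10 ^ 32 * (log κ ^ 2 / S.card + log κ)) * A'.card ∧
      ∀ x ∈ A', ∀ y ∈ A', ∃ n : ℤ, n ≠ 0 ∧ n • (x - y) = 0 := by
  classical
  set W : Submodule ℤ Γ := Submodule.span ℤ (A : Set Γ) with hW
  have hAN : ∀ a ∈ A, a ∈ W := fun a ha => Submodule.subset_span (by
    rw [mem_coe]; exact ha)
  have : Module.Finite ℤ W := Module.Finite.span_finset ℤ A
  have cA := card_lift W A hAN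
  set B := lift W A with hB
  have nB : B.Nonempty := by
    rw [← card_pos, cA]; exact card_pos.2 hA
  set F : ℕ → AddSubgroup W := fun s => (Fl W (q : ℤ) s).toAddSubgroup with hF
  have hanti : Antitone F := fun s t hst => Fl_anti (M := W) (q : ℤ) hst
  have h0 : F 0 = ⊤ := by
    rw [hF]
    simp only
    rw [Fl_zero]; rfl
  have np : (0 : ℝ) < B.card := by exact_mod_cast card_pos.2 nB
  have κp : 0 < κ := by linarith
  have k0 : 0 ≤ log κ := log_nonneg hκ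
  have hc : ∀ r : ℕ, ∃ ψ : W →+ W, r ∈ S → ((∀ s z, ψ z ∈ F s ↔ z ∈ F (s - r)) ∧
      (Set.ncard {x : W | ∃ a ∈ B, ∃ b ∈ B, x = a + ψ b} : ℝ) ≤ κ * B.card) := by
    intro r
    by_cases hr : r ∈ S
    · obtain ⟨u, hu, hle⟩ := hsum r hr
      refine ⟨mulBy W ((q : ℤ) ^ r * u), fun _ => ⟨fun s z => Fl_shift (q : ℤ) u hu r s z, ?_⟩⟩
      rw [ncard_lift W A A hAN hAN, cA, ncard_image]
      exact hle
    · exact ⟨0, fun h => absurd h hr⟩
  choose ψ hψ using hc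
  obtain ⟨T₀, hT₀⟩ := exists_level F hanti B
  obtain ⟨Ea, hEa⟩ : ∃ Ea, Ea = K B (pi (F T₀)) / B.card := ⟨_, rfl⟩
  have hEa' : K B (pi (F T₀)) = B.card * Ea := by
    rw [hEa, mul_div_cancel₀ _ np.ne']
  have sep : ∀ t, T₀ ≤ t → K B (pi (F t)) = B.card * Ea := by
    intro t ht
    rw [stable_level F hanti B B T₀ hT₀ Subset.rfl ht, hEa']
  have hm2 : 2 ≤ q.minFac := (Nat.minFac_prime (by omega)).two_le
  have mp : (0 : ℝ) < q.minFac := by
    have : (2 : ℝ) ≤ q.minFac := by exact_mod_cast hm2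
    linarith
  have hR : 4 * log κ < S.card * log (q.minFac : ℝ) := by
    have h1 := log_lt_log (by positivity) hS
    rw [log_pow, log_pow] at h1
    exact_mod_cast h1
  have hE := core1 F h0 hanti T₀ S hS1 ψ (fun r hr => (hψ r hr).1) B nB Ea (log κ) sep (by
      intro r hr T
      have h1 := rel_upper F (ψ r) r (hψ r hr).1 B B nB nB T _ (hψ r hr).2
      rw [log_mul κp.ne' np.ne'] at h1
      have h2 : K B (pi (F T)) ≤ B.card * Ea := by
        rcases le_total T T₀ with h | h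
        · exact (mono_level F hanti B h).trans (le_of_eq hEa')
        · exact (sep T h).le
      nlinarith) q.minFac hm2 (fun t => fin_quot q hq t)
    (fun t g hg => order_ge q t hq g hg (killed q t g)) k0 hR
  -- a large class
  obtain ⟨x, hx, hle⟩ : ∃ x ∈ B, log ((B.card : ℝ) / N B (pi (F T₀)) x) ≤ Ea := by
    by_contra hno
    push Not at hno
    have h1 : ∑ x ∈ B, Ea < ∑ x ∈ B, log ((B.card : ℝ) / N B (pi (F T₀)) x) :=
      sum_lt_sum_of_nonempty nB hno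
    rw [sum_const, nsmul_eq_mul, ← K_eq, hEa'] at h1
    exact lt_irrefl _ h1
  have hNp : (0 : ℝ) < N B (pi (F T₀)) x := by exact_mod_cast N_pos hx
  refine ⟨(fib (F T₀) B (pi (F T₀) x)).map ⟨Subtype.val, Subtype.val_injective⟩, ?_, ?_, ?_⟩
  · intro y hy
    obtain ⟨z, hz, rfl⟩ := mem_map.1 hy
    exact mem_lift.1 (mem_fib.1 hz).1
  · have h1 : (B.card : ℝ) / N B (pi (F T₀)) x ≤ exp Ea :=
      (log_le_iff_le_exp (div_pos np hNp)).1 hle
    have h3 : (N B (pi (F T₀)) x : ℝ) = (fib (F T₀) B (pi (F T₀) x)).card := by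
      unfold N fib
      congr!
    rw [div_le_iff₀ hNp] at h1
    rw [card_map, ← h3, ← cA]
    exact h1.trans (mul_le_mul_of_nonneg_right (exp_le_exp.2 hE) hNp.le)
  · intro y hy z hz
    obtain ⟨y', hy', rfl⟩ := mem_map.1 hy
    obtain ⟨z', hz', rfl⟩ := mem_map.1 hz
    obtain ⟨hy1, hy2⟩ := mem_fib.1 hy'
    obtain ⟨hz1, hz2⟩ := mem_fib.1 hz'
    have h1 : ∀ t, y' - z' ∈ F t := by
      refine hT₀ y' hy1 z' hz1 ?_
      rw [← pi_eq, hy2, hz2]
    obtain ⟨i, c, hic⟩ := Fl_inter (q : ℤ) (y' - z') h1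
    refine ⟨(q : ℤ) ^ i * (1 - q * c), mul_ne_zero (pow_ne_zero _ (by positivity)) ?_, ?_⟩
    · intro h
      have h4 : IsUnit (q : ℤ) := IsUnit.of_mul_eq_one c (by linarith)
      rw [Int.isUnit_iff] at h4
      omega
    · have := congrArg (Subtype.val) hic
      simpa using this

end Pool.Agent.U234.OD
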