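import Pool.Agent.U234.OD.Fin2
import Pool.Agent.U234.OD.Core3

/-! Few dilates by rational numbers, torsion-free groups. -/

set_option autoImplicit false

open Finset Real
open scoped Pointwise

namespace Pool.Agent.U234.OD

open Pool.Agent.U234.LD

theorem few_rat {Γ : Type*} [AddCommGroup Γ] [DecidableEq Γ]
    (htf : ∀ (n : ℤ) (x : Γ), n ≠ 0 → n • x = 0 → x = 0) (p k : ℕ) (hp : p.Prime) (hk : 1 ≤ k)
    (A : Finset Γ) (hA : A.Nonempty) (κ : ℝ) (hκ : 1 ≤ κ)
    (S : Finset ℕ) (hS1 : ∀ s ∈ S, 1 ≤ s) (hS : κ ^ 4 < ((p : ℝ) ^ k) ^ S.card)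
    (hsum : ∀ s ∈ S, ∃ u v : ℤ, IsCoprime u (p : ℤ) ∧ IsCoprime v (p : ℤ) ∧
      (((A.image fun x => v • x) + A.image fun x => ((p : ℤ) ^ (k * s) * u) • x).card : ℝ) ≤
        κ * A.card) :
    (A.card : ℝ) ≤ exp (10 ^ 33 * (log κ ^ 2 / S.card + log κ)) := by
  classical
  set W : Submodule ℤ Γ := Submodule.span ℤ (A : Set Γ) with hW
  have hAN : ∀ a ∈ A, a ∈ W := fun a ha => Submodule.subset_span (by
    rw [mem_coe]; exact ha)
  have : Module.Finite ℤ W := Module.Finite.span_finset ℤ A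
  have cA := card_lift W A hAN
  set B := lift W A with hB
  have nB : B.Nonempty := by
    rw [← card_pos, cA]; exact card_pos.2 hA
  set F : ℕ → AddSubgroup W := Fk W p k with hF
  have hanti : Antitone F := Fk_anti W p k
  have h0 : F 0 = ⊤ := by
    rw [hF]
    unfold Fk
    rw [mul_zero, Fl_zero]; rfl
  have np : (0 : ℝ) < B.card := by exact_mod_cast card_pos.2 nB
  have κp : 0 < κ := by linarith
  have k0 : 0 ≤ log κ := log_nonneg hκ
  have hp2 : 2 ≤ p := hp.two_le
  obtain ⟨T₀, hT₀⟩ := exists_level F hanti B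
  -- separation
  have sep : ∀ t, T₀ ≤ t → K B (pi (F t)) = B.card * log B.card := by
    intro t ht
    refine K_inj B _ fun x hx y hy h => ?_
    rw [pi_eq] at h
    have h1 := hT₀ y hy x hx (hanti ht h)
    have h2 : ∀ s, y - x ∈ Fl W (p : ℤ) s := by
      intro s
      refine Fl_anti (M := W) (p : ℤ) ?_ (mem_Fk.1 (h1 s))
      exact Nat.le_mul_of_pos_left s (by omega)
    obtain ⟨i, c, hic⟩ := Fl_inter (p : ℤ) (y - x) h2
    have hne : (p : ℤ) ^ i * (1 - p * c) ≠ 0 := by
      refine mul_ne_zero (pow_ne_zero _ (by positivity)) ?_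
      intro h
      have h4 : IsUnit (p : ℤ) := IsUnit.of_mul_eq_one c (by linarith)
      rw [Int.isUnit_iff] at h4
      omega
    have h5 : ((p : ℤ) ^ i * (1 - p * c)) • ((y - x : W) : Γ) = 0 := by
      have := congrArg (Subtype.val) hic
      simpa using this
    exact sub_eq_zero.1 (Subtype.ext (htf _ _ hne h5))
  obtain ⟨T₁, hT₁e⟩ : ∃ T₁, T₁ = T₀ + S.sup id + 1 := ⟨_, rfl⟩
  have hT₁ : ∀ r ∈ S, T₀ + r + 1 ≤ T₁ := by
    intro r hr
    have : r ≤ S.sup id := le_sup (f := id) hr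
    omega
  have hc : ∀ r : ℕ, ∃ ψ : W →+ W, r ∈ S → ((∀ s z, ψ z ∈ F s ↔ z ∈ F (s - r)) ∧
      K (B ×ˢ B) (ps (F T₁) ψ) ≤ B.card * B.card * (log B.card + log κ)) := by
    intro r
    by_cases hr : r ∈ S
    · obtain ⟨u, v, hu, hv, hle⟩ := hsum r hr
      obtain ⟨a, b, hab⟩ := (hv.pow_right : IsCoprime v ((p : ℤ) ^ (k * T₁)))
      have hap : IsCoprime a (p : ℤ) := by
        have h1 : IsCoprime a ((p : ℤ) ^ (k * T₁)) := ⟨v, b, by rw [mul_comm v a]; exact hab⟩
        refine h1.of_isCoprime_of_dvd_right (dvd_pow_self _ ?_)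
        have h2 : 1 ≤ T₁ := by omega
        have : 1 ≤ k * T₁ := Nat.mul_pos hk h2
        omega
      have hψ : ∀ s z, mulBy W ((p : ℤ) ^ (k * r) * (u * a)) z ∈ F s ↔ z ∈ F (s - r) := by
        intro s z
        have h := Fl_shift (p : ℤ) (u * a) (hu.mul_left hap) (k * r) (k * s) z
        rw [← Nat.mul_sub] at h
        exact h
      refine ⟨mulBy W ((p : ℤ) ^ (k * r) * (u * a)), fun _ => ⟨hψ, ?_⟩⟩
      have h1 := blockG F (mulBy W ((p : ℤ) ^ (k * r) * (u * a))) r hψ B B T₁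
        (fun x => v • x) (fun y => ((p : ℤ) ^ (k * r) * u) • y) (by
        intro x _ y _ h
        rw [ps_eq, ps_eq, pi_eq]
        have h2 : v • (y.1 - x.1) = -(((p : ℤ) ^ (k * r) * u) • (y.2 - x.2)) := by
          rw [smul_sub, smul_sub, neg_sub, sub_eq_sub_iff_add_eq_add, h, add_comm]
        have h3 : y.1 + mulBy W ((p : ℤ) ^ (k * r) * (u * a)) y.2 -
            (x.1 + mulBy W ((p : ℤ) ^ (k * r) * (u * a)) x.2) =
            ((p : ℤ) ^ (k * T₁)) • (b • (y.1 - x.1)) := by
          rw [mulBy_apply, mulBy_apply]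
          have h4 : y.1 - x.1 = a • (v • (y.1 - x.1)) +
              ((p : ℤ) ^ (k * T₁)) • (b • (y.1 - x.1)) := by
            rw [← mul_smul, ← mul_smul, ← add_smul]
            have : a * v + (p : ℤ) ^ (k * T₁) * b = 1 := by rw [← hab]; ring
            rw [this, one_smul]
          have h5 : a • (v • (y.1 - x.1)) = -(((p : ℤ) ^ (k * r) * (u * a)) • (y.2 - x.2)) := by
            rw [h2, smul_neg, ← mul_smul]
            congr 2
            ring
          rw [h5] at h4
          have h6 : y.1 + ((p : ℤ) ^ (k * r) * (u * a)) • y.2 -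
              (x.1 + ((p : ℤ) ^ (k * r) * (u * a)) • x.2) =
              (y.1 - x.1) + ((p : ℤ) ^ (k * r) * (u * a)) • (y.2 - x.2) := by
            rw [smul_sub]
            abel
          rw [h6]
          nth_rewrite 1 [h4]
          abel
        rw [h3]
        exact mem_Fk.2 ⟨0, b • (y.1 - x.1), by rw [pow_zero, one_smul, zero_add]⟩)
      have h2 : 0 ≤ ∑ c ∈ cls (F T₁) B, ∑ c' ∈ cls (F (T₁ - r)) B,
          K (fib (F T₁) B c ×ˢ fib (F (T₁ - r)) B c')
            (fun z => v • z.1 + ((p : ℤ) ^ (k * r) * u) • z.2) :=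
        sum_nonneg fun _ _ => sum_nonneg fun _ _ => K_nonneg _ _
      have h3 := K_le (B ×ˢ B) (fun z : W × W => v • z.1 + ((p : ℤ) ^ (k * r) * u) • z.2)
      have h4 : (((B ×ˢ B).image
          (fun z : W × W => v • z.1 + ((p : ℤ) ^ (k * r) * u) • z.2)).card : ℝ) ≤
          κ * B.card := by
        rw [cA]
        refine le_trans ?_ hle
        refine Nat.cast_le.2 (card_le_card_of_injOn (fun x : W => (x : Γ)) ?_
          Subtype.val_injective.injOn)
        intro x hx
        obtain ⟨z, hz, rfl⟩ := mem_image.1 (mem_coe.1 hx)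
        obtain ⟨hz1, hz2⟩ := mem_product.1 hz
        refine mem_coe.2 (Finset.mem_add.2 ⟨v • (z.1 : Γ), mem_image_of_mem _ (mem_lift.1 hz1),
          ((p : ℤ) ^ (k * r) * u) • (z.2 : Γ),
          mem_image.2 ⟨(z.2 : Γ), mem_lift.1 hz2, rfl⟩, rfl⟩)
      have h5 : (0 : ℝ) < (((B ×ˢ B).image
          (fun z : W × W => v • z.1 + ((p : ℤ) ^ (k * r) * u) • z.2)).card : ℝ) := by
        exact_mod_cast card_pos.2 ((nB.product nB).image _)
      have h6 := log_le_log h5 h4
      rw [log_mul κp.ne' np.ne'] at h6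
      rw [card_product] at h3
      push_cast at h3
      have h7 : (B.card : ℝ) * B.card * log (((B ×ˢ B).image
          (fun z : W × W => v • z.1 + ((p : ℤ) ^ (k * r) * u) • z.2)).card : ℝ) ≤
          B.card * B.card * (log B.card + log κ) :=
        mul_le_mul_of_nonneg_left (by linarith) (by positivity)
      linarith
    · exact ⟨0, fun h => absurd h hr⟩
  choose ψ hψ using hc
  have hq2 : 2 ≤ p ^ k := hp2.trans (Nat.le_self_pow (by omega) p)
  have hR : 4 * log κ < S.card * log ((p ^ k : ℕ) : ℝ) := by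
    have h1 := log_lt_log (by positivity) hS
    rw [log_pow, log_pow] at h1
    rw [Nat.cast_pow]
    exact_mod_cast h1
  have hE := core3 F h0 hanti T₀ S hS1 ψ (fun r hr => (hψ r hr).1) B nB (log B.card) (log κ) sep
    T₁ hT₁ (fun r hr => (hψ r hr).2) (p ^ k) hq2 (fun t => fin_quot p hp2 (k * t))
    (fun t g hg => Fk_order p k hp t g hg) k0 hR
  rw [← cA]
  exact (log_le_iff_le_exp np).1 hE

end Pool.Agent.U234.OD
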