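import Pool.Agent.U234.LD.LemE

/-! The Hellinger distance of translated laws and the entropy of a sum. -/

set_option autoImplicit false
set_option linter.unusedSectionVars false

open Finset Real
open Pool.Agent.U234.LD

namespace Pool.Agent.U234.OD

section dist

variable {G : Type*} [Fintype G]

/-- the distance in `ℓ²` -/
noncomputable def D (f g : G → ℝ) : ℝ := √(∑ x, (f x - g x) ^ 2)

theorem D_nonneg (f g : G → ℝ) : 0 ≤ D f g := sqrt_nonneg _

theorem D_sq (f g : G → ℝ) : D f g ^ 2 = ∑ x, (f x - g x) ^ 2 :=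
  sq_sqrt (sum_nonneg fun _ _ => sq_nonneg _)

theorem D_comm (f g : G → ℝ) : D f g = D g f := by
  unfold D
  congr 1
  exact sum_congr rfl fun x _ => by ring

theorem D_triangle (f g h : G → ℝ) : D f h ≤ D f g + D g h := by
  have := dist_triangle (WithLp.toLp 2 f : EuclideanSpace ℝ G) (WithLp.toLp 2 g) (WithLp.toLp 2 h)
  simpa [EuclideanSpace.dist_eq, Real.dist_eq, sq_abs, D] using this

variable [AddCommGroup G]

/-- translation -/
def tr (g : G) (f : G → ℝ) : G → ℝ := fun x => f (x - g)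

theorem D_tr (g : G) (f h : G → ℝ) : D (tr g f) (tr g h) = D f h := by
  unfold D tr
  congr 1
  exact Fintype.sum_equiv (Equiv.subRight g) _ _ fun x => rfl

theorem tr_tr (g h : G) (f : G → ℝ) : tr g (tr h f) = tr (g + h) f := by
  funext x
  unfold tr
  congr 1
  abel

theorem sum_tr (g : G) (f : G → ℝ) (φ : ℝ → ℝ) : ∑ x, φ (tr g f x) = ∑ x, φ (f x) :=
  Fintype.sum_equiv (Equiv.subRight g) _ _ fun x => rfl

/-- the distance of two unit vectors -/
theorem D_sq_unit (f h : G → ℝ) (hf : ∑ x, f x ^ 2 = 1) (hh : ∑ x, h x ^ 2 = 1) :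
    D f h ^ 2 = 2 - 2 * ∑ x, f x * h x := by
  rw [D_sq]
  have : ∀ x, (f x - h x) ^ 2 = f x ^ 2 + h x ^ 2 - 2 * (f x * h x) := fun x => by ring
  simp only [this, sum_sub_distrib, sum_add_distrib, ← mul_sum, hf, hh]
  ring

end dist

section law

variable {ι κ G : Type*} [AddCommGroup G] [Fintype G]

open scoped Classical in
/-- the square root of the law -/
noncomputable def sl (A : Finset ι) (U : ι → G) (g : G) : ℝ :=
  √(((A.filter fun a => U a = g).card : ℝ) / A.card)

theorem sl_nonneg (A : Finset ι) (U : ι → G) (g : G) : 0 ≤ sl A U g := sqrt_nonneg _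

open scoped Classical in
theorem sl_sq (A : Finset ι) (U : ι → G) (g : G) :
    sl A U g ^ 2 = ((A.filter fun a => U a = g).card : ℝ) / A.card :=
  sq_sqrt (by positivity)

theorem sl_val (A : Finset ι) (U : ι → G) (a : ι) : sl A U (U a) ^ 2 = (N A U a : ℝ) / A.card := by
  rw [sl_sq]
  unfold N
  congr!

open scoped Classical in
theorem sum_val (A : Finset ι) (hA : A.Nonempty) (U : ι → G) (φ : G → ℝ) :
    ∑ a ∈ A, φ (U a) = A.card * ∑ g, sl A U g ^ 2 * φ g := by
  have hn : (0 : ℝ) < A.card := by exact_mod_cast card_pos.2 hA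
  rw [← sum_fiberwise A U (fun a => φ (U a)), mul_sum]
  refine sum_congr rfl fun g _ => ?_
  have : ∑ i ∈ A with U i = g, φ (U i) = ∑ i ∈ A with U i = g, φ g :=
    sum_congr rfl fun i hi => by rw [(mem_filter.1 hi).2]
  rw [this, sum_const, nsmul_eq_mul, sl_sq, ← mul_assoc, mul_div_cancel₀ _ hn.ne']

theorem sum_sl (A : Finset ι) (hA : A.Nonempty) (U : ι → G) : ∑ g, sl A U g ^ 2 = 1 := by
  have hn : (0 : ℝ) < A.card := by exact_mod_cast card_pos.2 hA
  have h := sum_val A hA U (fun _ => 1)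
  simp only [sum_const, nsmul_eq_mul, mul_one] at h
  have h2 : (A.card : ℝ) * (∑ g, sl A U g ^ 2) = A.card * 1 := by rw [← h, mul_one]
  exact mul_left_cancel₀ hn.ne' h2

variable (A : Finset ι) (B : Finset κ) (U : ι → G) (V : κ → G)

/-- the square root of the law of the sum -/
noncomputable def sw (g : G) : ℝ := sl (A ×ˢ B) (fun z => U z.1 + V z.2) g

theorem N_prod_pos {a : ι} {b : κ} (ha : a ∈ A) (hb : b ∈ B) :
    (0 : ℝ) < N (A ×ˢ B) (fun z : ι × κ => U z.1 + V z.2) (a, b) := by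
  have h : (a, b) ∈ A ×ˢ B := mem_product.2 ⟨ha, hb⟩
  exact_mod_cast N_pos (f := fun z : ι × κ => U z.1 + V z.2) h

theorem pos_of_sq {x : ℝ} (h1 : 0 ≤ x) (h2 : 0 < x ^ 2) : 0 < x :=
  lt_of_le_of_ne h1 fun h => by rw [← h] at h2; norm_num at h2

theorem K_diff :
    K (A ×ˢ B) (fun z => U z.1 + V z.2) - B.card * K A U =
      ∑ b ∈ B, ∑ a ∈ A, log ((sl A U (U a) / sw A B U V (U a + V b)) ^ 2) := by
  rw [K_eq, K_eq, sum_product_right, mul_comm, ← nsmul_eq_mul', ← sum_const, ← sum_sub_distrib]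
  refine sum_congr rfl fun b hb => ?_
  rw [← sum_sub_distrib]
  refine sum_congr rfl fun a ha => ?_
  have p1 : (0 : ℝ) < N A U a := by exact_mod_cast N_pos ha
  have p3 : (0 : ℝ) < A.card := by exact_mod_cast card_pos.2 ⟨a, ha⟩
  have p4 : (0 : ℝ) < B.card := by exact_mod_cast card_pos.2 ⟨b, hb⟩
  have p2 := N_prod_pos A B U V ha hb
  have e := sl_val (A ×ˢ B) (fun z : ι × κ => U z.1 + V z.2) (a, b)
  have e1 := sl_val A U a
  rw [div_pow, e1]
  unfold sw
  rw [show sl (A ×ˢ B) (fun z : ι × κ => U z.1 + V z.2) (U a + V b) ^ 2 =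
    (N (A ×ˢ B) (fun z : ι × κ => U z.1 + V z.2) (a, b) : ℝ) / (A ×ˢ B).card from e, card_product]
  push_cast
  rw [← log_div (by positivity) (by positivity)]
  congr 1
  field_simp

/-- **The Hellinger distance and the entropy.** -/
theorem hell (hA : A.Nonempty) (hB : B.Nonempty) :
    A.card * ∑ b ∈ B, D (tr (V b) (sl A U)) (sw A B U V) ^ 2 ≤
      K (A ×ˢ B) (fun z => U z.1 + V z.2) - B.card * K A U := by
  rw [K_diff A B U V, mul_sum]
  refine sum_le_sum fun b hb => ?_
  have hn : (0 : ℝ) < A.card := by exact_mod_cast card_pos.2 hA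
  have hsum1 : ∑ x, tr (V b) (sl A U) x ^ 2 = 1 := by
    rw [sum_tr (V b) (sl A U) (fun t => t ^ 2)]
    exact sum_sl A hA U
  have hsum2 : ∑ x, sw A B U V x ^ 2 = 1 := sum_sl _ (hA.product hB) _
  rw [D_sq_unit _ _ hsum1 hsum2]
  have e1 : ∑ x, tr (V b) (sl A U) x * sw A B U V x = ∑ y, sl A U y * sw A B U V (y + V b) := by
    refine Fintype.sum_equiv (Equiv.subRight (V b)) _ _ fun x => ?_
    unfold tr
    simp
  have e2 := sum_val A hA U (fun g => sw A B U V (g + V b) / sl A U g)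
  have e3 : ∑ g, sl A U g ^ 2 * (sw A B U V (g + V b) / sl A U g) =
      ∑ y, sl A U y * sw A B U V (y + V b) := by
    refine sum_congr rfl fun g _ => ?_
    by_cases h : sl A U g = 0
    · rw [h]; simp
    · field_simp
  rw [e3] at e2
  rw [e1]
  have h1 : ∀ a ∈ A, 2 - 2 * (sw A B U V (U a + V b) / sl A U (U a)) ≤
      log ((sl A U (U a) / sw A B U V (U a + V b)) ^ 2) := by
    intro a ha
    have p1 : (0 : ℝ) < N A U a := by exact_mod_cast N_pos ha
    have p4 : (0 : ℝ) < B.card := by exact_mod_cast card_pos.2 ⟨b, hb⟩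
    have q1 : 0 < sl A U (U a) := by
      have := sl_val A U a
      have h2 : 0 < sl A U (U a) ^ 2 := by rw [this]; positivity
      exact pos_of_sq (sl_nonneg _ _ _) h2
    have q2 : 0 < sw A B U V (U a + V b) := by
      have p2 := N_prod_pos A B U V ha hb
      have := sl_val (A ×ˢ B) (fun z : ι × κ => U z.1 + V z.2) (a, b)
      have p5 : (0 : ℝ) < (A ×ˢ B).card := by exact_mod_cast card_pos.2 (hA.product hB)
      have h2 : 0 < sw A B U V (U a + V b) ^ 2 := by
        unfold sw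
        rw [show sl (A ×ˢ B) (fun z : ι × κ => U z.1 + V z.2) (U a + V b) ^ 2 =
          (N (A ×ˢ B) (fun z : ι × κ => U z.1 + V z.2) (a, b) : ℝ) / (A ×ˢ B).card from this]
        positivity
      exact pos_of_sq (sl_nonneg _ _ _) h2
    have h3 := one_sub_inv_le_log_of_pos (x := sl A U (U a) / sw A B U V (U a + V b))
      (by positivity)
    rw [inv_div] at h3
    rw [log_pow]
    push_cast
    linarith
  have h2 := sum_le_sum h1
  rw [sum_sub_distrib, ← mul_sum, e2, sum_const, nsmul_eq_mul] at h2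
  linarith

end law

end Pool.Agent.U234.OD
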