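import Pool.Agent.U234.OD.Hel

/-! The entropy of a sum is nearly the entropy of the summands only near subgroups. -/

set_option autoImplicit false
set_option linter.unusedSectionVars false

open Finset Real
open Pool.Agent.U234.LD

namespace Pool.Agent.U234.OD

variable {ι κ G : Type*} [AddCommGroup G] [Fintype G]

theorem sum_mul_le {f g : G → ℝ} : ∑ x, f x * g x ≤ √(∑ x, f x ^ 2) * √(∑ x, g x ^ 2) := by
  rw [← sqrt_mul (sum_nonneg fun _ _ => sq_nonneg _)]
  exact le_sqrt_of_sq_le (sum_mul_sq_le_sq_mul_sq _ _ _)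

open scoped Classical in
/-- the part of `f` outside of `E` -/
noncomputable def out (E : Set G) (f : G → ℝ) (x : G) : ℝ := if x ∈ E then 0 else f x

theorem D_out (E : Set G) (f g : G → ℝ) : D (out E f) (out E g) ≤ D f g := by
  classical
  unfold D
  refine sqrt_le_sqrt (sum_le_sum fun x _ => ?_)
  unfold out
  split_ifs
  · simp; positivity
  · exact le_rfl

theorem D_zero (f : G → ℝ) : D f 0 = √(∑ x, f x ^ 2) := by
  unfold D
  simp

theorem exists_le_avg (B : Finset κ) (hB : B.Nonempty) (d : κ → ℝ) (c : ℝ)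
    (h : ∑ b ∈ B, d b ≤ c * B.card) : ∃ b ∈ B, d b ≤ c := by
  by_contra hcon
  push Not at hcon
  have := sum_lt_sum_of_nonempty hB hcon
  rw [sum_const, nsmul_eq_mul] at this
  linarith

open scoped Classical in
theorem bad_le (B : Finset κ) (d : κ → ℝ) (hd : ∀ b ∈ B, 0 ≤ d b) (c t : ℝ) (ht : 0 < t)
    (h : ∑ b ∈ B, d b ^ 2 ≤ c * B.card) :
    ((B.filter fun b => ¬ d b ≤ t).card : ℝ) * t ^ 2 ≤ c * B.card := by
  refine le_trans ?_ h
  calc ((B.filter fun b => ¬ d b ≤ t).card : ℝ) * t ^ 2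
      = ∑ b ∈ B.filter (fun b => ¬ d b ≤ t), t ^ 2 := by rw [sum_const, nsmul_eq_mul]
    _ ≤ ∑ b ∈ B.filter (fun b => ¬ d b ≤ t), d b ^ 2 := by
        refine sum_le_sum fun b hb => ?_
        have := (mem_filter.1 hb).2
        push Not at this
        exact pow_le_pow_left₀ ht.le this.le 2
    _ ≤ ∑ b ∈ B, d b ^ 2 :=
        sum_le_sum_of_subset_of_nonneg (filter_subset _ _) fun b _ _ => sq_nonneg _

theorem K_swap (A : Finset ι) (B : Finset κ) (U : ι → G) (V : κ → G) :
    K (B ×ˢ A) (fun z => V z.1 + U z.2) = K (A ×ˢ B) (fun z => U z.1 + V z.2) := by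
  classical
  have hN : ∀ a b, N (B ×ˢ A) (fun z : κ × ι => V z.1 + U z.2) (b, a) =
      N (A ×ˢ B) (fun z : ι × κ => U z.1 + V z.2) (a, b) := by
    intro a b
    unfold N
    refine card_bij (fun z _ => (z.2, z.1)) ?_ ?_ ?_
    · intro z hz
      simp only [mem_filter, mem_product] at hz ⊢
      refine ⟨⟨hz.1.2, hz.1.1⟩, ?_⟩
      rw [add_comm, hz.2, add_comm]
    · intro z _ w _ h
      exact Prod.ext (Prod.ext_iff.1 h).2 (Prod.ext_iff.1 h).1
    · intro z hz
      simp only [mem_filter, mem_product] at hz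
      refine ⟨(z.2, z.1), ?_, rfl⟩
      simp only [mem_filter, mem_product]
      refine ⟨⟨hz.1.2, hz.1.1⟩, ?_⟩
      rw [add_comm, hz.2, add_comm]
  unfold K
  rw [card_product, card_product, mul_comm B.card A.card, sum_product_right, sum_product]
  congr 1
  refine sum_congr rfl fun a _ => sum_congr rfl fun b _ => ?_
  rw [hN]

theorem sw_swap (A : Finset ι) (B : Finset κ) (U : ι → G) (V : κ → G) :
    sw B A V U = sw A B U V := by
  classical
  funext g
  unfold sw sl
  congr 2
  · congr 1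
    refine card_bij (fun z _ => (z.2, z.1)) ?_ ?_ ?_
    · intro z hz
      simp only [mem_filter, mem_product] at hz ⊢
      refine ⟨⟨hz.1.2, hz.1.1⟩, ?_⟩
      rw [add_comm, hz.2]
    · intro z _ w _ h
      exact Prod.ext (Prod.ext_iff.1 h).2 (Prod.ext_iff.1 h).1
    · intro z hz
      simp only [mem_filter, mem_product] at hz
      refine ⟨(z.2, z.1), ?_, rfl⟩
      simp only [mem_filter, mem_product]
      refine ⟨⟨hz.1.2, hz.1.1⟩, ?_⟩
      rw [add_comm, hz.2]
  · rw [card_product, card_product, mul_comm]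

open scoped Classical in
/-- the probability of the complement -/
theorem prob_out (A : Finset ι) (hA : A.Nonempty) (U : ι → G) (E : Set G) :
    ((A.filter fun a => U a ∉ E).card : ℝ) = A.card * ∑ x, out E (sl A U) x ^ 2 := by
  have h := sum_val A hA U (fun g => if g ∈ E then (0 : ℝ) else 1)
  have h1 : ∑ a ∈ A, (if U a ∈ E then (0 : ℝ) else 1) = ((A.filter fun a => U a ∉ E).card : ℝ) := by
    rw [card_filter]
    push_cast
    refine sum_congr rfl fun a _ => ?_
    split_ifs <;> simp_all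
  rw [h1] at h
  rw [h]
  congr 1
  refine sum_congr rfl fun x _ => ?_
  unfold out
  split_ifs <;> simp

/-- **The structure.** -/
theorem structure_lemma (A : Finset ι) (B : Finset κ) (U : ι → G) (V : κ → G) (hA : A.Nonempty)
    (hB : B.Nonempty) (ε : ℝ) (hε : 0 < ε) (hε1 : ε ≤ 1 / 100)
    (h1 : K (A ×ˢ B) (fun z => U z.1 + V z.2) - B.card * K A U ≤ ε ^ 4 / 64 * (A.card * B.card))
    (h2 : K (A ×ˢ B) (fun z => U z.1 + V z.2) - A.card * K B V ≤
      2 * (ε ^ 4 / 64) * (A.card * B.card)) :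
    ∃ (H : AddSubgroup G) (u₀ v₀ : G), (∀ s ∈ H, D (tr s (sl A U)) (sl A U) ≤ 2 * ε) ∧
      D (out {x | x - u₀ ∈ H} (sl A U)) 0 ≤ ε ∧
      D (out {x | x - v₀ ∈ H} (sl B V)) 0 ≤ ε := by
  classical
  set f := sl A U with hf
  set g := sl B V with hg
  set w := sw A B U V with hw
  have np : (0 : ℝ) < A.card := by exact_mod_cast card_pos.2 hA
  have mp : (0 : ℝ) < B.card := by exact_mod_cast card_pos.2 hB
  set c : ℝ := ε ^ 4 / 64 with hc
  have cp : 0 < c := by positivity
  have sf : ∑ x, f x ^ 2 = 1 := sum_sl A hA U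
  have sg : ∑ x, g x ^ 2 = 1 := sum_sl B hB V
  have e1 : ∑ b ∈ B, D (tr (V b) f) w ^ 2 ≤ c * B.card := by
    have := (hell A B U V hA hB).trans h1
    have h3 : A.card * ∑ b ∈ B, D (tr (V b) f) w ^ 2 ≤ A.card * (c * B.card) := by linarith
    exact le_of_mul_le_mul_left h3 np
  have e2 : ∑ a ∈ A, D (tr (U a) g) w ^ 2 ≤ 2 * c * A.card := by
    have h0 := hell B A V U hB hA
    rw [K_swap, sw_swap] at h0
    have := h0.trans h2
    have h3 : B.card * ∑ a ∈ A, D (tr (U a) g) w ^ 2 ≤ B.card * (2 * c * A.card) := by linarith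
    exact le_of_mul_le_mul_left h3 mp
  have e3 := bad_le B (fun b => D (tr (V b) f) w) (fun b _ => D_nonneg _ _) c (ε / 2)
    (by positivity) e1
  -- few bad elements
  have e4 : ((B.filter fun b => ¬ D (tr (V b) f) w ≤ ε / 2).card : ℝ) ≤ ε ^ 2 / 16 * B.card := by
    have h3 : ((B.filter fun b => ¬ D (tr (V b) f) w ≤ ε / 2).card : ℝ) * (ε / 2) ^ 2 ≤
        (ε ^ 2 / 16 * B.card) * (ε / 2) ^ 2 := by
      refine e3.trans (le_of_eq ?_)
      rw [hc]; ring
    exact le_of_mul_le_mul_right h3 (by positivity)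
  obtain ⟨b₀, hb₀, hb₀d⟩ : ∃ b ∈ B, D (tr (V b) f) w ≤ ε / 2 := by
    by_contra hcon
    push Not at hcon
    have : B.filter (fun b => ¬ D (tr (V b) f) w ≤ ε / 2) = B :=
      filter_true_of_mem fun b hb => not_le.2 (hcon b hb)
    rw [this] at e4
    have h5 : ε ^ 2 / 16 < 1 := by nlinarith
    nlinarith
  obtain ⟨a₀, ha₀, ha₀d⟩ := exists_le_avg A hA (fun a => D (tr (U a) g) w ^ 2) (2 * c) e2
  set v₀ := V b₀ with hv₀
  set u₀ := U a₀ with hu₀
  have ha₀d' : D (tr u₀ g) w ≤ ε / 4 := by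
    refine abs_le_of_sq_le_sq' ?_ (by positivity) |>.2
    refine ha₀d.trans ?_
    rw [hc]
    have h5 : ε ^ 4 = ε ^ 2 * ε ^ 2 := by ring
    have h6 : ε ^ 2 ≤ 1 := by nlinarith
    have h7 : 0 ≤ ε ^ 2 := by positivity
    nlinarith
  -- the good elements
  have good : ∀ b ∈ B, D (tr (V b) f) w ≤ ε / 2 → D (tr (V b - v₀) f) f ≤ ε := by
    intro b _ hb
    have h3 := D_triangle (tr (V b) f) w (tr v₀ f)
    rw [D_comm w] at h3
    have h4 : D (tr (V b) f) (tr v₀ f) = D (tr (V b - v₀) f) f := by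
      rw [← D_tr v₀ (tr (V b - v₀) f) f, tr_tr]
      congr 2
      abel
    rw [← h4]
    linarith
  have triS : ∀ s t : G, D (tr (s - t) f) f ≤ D (tr s f) f + D (tr t f) f := by
    intro s t
    have h3 := D_triangle (tr s f) f (tr t f)
    have h4 : D (tr s f) (tr t f) = D (tr (s - t) f) f := by
      rw [← D_tr t (tr (s - t) f) f, tr_tr]
      congr 2
      abel
    rw [h4, D_comm f (tr t f)] at h3
    exact h3
  have negS : ∀ s : G, D (tr (-s) f) f = D (tr s f) f := by
    intro s
    rw [← D_tr s (tr (-s) f) f, tr_tr, add_neg_cancel]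
    have : tr (0 : G) f = f := by funext x; unfold tr; rw [sub_zero]
    rw [this, D_comm]
  -- `V` is in `v₀ + Sym`
  have outV : D (out {x | D (tr (x - v₀) f) f ≤ ε} g) 0 ≤ ε / 4 := by
    rw [D_zero]
    have h3 := prob_out B hB V {x | D (tr (x - v₀) f) f ≤ ε}
    have h4 : ((B.filter fun b => V b ∉ {x | D (tr (x - v₀) f) f ≤ ε}).card : ℝ) ≤
        ε ^ 2 / 16 * B.card := by
      refine le_trans ?_ e4
      have : (B.filter fun b => V b ∉ {x | D (tr (x - v₀) f) f ≤ ε}) ⊆
          B.filter fun b => ¬ D (tr (V b) f) w ≤ ε / 2 := by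
        intro b hb
        obtain ⟨hb1, hb2⟩ := mem_filter.1 hb
        exact mem_filter.2 ⟨hb1, fun h => hb2 (good b hb1 h)⟩
      exact_mod_cast card_le_card this
    rw [h3, mul_comm] at h4
    have h5 := le_of_mul_le_mul_right h4 mp
    refine sqrt_le_iff.2 ⟨by positivity, h5.trans (le_of_eq (by ring))⟩
  -- `U` is in `u₀ + Sym`
  have outU : D (out {x | D (tr (x - u₀) f) f ≤ ε} f) 0 ≤ ε := by
    have key : ∀ (t : G) (E : Set G) (h : G → ℝ), D (out E h) 0 = D (out {x | x - t ∈ E} (tr t h)) 0 := by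
      intro t E h
      have : out {x | x - t ∈ E} (tr t h) = tr t (out E h) := by
        funext x
        unfold out tr
        rfl
      rw [this, ← D_tr t (out E h) 0]
      rfl
    rw [key v₀]
    have h3 := D_triangle (out {x | x - v₀ ∈ {x | D (tr (x - u₀) f) f ≤ ε}} (tr v₀ f))
      (out {x | x - v₀ ∈ {x | D (tr (x - u₀) f) f ≤ ε}} (tr u₀ g)) 0
    have h4 := D_out {x | x - v₀ ∈ {x | D (tr (x - u₀) f) f ≤ ε}} (tr v₀ f) (tr u₀ g)
    have h5 := D_triangle (tr v₀ f) w (tr u₀ g)
    rw [D_comm w (tr u₀ g)] at h5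
    have h6 : D (out {x | x - v₀ ∈ {x | D (tr (x - u₀) f) f ≤ ε}} (tr u₀ g)) 0 =
        D (out {x | D (tr (x - v₀) f) f ≤ ε} g) 0 := by
      rw [key u₀ _ g]
      congr 2
      ext x
      simp only [Set.mem_ofPred_eq]
      rw [sub_right_comm]
    rw [h6] at h3
    linarith
  have un : ∀ s : G, ∑ x, tr s f x ^ 2 = 1 := fun s => by
    rw [sum_tr s f (fun t => t ^ 2)]; exact sf
  -- the gap
  have gap : ∀ s : G, D (tr s f) f ≤ 1 → D (tr s f) f ≤ 2 * ε := by
    intro s hs
    by_contra hcon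
    push Not at hcon
    have h3 := D_sq_unit (tr s f) f (un s) sf
    have h4 : D (tr s f) f ^ 2 ≤ 1 := by nlinarith [D_nonneg (tr s f) f]
    set E : Set G := {x | D (tr (x - u₀) f) f ≤ ε} with hE
    have hdis : ∀ x, x ∈ E → x - s ∉ E := by
      intro x hx hx'
      have h5 := triS (x - u₀) (x - s - u₀)
      rw [show x - u₀ - (x - s - u₀) = s by abel] at h5
      have h6 : D (tr (x - u₀) f) f ≤ ε := hx
      have h7 : D (tr (x - s - u₀) f) f ≤ ε := hx'
      linarith
    have h5 : ∑ x, tr s f x * f x ≤ ∑ x, tr s f x * out E f x + ∑ x, tr s (out E f) x * f x := by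
      rw [← sum_add_distrib]
      refine sum_le_sum fun x _ => ?_
      have p1 : 0 ≤ f x := sl_nonneg _ _ _
      have p2 : 0 ≤ tr s f x := sl_nonneg _ _ _
      by_cases hx : x ∈ E
      · have h6 : tr s (out E f) x = tr s f x := by
          unfold tr out
          rw [if_neg (hdis x hx)]
        have h7 : out E f x = 0 := by unfold out; rw [if_pos hx]
        rw [h6, h7, mul_zero, zero_add]
      · have h7 : out E f x = f x := by unfold out; rw [if_neg hx]
        have h8 : 0 ≤ tr s (out E f) x := by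
          unfold tr out
          split_ifs
          · exact le_rfl
          · exact sl_nonneg _ _ _
        rw [h7]
        have := mul_nonneg h8 p1
        linarith
    have h6 := sum_mul_le (f := tr s f) (g := out E f)
    have h7 := sum_mul_le (f := tr s (out E f)) (g := f)
    rw [un s, sqrt_one, one_mul, ← D_zero] at h6
    rw [sf, sqrt_one, mul_one, sum_tr s (out E f) (fun t => t ^ 2), ← D_zero] at h7
    linarith
  refine ⟨{ carrier := {s | D (tr s f) f ≤ 1}
            zero_mem' := ?_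
            add_mem' := ?_
            neg_mem' := ?_ }, u₀, v₀, ?_, ?_, ?_⟩
  · intro s t hs ht
    have h3 := gap s hs
    have h4 := gap t ht
    have h5 := triS s (-t)
    rw [sub_neg_eq_add, negS] at h5
    show D (tr (s + t) f) f ≤ 1
    linarith
  · show D (tr 0 f) f ≤ 1
    have : tr (0 : G) f = f := by funext x; unfold tr; rw [sub_zero]
    rw [this]
    have : D f f = 0 := by unfold D; simp
    rw [this]; norm_num
  · intro s hs
    show D (tr (-s) f) f ≤ 1
    rw [negS]; exact hs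
  · intro s hs
    exact gap s hs
  · refine le_trans ?_ outU
    rw [D_zero, D_zero]
    refine sqrt_le_sqrt (sum_le_sum fun x _ => ?_)
    unfold out
    by_cases h3 : D (tr (x - u₀) f) f ≤ ε
    · rw [if_pos (show x ∈ {x | x - u₀ ∈ _} from h3.trans (by linarith))]
      simp; positivity
    · rw [if_neg (show x ∉ {x | D (tr (x - u₀) f) f ≤ ε} from h3)]
      split_ifs
      · simp; positivity
      · exact le_rfl
  · refine le_trans ?_ (outV.trans (by linarith))
    rw [D_zero, D_zero]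
    refine sqrt_le_sqrt (sum_le_sum fun x _ => ?_)
    unfold out
    by_cases h3 : D (tr (x - v₀) f) f ≤ ε
    · rw [if_pos (show x ∈ {x | x - v₀ ∈ _} from h3.trans (by linarith))]
      simp; positivity
    · rw [if_neg (show x ∉ {x | D (tr (x - v₀) f) f ≤ ε} from h3)]
      split_ifs
      · simp; positivity
      · exact le_rfl

end Pool.Agent.U234.OD
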