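import Pool.Agent.U234.OD.PInt

/-! The numbers of the residue classes. -/

set_option autoImplicit false

open Finset Real
open scoped Pointwise

namespace Pool.Agent.U234.OD

open Pool.Agent.U234.LD

theorem card_image_le_of {α β γ : Type*} [DecidableEq β] [DecidableEq γ] (A : Finset α)
    (f : α → β) (g : α → γ) (h : ∀ x ∈ A, ∀ y ∈ A, g x = g y → f x = f y) :
    (A.image f).card ≤ (A.image g).card := by
  classical
  rcases A.eq_empty_or_nonempty with rfl | ⟨a, ha⟩
  · simp
  have : Nonempty α := ⟨a⟩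
  have h1 : A.image f ⊆ (A.image g).image fun v => f (Function.invFunOn g A v) := by
    intro v hv
    obtain ⟨y, hy, rfl⟩ := mem_image.1 hv
    refine mem_image.2 ⟨g y, mem_image_of_mem _ hy, ?_⟩
    have h2 : g y ∈ g '' (A : Set α) := ⟨y, hy, rfl⟩
    exact h _ (mem_coe.1 (Function.invFunOn_mem h2)) y hy (Function.invFunOn_eq h2)
  exact (card_le_card h1).trans card_image_le

/-- the number of the classes and the entropy -/
theorem card_ent (p T : ℕ) (hp : 0 < p) (u : ℤ) (hu : u ≠ 0) (A : Finset ℤ)
    (hA : A.Nonempty) (κ : ℝ) (hκ : 1 ≤ κ)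
    (hsum : ((A + A.image fun x => u • x).card : ℝ) ≤ κ * A.card) :
    |log ((A.image fun x => x % ((p : ℤ) ^ T)).card : ℝ) - ent A (p ^ T)| ≤ log κ := by
  classical
  have np : (0 : ℝ) < A.card := by exact_mod_cast card_pos.2 hA
  have κp : 0 < κ := by linarith
  have htf : ∀ (n : ℕ) (x : ℤ), n ≠ 0 → n • x = 0 → x = 0 := fun n x hn h => by
    rw [nsmul_eq_mul] at h
    rcases mul_eq_zero.1 h with h | h
    · exact absurd (by exact_mod_cast h) hn
    · exact h
  set m : ℤ := (p : ℤ) ^ T with hm
  have m0 : m ≠ 0 := by rw [hm]; positivity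
  set F := Fk ℤ p 1 T with hF
  have hmod : ∀ x y : ℤ, pi F x = pi F y ↔ x % m = y % m := by
    intro x y
    rw [pi_eq, mem_Fk1 htf p T hp, Int.emod_eq_emod_iff_emod_sub_eq_zero,
      ← Int.dvd_iff_emod_eq_zero]
    constructor
    · rintro ⟨z, hz⟩
      refine ⟨z, ?_⟩
      rw [hz, nsmul_eq_mul, hm]
      push_cast
      rfl
    · rintro ⟨z, hz⟩
      refine ⟨z, ?_⟩
      rw [hz, nsmul_eq_mul, hm]
      push_cast
      rfl
  have e := ent_eq htf p T hp A
  rw [← e]
  have c1 : (A.image (pi F)).card = (A.image fun x => x % m).card :=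
    le_antisymm (card_image_le_of A _ _ fun x _ y _ h => (hmod x y).2 h)
      (card_image_le_of A _ _ fun x _ y _ h => (hmod x y).1 h)
  have cp : (0 : ℝ) < ((A.image fun x => x % m).card : ℝ) := by
    exact_mod_cast card_pos.2 (hA.image _)
  -- the upper bound for the entropy
  have b1 : K A (pi F) / A.card ≤ log ((A.image fun x => x % m).card : ℝ) := by
    rw [div_le_iff₀ np, ← c1, mul_comm]
    exact K_le A (pi F)
  -- the lower bound
  obtain ⟨x₀, hx₀, hmax⟩ := A.exists_max_image (fun x => N A (pi F) x) hA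
  have Np : (0 : ℝ) < N A (pi F) x₀ := by exact_mod_cast N_pos hx₀
  have b2 : log ((A.card : ℝ) / N A (pi F) x₀) ≤ K A (pi F) / A.card := by
    rw [le_div_iff₀ np, K_eq, mul_comm, ← nsmul_eq_mul, ← sum_const]
    refine sum_le_sum fun x hx => ?_
    have h1 : (0 : ℝ) < N A (pi F) x := by exact_mod_cast N_pos hx
    refine log_le_log (by positivity) (div_le_div_of_nonneg_left np.le h1 ?_)
    exact_mod_cast hmax x hx
  have b3 : (A.image fun x => x % m).card * N A (pi F) x₀ ≤
      (A + A.image fun x => u • x).card := by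
    have hN : N A (pi F) x₀ = (A.filter fun x => x % m = x₀ % m).card := by
      unfold N
      congr 1
      ext x
      simp only [mem_filter, hmod]
    rw [hN, ← card_product]
    have hne : Nonempty ℤ := ⟨0⟩
    refine card_le_card_of_injOn (fun z => Function.invFunOn (fun x : ℤ => x % m) A z.1 + u • z.2)
      ?_ ?_
    · intro z hz
      rw [mem_coe, mem_product] at hz
      obtain ⟨a, ha, hav⟩ := mem_image.1 hz.1
      have h2 : z.1 ∈ (fun x : ℤ => x % m) '' (A : Set ℤ) := ⟨a, ha, hav⟩
      exact mem_coe.2 (Finset.add_mem_add (mem_coe.1 (Function.invFunOn_mem h2))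
        (mem_image_of_mem _ (mem_filter.1 hz.2).1))
    · intro z hz w hw h
      rw [mem_coe, mem_product] at hz hw
      obtain ⟨a, ha, hav⟩ := mem_image.1 hz.1
      obtain ⟨b, hb, hbv⟩ := mem_image.1 hw.1
      have h2 : z.1 ∈ (fun x : ℤ => x % m) '' (A : Set ℤ) := ⟨a, ha, hav⟩
      have h3 : w.1 ∈ (fun x : ℤ => x % m) '' (A : Set ℤ) := ⟨b, hb, hbv⟩
      have h4 := Function.invFunOn_eq h2
      have h5 := Function.invFunOn_eq h3
      simp only [smul_eq_mul] at h h4 h5
      have h6 := (mem_filter.1 hz.2).2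
      have h7 := (mem_filter.1 hw.2).2
      have h8 : z.1 = w.1 := by
        rw [← hav, ← hbv]
        have e1 : a % m = Function.invFunOn (fun x : ℤ => x % m) A z.1 % m := by
          rw [h4]; exact hav
        have e2 : b % m = Function.invFunOn (fun x : ℤ => x % m) A w.1 % m := by
          rw [h5]; exact hbv
        rw [e1, e2, Int.emod_eq_emod_iff_emod_sub_eq_zero, ← Int.dvd_iff_emod_eq_zero]
        have e3 : m ∣ z.2 - w.2 := by
          rw [Int.dvd_iff_emod_eq_zero, ← Int.emod_eq_emod_iff_emod_sub_eq_zero, h6, h7]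
        have e4 : Function.invFunOn (fun x : ℤ => x % m) A z.1 -
            Function.invFunOn (fun x : ℤ => x % m) A w.1 = -(u * (z.2 - w.2)) := by
          linear_combination h
        rw [e4]
        exact (dvd_neg).2 (Dvd.dvd.mul_left e3 u)
      rw [h8] at h
      have h9 : u * z.2 = u * w.2 := add_left_cancel h
      exact Prod.ext h8 (mul_left_cancel₀ hu h9)
  have b4 : log ((A.image fun x => x % m).card : ℝ) ≤ log κ + K A (pi F) / A.card := by
    have h1 : ((A.image fun x => x % m).card : ℝ) ≤ κ * (A.card / N A (pi F) x₀) := by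
      rw [← mul_div_assoc, le_div_iff₀ Np]
      refine le_trans ?_ hsum
      exact_mod_cast b3
    have h2 := log_le_log cp h1
    rw [log_mul κp.ne' (by positivity)] at h2
    linarith
  rw [abs_le]
  constructor
  · have := log_nonneg hκ
    linarith
  · linarith

end Pool.Agent.U234.OD
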