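import Pool.Agent.U234.OD.Dich

/-! The profile of sets of integers. -/

set_option autoImplicit false

open Finset Real
open scoped Pointwise

namespace Pool.Agent.U234.OD

open Pool.Agent.U234.LD

open scoped Classical in
/-- the entropy of the partition of `A` into the classes modulo `m Γ` -/
noncomputable def ent {Γ : Type*} [AddCommGroup Γ] (A : Finset Γ) (m : ℕ) : ℝ :=
  (∑ x ∈ A, log ((A.card : ℝ) / (A.filter fun y => ∃ z, y - x = m • z).card)) / A.card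

theorem mem_Fk1 {Γ : Type*} [AddCommGroup Γ] [i₀ : Module ℤ Γ]
    (htf : ∀ (n : ℕ) (x : Γ), n ≠ 0 → n • x = 0 → x = 0) (p t : ℕ) (hp : 0 < p) (x : Γ) :
    x ∈ Fk Γ p 1 t ↔ ∃ z, x = (p ^ t) • z := by
  obtain rfl : i₀ = AddCommGroup.toIntModule Γ := Subsingleton.elim _ _
  have e : ∀ (j : ℕ) (z : Γ), ((p : ℤ) ^ j) • z = (p ^ j) • z := by
    intro j z
    rw [← Nat.cast_pow, natCast_zsmul]
  rw [mem_Fk, one_mul]
  constructor
  · rintro ⟨i, y, h⟩
    refine ⟨y, ?_⟩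
    have h1 : (p ^ i) • (x - (p ^ t) • y) = 0 := by
      have h' : ((p : ℤ) ^ i) • x = ((p : ℤ) ^ (i + t)) • y := h
      rw [e, e] at h'
      rw [smul_sub, h', ← mul_smul, ← pow_add, sub_self]
    exact sub_eq_zero.1 (htf _ _ (by positivity) h1)
  · rintro ⟨z, rfl⟩
    refine ⟨0, z, ?_⟩
    have h' : ((p : ℤ) ^ 0) • ((p ^ t) • z) = ((p : ℤ) ^ (0 + t)) • z := by
      rw [pow_zero, one_smul, zero_add, e]
    exact h'

theorem ent_eq {Γ : Type*} [AddCommGroup Γ] [i₀ : Module ℤ Γ]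
    (htf : ∀ (n : ℕ) (x : Γ), n ≠ 0 → n • x = 0 → x = 0) (p t : ℕ) (hp : 0 < p)
    (A : Finset Γ) : K A (pi (Fk Γ p 1 t)) / A.card = ent A (p ^ t) := by
  classical
  unfold ent
  rw [K_eq]
  congr 1
  refine sum_congr rfl fun x _ => ?_
  congr 2
  unfold N
  congr 2
  ext y
  rw [mem_filter, mem_filter, pi_eq, mem_Fk1 htf p t hp]

theorem Fk1_upper {Γ : Type*} [AddCommGroup Γ] [i₀ : Module ℤ Γ] [DecidableEq Γ] (p : ℕ)
    (u : ℤ) (hu : IsCoprime u (p : ℤ)) (A : Finset Γ) (hA : A.Nonempty) (κ : ℝ) (hκ : 1 ≤ κ)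
    (hsum : ((A + A.image fun x => u • x).card : ℝ) ≤ κ * A.card) :
    (∀ s z, mulBy Γ u z ∈ Fk Γ p 1 s ↔ z ∈ Fk Γ p 1 s) ∧
    ∀ T, K (A ×ˢ A) (ps (Fk Γ p 1 T) (mulBy Γ u)) ≤
      A.card * K A (pi (Fk Γ p 1 T)) + A.card * A.card * log κ := by
  obtain rfl : i₀ = AddCommGroup.toIntModule Γ := Subsingleton.elim _ _
  have hψ : ∀ s z, mulBy Γ u z ∈ Fk Γ p 1 s ↔ z ∈ Fk Γ p 1 s := by
    intro s z
    have h := Fl_shift (M := Γ) (p : ℤ) u hu 0 (1 * s) z
    rw [pow_zero, one_mul u] at h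
    exact h
  refine ⟨hψ, fun T => ?_⟩
  have np : (0 : ℝ) < A.card := by exact_mod_cast card_pos.2 hA
  have κp : 0 < κ := by linarith
  have h1 := rel_upper (Fk Γ p 1) (mulBy Γ u) 0 hψ A A hA hA T (κ * A.card) (by
    rw [ncard_image]
    exact hsum)
  rw [log_mul κp.ne' np.ne'] at h1
  linarith

/-- the dichotomy in torsion-free groups -/
theorem dich_tf {Γ : Type*} [AddCommGroup Γ] [Module ℤ Γ] [Module.Finite ℤ Γ] [DecidableEq Γ]
    (htf : ∀ (n : ℕ) (x : Γ), n ≠ 0 → n • x = 0 → x = 0) (p : ℕ) (hp : p.Prime)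
    (u : ℤ) (hu : IsCoprime u (p : ℤ)) (A : Finset Γ) (hA : A.Nonempty) (κ : ℝ) (hκ : 1 ≤ κ)
    (hsum : ((A + A.image fun x => u • x).card : ℝ) ≤ κ * A.card) (T : ℕ) :
    (((range T).filter fun t => ¬ (ent A (p ^ (t + 1)) - ent A (p ^ t) ≤ 1 / 2000000 ∨
        (log p / 2 ≤ ent A (p ^ (t + 1)) - ent A (p ^ t) ∧
          log p / 2 ≤ ent A (p ^ (t + 2)) - ent A (p ^ (t + 1))))).card : ℝ) ≤
        10 ^ 32 * log κ ∧
      ∑ t ∈ (range T).filter fun t => ent A (p ^ (t + 1)) - ent A (p ^ t) ≤ 1 / 2000000,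
        (ent A (p ^ (t + 1)) - ent A (p ^ t)) ≤ 2 * log κ := by
  classical
  obtain ⟨hψ, hup⟩ := Fk1_upper p u hu A hA κ hκ hsum
  have h := dich (Fk Γ p 1) (by unfold Fk; rw [mul_zero, Fl_zero]; rfl) (Fk_anti Γ p 1)
    (mulBy Γ u) hψ A hA (log κ) hup p hp (fun t => fin_quot p hp.two_le (1 * t))
    (fun t g hg => by
      have h1 := order_ge p (1 * t) hp.two_le g hg (killed (R := ℤ) p (1 * t) g)
      rwa [hp.minFac_eq] at h1)
    (fun t g hg => by
      obtain ⟨n, h1, h2⟩ := Fk_order p 1 hp t g hg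
      exact ⟨n, h1, by rwa [pow_one] at h2⟩)
  obtain ⟨h1, h2⟩ := h
  have e := fun t => ent_eq htf p t hp.pos A
  constructor
  · have h3 := h1 T
    simp only [e] at h3
    exact h3
  · have h3 := h2 T
    simp only [e] at h3
    exact h3

theorem Fk_int (p t : ℕ) (hp : 0 < p) : Nat.card (Q (Fk ℤ p 1 t)) = p ^ t := by
  have h1 : Fk ℤ p 1 t = AddSubgroup.zmultiples ((p ^ t : ℕ) : ℤ) := by
    ext x
    rw [mem_Fk1 (fun n x hn h => by
      rw [nsmul_eq_mul] at h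
      rcases mul_eq_zero.1 h with h | h
      · exact absurd (by exact_mod_cast h) hn
      · exact h) p t hp x, AddSubgroup.mem_zmultiples_iff]
    constructor
    · rintro ⟨z, rfl⟩
      exact ⟨z, by rw [smul_eq_mul, nsmul_eq_mul, mul_comm]⟩
    · rintro ⟨z, rfl⟩
      exact ⟨z, by rw [smul_eq_mul, nsmul_eq_mul, mul_comm]⟩
  have h2 : Nat.card (Q (Fk ℤ p 1 t)) = (Fk ℤ p 1 t).index := rfl
  rw [h2, h1, Int.index_zmultiples]
  simp

theorem ker_int (p t : ℕ) (hp : 0 < p) : Nat.card (ker1 (Fk ℤ p 1) (Fk_anti ℤ p 1) t) = p := by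
  have h1 := AddSubgroup.card_mul_index (ker1 (Fk ℤ p 1) (Fk_anti ℤ p 1) t)
  have h2 : (ker1 (Fk ℤ p 1) (Fk_anti ℤ p 1) t).index = p ^ t := by
    unfold ker1
    rw [AddSubgroup.index_ker, AddMonoidHom.range_eq_top.2]
    · rw [← Fk_int p t hp]
      exact Nat.card_congr AddSubgroup.topEquiv.toEquiv
    · intro g
      obtain ⟨x, rfl⟩ := pih_surj _ g
      exact ⟨pih _ x, pih_pr _ _ _ x⟩
  rw [h2, Fk_int p (t + 1) hp, pow_succ, mul_comm] at h1
  exact Nat.eq_of_mul_eq_mul_left (by positivity) h1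

/-- **The profile of a set of integers.** -/
theorem prof_int (p : ℕ) (hp : p.Prime) (u : ℤ) (hu : IsCoprime u (p : ℤ)) (A : Finset ℤ)
    (hA : A.Nonempty) (κ : ℝ) (hκ : 1 ≤ κ)
    (hsum : ((A + A.image fun x => u • x).card : ℝ) ≤ κ * A.card) :
    ∃ B : Finset ℕ,
      (∀ T, |ent A (p ^ T) - (B.filter fun t => t < T).card * log p| ≤
        10 ^ 32 * log p * log κ) ∧
      |log A.card - B.card * log p| ≤ 10 ^ 32 * log p * log κ ∧
      ((B.filter fun t => t + 1 ∉ B).card : ℝ) ≤ 10 ^ 32 * log κ := by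
  classical
  obtain ⟨hψ, hup⟩ := Fk1_upper p u hu A hA κ hκ hsum
  have htf : ∀ (n : ℕ) (x : ℤ), n ≠ 0 → n • x = 0 → x = 0 := fun n x hn h => by
    rw [nsmul_eq_mul] at h
    rcases mul_eq_zero.1 h with h | h
    · exact absurd (by exact_mod_cast h) hn
    · exact h
  obtain ⟨T₀, hT₀⟩ := exists_level (Fk ℤ p 1) (Fk_anti ℤ p 1) A
  obtain ⟨B, h1, h2⟩ := prof (Fk ℤ p 1) (by unfold Fk; rw [mul_zero, Fl_zero]; rfl)
    (Fk_anti ℤ p 1) (mulBy ℤ u) hψ A hA (log κ) T₀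
    (fun t ht => stable_level _ (Fk_anti ℤ p 1) A A T₀ hT₀ Subset.rfl ht)
    hup p hp (fun t => fin_quot p hp.two_le (1 * t)) (fun t => ker_int p t hp.pos)
    (fun t g hg => by
      have h1 := order_ge p (1 * t) hp.two_le g hg (killed (R := ℤ) p (1 * t) g)
      rwa [hp.minFac_eq] at h1)
    (fun t g hg => by
      obtain ⟨n, h1, h2⟩ := Fk_order p 1 hp t g hg
      exact ⟨n, h1, by rwa [pow_one] at h2⟩)
  have e := fun t => ent_eq htf p t hp.pos A
  refine ⟨B, fun T => ?_, ?_, h2⟩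
  · have := h1 T
    rwa [e] at this
  · obtain ⟨T₁, hT₁⟩ : ∃ T₁, T₁ = max T₀ (B.sup id + 1) := ⟨_, rfl⟩
    have h3 := h1 T₁
    have h4 : B.filter (fun t => t < T₁) = B := by
      refine filter_true_of_mem fun t ht => ?_
      have : t ≤ B.sup id := le_sup (f := id) ht
      omega
    have h5 : K A (pi (Fk ℤ p 1 T₁)) / A.card = log A.card := by
      have np : (0 : ℝ) < A.card := by exact_mod_cast card_pos.2 hA
      rw [K_inj A _ fun x hx y hy h => ?_, mul_div_cancel_left₀ _ np.ne']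
      rw [pi_eq] at h
      have h6 := hT₀ y hy x hx (Fk_anti ℤ p 1 (by omega) h)
      -- divisible by all the powers of `p`
      by_contra hne
      have h7 : y - x ≠ 0 := fun h => hne (sub_eq_zero.1 h)
      obtain ⟨z, hz⟩ := (mem_Fk1 htf p (y - x).natAbs hp.pos (y - x)).1 (h6 _)
      have h8 : z ≠ 0 := by
        rintro rfl
        rw [smul_zero] at hz
        exact h7 hz
      have h9 : (y - x).natAbs = p ^ (y - x).natAbs * z.natAbs := by
        conv_lhs => rw [hz]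
        rw [nsmul_eq_mul, Int.natAbs_mul]
        simp
      have h10 : 1 ≤ z.natAbs := Int.natAbs_pos.2 h8
      have h11 : (y - x).natAbs < p ^ (y - x).natAbs := Nat.lt_pow_self hp.one_lt
      have h12 := Nat.mul_le_mul_left (p ^ (y - x).natAbs) h10
      rw [mul_one] at h12
      exact absurd (h12.trans h9.ge) (not_le.2 h11)
    rw [h4, h5] at h3
    exact h3

end Pool.Agent.U234.OD
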