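import Pool.Agent.U234.OD.Core0

/-! The profile of a set with small doubling. -/

set_option autoImplicit false

open Finset Real

namespace Pool.Agent.U234.OD

open Pool.Agent.U234.LD

variable {Γ : Type*} [AddCommGroup Γ]

/-- the profile -/
theorem prof (F : ℕ → AddSubgroup Γ) (h0 : F 0 = ⊤) (hanti : Antitone F) (ψ : Γ →+ Γ)
    (hψ : ∀ s z, ψ z ∈ F s ↔ z ∈ F s) (A : Finset Γ) (hA : A.Nonempty) (L : ℝ) (T₀ : ℕ)
    (sep : ∀ t, T₀ ≤ t → K A (pi (F t)) = K A (pi (F T₀)))
    (upper : ∀ T, K (A ×ˢ A) (ps (F T) ψ) ≤ A.card * K A (pi (F T)) + A.card * A.card * L)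
    (p : ℕ) (hp : p.Prime) (hfin : ∀ t, Finite (Q (F t)))
    (hP : ∀ t, Nat.card (ker1 F hanti t) = p)
    (hG1 : ∀ t, ∀ g : Q (F t), g ≠ 0 → p ≤ addOrderOf g)
    (hG : ∀ t, ∀ g : Q (F (t + 2)), pr F hanti (Nat.le_succ (t + 1)) g ≠ 0 → ∃ n : ℕ,
      pr F hanti (Nat.le_succ (t + 1)) (n • g) = 0 ∧ p ≤ addOrderOf (n • g)) :
    ∃ B : Finset ℕ,
      (∀ T, |K A (pi (F T)) / A.card - (B.filter fun t => t < T).card * log p| ≤
        10 ^ 32 * log p * L) ∧
      ((B.filter fun t => t + 1 ∉ B).card : ℝ) ≤ 10 ^ 32 * L := by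
  classical
  have np : (0 : ℝ) < A.card := by exact_mod_cast card_pos.2 hA
  have nn : (0 : ℝ) < A.card * A.card := mul_pos np np
  have zA : K A (pi (F 0)) = 0 := by
    refine K_const A _ fun x _ y _ => ?_
    rw [pi_eq, h0]; exact AddSubgroup.mem_top _
  have l2 := log_two_gt_d9
  have lp : log 2 ≤ log p := log_le_log (by norm_num) (by exact_mod_cast hp.two_le)
  have hlp : 0 < log (p : ℝ) := by linarith
  set η : ℕ → ℝ := fun t => (K A (pi (F (t + 1))) - K A (pi (F t))) / A.card with hη
  have eη : ∀ t, K A (pi (F (t + 1))) - K A (pi (F t)) = A.card * η t := by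
    intro t
    rw [hη]
    simp only
    rw [mul_div_cancel₀ _ np.ne']
  have η0 : ∀ t, 0 ≤ η t := fun t =>
    div_nonneg (sub_nonneg.2 (mono_level F hanti A (Nat.le_succ t))) np.le
  set cost : ℕ → ℝ := fun t =>
    (K (A ×ˢ A) (ps (F (t + 1)) ψ) - K (A ×ˢ A) (ps (F t) ψ)) / (A.card * A.card) - η t
    with hcost
  have ecost : ∀ t, K (A ×ˢ A) (ps (F (t + 1)) ψ) - K (A ×ˢ A) (ps (F t) ψ) =
      A.card * A.card * (η t + cost t) := by
    intro t
    rw [hcost]
    simp only
    rw [add_sub_cancel, mul_div_cancel₀ _ nn.ne']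
  have g1 : ∀ t, 0 ≤ cost t := by
    intro t
    have h := (gain F ψ 0 hanti hψ A t).1
    rw [eη, ecost, ← mul_assoc] at h
    have := le_of_mul_le_mul_left h nn
    linarith
  have zη : ∀ t, T₀ ≤ t → η t = 0 := by
    intro t ht
    rw [hη]
    simp only
    rw [sep t ht, sep (t + 1) (by omega), sub_self, zero_div]
  have tel : ∀ T, ∑ t ∈ range T, η t = K A (pi (F T)) / A.card := by
    intro T
    have e2 := sum_range_sub (fun t => K A (pi (F t))) T
    rw [zA, sub_zero] at e2
    rw [← e2, sum_div]
  have s3 : ∀ T, ∑ t ∈ range T, cost t ≤ L := by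
    intro T
    have e1 := sum_range_sub (fun t => K (A ×ˢ A) (ps (F t) ψ)) T
    have e2 : ∑ t ∈ range T, (K (A ×ˢ A) (ps (F (t + 1)) ψ) -
        K (A ×ˢ A) (ps (F t) ψ)) =
        A.card * A.card * (K A (pi (F T)) / A.card + ∑ t ∈ range T, cost t) := by
      rw [← tel, ← sum_add_distrib, mul_sum]
      exact sum_congr rfl fun t _ => ecost t
    rw [e2] at e1
    have h3 := K_nonneg (A ×ˢ A) (ps (F 0) ψ)
    have h4 := upper T
    have h6 : (A.card : ℝ) * A.card * (K A (pi (F T)) / A.card) = A.card * K A (pi (F T)) := by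
      rw [mul_assoc, mul_div_cancel₀ _ np.ne']
    have h5 : (A.card : ℝ) * A.card * ∑ t ∈ range T, cost t ≤ A.card * A.card * L := by
      rw [mul_add, h6] at e1
      linarith
    exact le_of_mul_le_mul_left h5 nn
  have hL0 : 0 ≤ L := by
    have := s3 0
    simpa using this
  -- small increments
  have l3 : ∀ t, η t ≤ 1 / 2000000 → η t ≤ 2 * cost t := by
    intro t h1
    have h := level F ψ 0 hanti hψ A A (1 / 10) (by norm_num) (by norm_num) t
    have e := ecost t
    have e' := eη t
    have h' : K (A ×ˢ A) (ps (F t) ψ) +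
      ((1 - 1 / 10) * (A.card * (K A (pi (F (t + 1))) - K A (pi (F t))) +
        A.card * (K A (pi (F (t + 1))) - K A (pi (F t)))) -
      2 / (1 / 10) * exp (1 / (1 / 10)) * ((K A (pi (F (t + 1))) - K A (pi (F t))) *
        (K A (pi (F (t + 1))) - K A (pi (F t))))) ≤
      K (A ×ˢ A) (ps (F (t + 1)) ψ) := h
    have e10 : (2 : ℝ) / (1 / 10) * exp (1 / (1 / 10)) = 20 * exp 10 := by norm_num
    rw [e10, e'] at h'
    have h6 : (A.card : ℝ) * A.card * ((1 - 1 / 10) * (η t + η t) -
        20 * exp 10 * (η t * η t)) ≤ A.card * A.card * (η t + cost t) := by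
      rw [← e]
      refine le_trans (le_of_eq ?_) (sub_le_sub_right h' (K (A ×ˢ A) (ps (F t) ψ)))
      ring
    have h7 := le_of_mul_le_mul_left h6 nn
    have h8 := η0 t
    have h9 : 20 * exp 10 * (η t * η t) ≤ 1 / 4 * η t := by
      have h10 : 20 * exp 10 * η t ≤ 1 / 4 := by
        refine le_trans ?_ exp_ten
        exact mul_le_mul_of_nonneg_left h1 (by positivity)
      calc 20 * exp 10 * (η t * η t) = 20 * exp 10 * η t * η t := by ring
        _ ≤ _ := mul_le_mul_of_nonneg_right h10 h8
    linarith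
  -- dichotomy
  have l4 : ∀ t, cost t ≤ 1 / (4 * 10 ^ 31) → η t ≤ 1 / 2000000 ∨ log p / 2 ≤ η t := by
    intro t h1
    have := hfin (t + 1)
    have h := level4 F ψ 0 hanti hψ A hA t p hp.two_le (hG1 (t + 1)) (1 / 12000000)
      (1 / (4 * 10 ^ 31)) (η t) (η t) (by norm_num) (by norm_num) (by norm_num)
      (eη t) (eη t) (by
        rw [ecost]
        exact mul_le_mul_of_nonneg_left (by linarith) nn.le) (by
        have : (0 : ℝ) ≤ 1 / (4 * 10 ^ 31) := by positivity
        linarith)
    rcases h with h | h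
    · left; linarith
    · right; exact h
  -- windows
  have l5 : ∀ t, cost t + cost (t + 1) ≤ 1 / (4 * 10 ^ 31) →
      η t ≤ 1 / 2000000 ∨ log p / 2 ≤ η (t + 1) := by
    intro t hle
    have := hfin (t + 1)
    have := hfin (t + 2)
    have m5 := g1 t
    have m6 := g1 (t + 1)
    have c0 : (0 : ℝ) ≤ 1 / (4 * 10 ^ 31) := by positivity
    have e1 := eη t
    have e2 := eη (t + 1)
    have e3 : K A (pi (F (t + 2))) - K A (pi (F t)) = A.card * (η t + η (t + 1)) := by
      rw [mul_add]
      linarith
    have h := level5 F ψ 0 hanti hψ A hA t p hp.two_le (hG t) (1 / 12000000)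
      (1 / (4 * 10 ^ 31)) (η t + η (t + 1)) (η t + η (t + 1)) (η t) (η t)
      (by norm_num) (by norm_num) (by norm_num) e3 e3 (eη t) (eη t) (by
        have e1 := ecost t
        have e2 := ecost (t + 1)
        have e3 : K (A ×ˢ A) (ps (F (t + 2)) ψ) - K (A ×ˢ A) (ps (F t) ψ) =
            A.card * A.card * ((η t + cost t) + (η (t + 1) + cost (t + 1))) := by
          rw [mul_add, ← e1, ← e2]
          ring
        rw [e3]
        exact mul_le_mul_of_nonneg_left (by linarith) nn.le) (by linarith) (by
        rw [ecost]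
        exact mul_le_mul_of_nonneg_left (by linarith) nn.le) (by linarith)
    rcases h with h | h
    · left; linarith
    · right; linarith
  -- the deficit
  have l6 : ∀ t, log p / 2 ≤ η t → log p - η t ≤ 10 ^ 31 * log p * cost t := by
    intro t ht
    have := hfin (t + 1)
    have h := levdef F ψ hanti hψ A hA t p hp (hP t) (η t) (cost t) (eη t) (ecost t).le ht
    refine h.trans (mul_le_mul_of_nonneg_right ?_ (g1 t))
    have : 12 * log p / ((1 / 100 : ℝ) ^ 4 / 64) = 12 * 64 * 10 ^ 8 * log p := by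
      norm_num
      ring
    rw [this]
    nlinarith
  have l7 : ∀ t, ¬ log p / 2 ≤ η t → η t ≤ 3 * 10 ^ 31 * log p * cost t := by
    intro t ht
    push Not at ht
    by_cases h1 : η t ≤ 1 / 2000000
    · refine (l3 t h1).trans (mul_le_mul_of_nonneg_right ?_ (g1 t))
      nlinarith
    · have h2 : 1 / (4 * 10 ^ 31) < cost t := by
        by_contra hno
        push Not at hno
        rcases l4 t hno with h | h
        · exact h1 h
        · linarith
      have h3 : 1 < 4 * 10 ^ 31 * cost t := by
        rw [div_lt_iff₀ (by positivity)] at h2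
        linarith
      have h4 : log p / 2 * 1 ≤ log p / 2 * (4 * 10 ^ 31 * cost t) :=
        mul_le_mul_of_nonneg_left h3.le (by linarith)
      have h5 : 0 ≤ log p * cost t := mul_nonneg hlp.le (g1 t)
      linarith
  refine ⟨(range T₀).filter fun t => log p / 2 ≤ η t, ?_, ?_⟩
  · intro T
    have e1 : ((((range T₀).filter fun t => log p / 2 ≤ η t).filter fun t => t < T).card : ℝ) *
        log p = ∑ t ∈ range T, if log p / 2 ≤ η t then log p else 0 := by
      rw [← sum_filter, sum_const, nsmul_eq_mul]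
      congr 3
      ext t
      simp only [mem_filter, mem_range]
      constructor
      · rintro ⟨⟨_, h1⟩, h2⟩; exact ⟨h2, h1⟩
      · rintro ⟨h2, h1⟩
        refine ⟨⟨?_, h1⟩, h2⟩
        by_contra hno
        rw [zη t (not_lt.1 hno)] at h1
        linarith
    rw [e1, ← tel, ← sum_sub_distrib]
    refine (abs_sum_le_sum_abs _ _).trans ?_
    have h1 : ∀ t ∈ range T, |η t - (if log p / 2 ≤ η t then log p else 0)| ≤
        10 ^ 32 * log p * cost t := by
      intro t _
      have hc : 0 ≤ log p * cost t := mul_nonneg hlp.le (g1 t)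
      by_cases h : log p / 2 ≤ η t
      · rw [if_pos h]
        have h2 := l6 t h
        -- `η t ≤ log p` is not needed: use the bound for the sum of one level
        have h3 : η t ≤ log p := by
          have hfin' := hfin (t + 1)
          have hU : ∀ x, ∀ a ∈ fib (F t) A x, ∀ b ∈ fib (F t) A x,
              pi (F (t + 1)) a - pi (F (t + 1)) b ∈ ker1 F hanti t := by
            intro x a ha b hb
            unfold ker1
            rw [AddMonoidHom.mem_ker, map_sub, pr_pi, pr_pi, (mem_fib.1 ha).2,
              (mem_fib.1 hb).2, sub_self]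
          have := Fintype.ofFinite (Q (F (t + 1)))
          have h4 : ∑ x ∈ cls (F t) A, K (fib (F t) A x) (pi (F (t + 1))) ≤
              ∑ x ∈ cls (F t) A, ((fib (F t) A x).card : ℝ) * log p := by
            refine sum_le_sum fun x hx => ?_
            obtain ⟨a₀, ha₀, hax⟩ := mem_cls.1 hx
            have ha₀' : a₀ ∈ fib (F t) A x := mem_fib.2 ⟨ha₀, hax⟩
            refine (K_le (fib (F t) A x) (pi (F (t + 1)))).trans ?_
            have hne : (fib (F t) A x).Nonempty := ⟨a₀, ha₀'⟩
            refine mul_le_mul_of_nonneg_left (log_le_log ?_ ?_) (Nat.cast_nonneg _)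
            · exact_mod_cast card_pos.2 (hne.image (pi (F (t + 1))))
            · have h6 : ((fib (F t) A x).image (pi (F (t + 1)))).card ≤ p := by
                rw [← hP t, ← card_cos (ker1 F hanti t) (pi (F (t + 1)) a₀)]
                refine card_le_card fun g hg => ?_
                obtain ⟨a, ha, rfl⟩ := mem_image.1 hg
                exact mem_cos.2 (hU x a ha a₀ ha₀')
              exact_mod_cast h6
          rw [← sum_mul, sum_card_fibre F A t, sum_fibre F A (pi (F (t + 1))) (fun x _ y _ h => by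
            rw [pi_eq] at h ⊢
            exact hanti (Nat.le_succ t) h), eη] at h4
          exact le_of_mul_le_mul_left h4 np
        rw [abs_of_nonpos (by linarith)]
        linarith
      · rw [if_neg h, sub_zero, abs_of_nonneg (η0 t)]
        have h2 := l7 t h
        linarith
    refine (sum_le_sum h1).trans ?_
    rw [← mul_sum]
    exact mul_le_mul_of_nonneg_left (s3 T) (by positivity)
  · set B := (range T₀).filter fun t => log p / 2 ≤ η t with hB
    set M := B.filter fun t => t + 1 ∉ B with hM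
    have h1 : 1 / (4 * 10 ^ 31) * (M.card : ℝ) ≤ ∑ t ∈ M, (cost t + cost (t + 1)) := by
      rw [mul_comm, ← nsmul_eq_mul]
      refine card_nsmul_le_sum M _ _ fun t ht => ?_
      obtain ⟨ht1, ht2⟩ := mem_filter.1 ht
      obtain ⟨ht3, ht4⟩ := mem_filter.1 ht1
      by_contra hno
      push Not at hno
      rcases l5 t hno.le with h | h
      · linarith
      · refine ht2 (mem_filter.2 ⟨mem_range.2 ?_, h⟩)
        by_contra hge
        rw [zη (t + 1) (not_lt.1 hge)] at h
        linarith
    rw [sum_add_distrib] at h1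
    have h6 : ∑ t ∈ M, cost t ≤ L := by
      refine le_trans ?_ (s3 T₀)
      exact sum_le_sum_of_subset_of_nonneg ((filter_subset _ _).trans (filter_subset _ _))
        fun t _ _ => g1 t
    have h7 : ∑ t ∈ M, cost (t + 1) ≤ L := by
      refine le_trans ?_ (s3 (T₀ + 1))
      have h8 : ∑ t ∈ M, cost (t + 1) = ∑ s ∈ M.image (fun t => t + 1), cost s := by
        rw [sum_image]
        intro a _ b _ h
        exact Nat.succ_injective h
      rw [h8]
      refine sum_le_sum_of_subset_of_nonneg ?_ fun t _ _ => g1 t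
      intro s hs
      obtain ⟨t, ht, rfl⟩ := mem_image.1 hs
      have := mem_range.1 (mem_filter.1 (mem_filter.1 ht).1).1
      rw [mem_range]
      omega
    have h9 : 1 / (4 * 10 ^ 31) * (M.card : ℝ) ≤ 2 * L := by linarith
    rw [div_mul_eq_mul_div, one_mul, div_le_iff₀ (by positivity)] at h9
    linarith

end Pool.Agent.U234.OD
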