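import Mathlib

/-! Sequences which are nearly invariant under many shifts. -/

set_option autoImplicit false

open Finset

namespace Pool.Agent.U234.OD

/-- the shifted sequence -/
noncomputable def sh (r : ℕ) (θ : ℕ → ℝ) (t : ℕ) : ℝ := if r ≤ t then θ (t - r) else 0

/-- the total increase -/
noncomputable def Φ (T : ℕ) (S : Finset ℕ) (θ : ℕ → ℝ) : ℝ :=
  ∑ r ∈ S, ∑ t ∈ range T, max (θ t - sh r θ t) 0

/-- pairs -/
theorem pairs (E : Finset ℕ) : 2 * ((E ×ˢ E).filter fun z => z.2 < z.1).card + E.card = E.card ^ 2 := by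
  classical
  have h1 : ((E ×ˢ E).filter fun z => z.2 < z.1).card = ((E ×ˢ E).filter fun z => z.1 < z.2).card := by
    refine card_bij (fun z _ => (z.2, z.1)) ?_ ?_ ?_
    · intro z hz
      simp only [mem_filter, mem_product] at hz ⊢
      exact ⟨⟨hz.1.2, hz.1.1⟩, hz.2⟩
    · intro z _ w _ h
      exact Prod.ext (Prod.ext_iff.1 h).2 (Prod.ext_iff.1 h).1
    · intro z hz
      simp only [mem_filter, mem_product] at hz
      exact ⟨(z.2, z.1), by simp only [mem_filter, mem_product]; exact ⟨⟨hz.1.2, hz.1.1⟩, hz.2⟩, rfl⟩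
  have h2 : ((E ×ˢ E).filter fun z => z.1 = z.2).card = E.card := by
    refine card_bij' (fun z _ => z.1) (fun x _ => (x, x)) ?_ ?_ ?_ ?_
    · intro z hz
      simp only [mem_filter, mem_product] at hz
      exact hz.1.1
    · intro x hx
      simp only [mem_filter, mem_product]
      exact ⟨⟨hx, hx⟩, trivial⟩
    · intro z hz
      simp only [mem_filter, mem_product] at hz
      exact Prod.ext rfl hz.2
    · intro x _
      rfl
  have h3 : (E ×ˢ E).card = ((E ×ˢ E).filter fun z => z.2 < z.1).card +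
      ((E ×ˢ E).filter fun z => z.1 < z.2).card + ((E ×ˢ E).filter fun z => z.1 = z.2).card := by
    rw [← card_filter_add_card_filter_not (s := E ×ˢ E) (fun z => z.2 < z.1), add_assoc]
    congr 1
    rw [← card_filter_add_card_filter_not
      (s := (E ×ˢ E).filter fun z => ¬ z.2 < z.1) (fun z => z.1 < z.2), filter_filter, filter_filter]
    congr 1
    · refine congrArg card ?_
      ext z
      simp only [mem_filter]
      constructor
      · rintro ⟨h, h4, h5⟩; exact ⟨h, h5⟩
      · rintro ⟨h, h4⟩; exact ⟨h, by omega, h4⟩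
    · refine congrArg card ?_
      ext z
      simp only [mem_filter]
      constructor
      · rintro ⟨h, h4, h5⟩; exact ⟨h, by omega⟩
      · rintro ⟨h, h4⟩; exact ⟨h, by omega, by omega⟩
  rw [card_product] at h3
  rw [sq, h3, ← h1, h2]
  ring

/-- the number of pairs `t ∈ E`, `r ∈ S` such that `t - r` is not in `E` -/
def cnt (S E : Finset ℕ) : ℕ := ((E ×ˢ S).filter fun z => ¬ (z.2 ≤ z.1 ∧ z.1 - z.2 ∈ E)).card

theorem cnt_small (S E : Finset ℕ) (hS : ∀ r ∈ S, 1 ≤ r) (h : E.card ≤ S.card) :
    S.card * E.card ≤ 2 * cnt S E := by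
  classical
  have h1 : (E ×ˢ S).card = cnt S E + ((E ×ˢ S).filter fun z => z.2 ≤ z.1 ∧ z.1 - z.2 ∈ E).card := by
    rw [← card_filter_add_card_filter_not (s := E ×ˢ S) (fun z => z.2 ≤ z.1 ∧ z.1 - z.2 ∈ E), cnt,
      add_comm]
  have h2 : ((E ×ˢ S).filter fun z => z.2 ≤ z.1 ∧ z.1 - z.2 ∈ E).card ≤
      ((E ×ˢ E).filter fun z => z.2 < z.1).card := by
    refine card_le_card_of_injOn (fun z => (z.1, z.1 - z.2)) ?_ ?_
    · intro z hz
      simp only [coe_filter, mem_product, Set.mem_ofPred_eq] at hz ⊢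
      have := hS z.2 hz.1.2
      exact ⟨⟨hz.1.1, hz.2.2⟩, by omega⟩
    · intro z hz w hw h
      simp only [coe_filter, mem_product, Set.mem_ofPred_eq] at hz hw
      obtain ⟨e1, e2⟩ := Prod.ext_iff.1 h
      dsimp only at e1 e2
      refine Prod.ext e1 ?_
      omega
  have h3 := pairs E
  rw [card_product] at h1
  nlinarith

theorem cnt_le (S E : Finset ℕ) (hS : ∀ r ∈ S, 1 ≤ r) :
    S.card * min S.card E.card ≤ 2 * cnt S E := by
  classical
  induction E using Finset.strongInduction with
  | H E ih =>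
    by_cases h : E.card ≤ S.card
    · rw [min_eq_right h]
      exact cnt_small S E hS h
    · push Not at h
      have hne : E.Nonempty := card_pos.1 (by omega)
      set m := E.max' hne with hm
      have hmE : m ∈ E := E.max'_mem hne
      have h1 := ih (E.erase m) (erase_ssubset hmE)
      rw [card_erase_of_mem hmE] at h1
      rw [min_eq_left (by omega : S.card ≤ E.card - 1)] at h1
      rw [min_eq_left h.le]
      refine h1.trans (Nat.mul_le_mul_left 2 ?_)
      unfold cnt
      refine card_le_card ?_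
      intro z hz
      simp only [mem_filter, mem_product, mem_erase] at hz ⊢
      obtain ⟨⟨⟨hz1, hz2⟩, hz3⟩, hz4⟩ := hz
      refine ⟨⟨hz2, hz3⟩, fun h5 => hz4 ⟨h5.1, ?_, h5.2⟩⟩
      have h6 : z.1 ≤ m := E.le_max' _ hz2
      have h7 := hS z.2 hz3
      omega

/-- the indicator function -/
theorem Φ_ind (T : ℕ) (S E : Finset ℕ) (hE : E ⊆ range T) :
    (cnt S E : ℝ) = Φ T S (fun t => if t ∈ E then 1 else 0) := by
  classical
  unfold cnt Φ
  rw [card_filter, sum_product_right]
  push_cast
  refine sum_congr rfl fun r _ => ?_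
  rw [← sum_subset hE]
  · refine sum_congr rfl fun t ht => ?_
    unfold sh
    rw [if_pos ht]
    by_cases h1 : r ≤ t
    · rw [if_pos h1]
      by_cases h2 : t - r ∈ E
      · simp [h1, h2]
      · simp [h2]
    · simp [h1]
  · intro t _ ht
    have h3 : (0 : ℝ) ≤ sh r (fun t => if t ∈ E then 1 else 0) t := by
      unfold sh
      by_cases h4 : r ≤ t
      · by_cases h5 : t - r ∈ E <;> simp [h4, h5]
      · simp [h4]
    simp only [if_neg ht]
    exact max_eq_right (by linarith)

/-- one layer -/
theorem Φ_layer (T : ℕ) (S : Finset ℕ) (θ : ℕ → ℝ) (h0 : ∀ t, 0 ≤ θ t) (m : ℝ) (hm : 0 ≤ m)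
    (E : Finset ℕ) (hE : ∀ t, t ∈ E ↔ 0 < θ t) (hmE : ∀ t ∈ E, m ≤ θ t) :
    Φ T S θ = m * Φ T S (fun t => if t ∈ E then 1 else 0) +
      Φ T S (fun t => max (θ t - m) 0) := by
  classical
  unfold Φ
  rw [mul_sum, ← sum_add_distrib]
  refine sum_congr rfl fun r _ => ?_
  rw [mul_sum, ← sum_add_distrib]
  refine sum_congr rfl fun t _ => ?_
  have hz : ∀ s, s ∉ E → θ s = 0 := fun s hs => le_antisymm (not_lt.1 fun h => hs ((hE s).2 h)) (h0 s)
  -- the values at `t` and the shifted ones
  have key : ∀ x y : ℝ, ∀ px py : Prop, [Decidable px] → [Decidable py] → (px → m ≤ x) →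
      (¬ px → x = 0) → (py → m ≤ y) → (¬ py → y = 0) →
      max (x - y) 0 = m * max ((if px then (1 : ℝ) else 0) - (if py then 1 else 0)) 0 +
        max (max (x - m) 0 - max (y - m) 0) 0 := by
    intro x y px py _ _ h1 h2 h3 h4
    by_cases hx : px
    · have e1 := h1 hx
      rw [if_pos hx, max_eq_left (by linarith : (0 : ℝ) ≤ x - m)]
      by_cases hy : py
      · have e2 := h3 hy
        rw [if_pos hy, max_eq_left (by linarith : (0 : ℝ) ≤ y - m)]
        simp
      · have e2 := h4 hy
        rw [if_neg hy, e2, max_eq_right (by linarith : (0 : ℝ) - m ≤ 0)]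
        rw [max_eq_left (by linarith : (0 : ℝ) ≤ x - 0), max_eq_left (by norm_num : (0 : ℝ) ≤ 1 - 0),
          max_eq_left (by linarith : (0 : ℝ) ≤ x - m - 0)]
        ring
    · have e1 := h2 hx
      rw [if_neg hx, e1, max_eq_right (by linarith : (0 : ℝ) - m ≤ 0)]
      have hy0 : 0 ≤ y := by
        by_cases hy : py
        · exact hm.trans (h3 hy)
        · rw [h4 hy]
      have e3 : (0 : ℝ) ≤ max (y - m) 0 := le_max_right _ _
      have e4 : (0 : ℝ) - (if py then (1 : ℝ) else 0) ≤ 0 := by split_ifs <;> norm_num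
      rw [max_eq_right (by linarith : (0 : ℝ) - y ≤ 0), max_eq_right e4,
        max_eq_right (by linarith : (0 : ℝ) - max (y - m) 0 ≤ 0)]
      ring
  unfold sh
  by_cases h1 : r ≤ t
  · simp only [if_pos h1]
    exact key _ _ _ _ (hmE t) (hz t) (hmE (t - r)) (hz (t - r))
  · simp only [if_neg h1]
    have := key (θ t) 0 (t ∈ E) False (hmE t) (hz t) (fun h => h.elim) (fun _ => rfl)
    simp only [if_false] at this
    rw [this]
    congr 2
    rw [max_eq_right (by linarith : (0 : ℝ) - m ≤ 0)]

theorem Φ_nonneg (T : ℕ) (S : Finset ℕ) (θ : ℕ → ℝ) : 0 ≤ Φ T S θ :=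
  sum_nonneg fun _ _ => sum_nonneg fun _ _ => le_max_right _ _

/-- first lower bound -/
theorem lc1 (T : ℕ) (S : Finset ℕ) (hS : ∀ r ∈ S, 1 ≤ r) (N : ℕ) :
    ∀ (n : ℕ) (θ : ℕ → ℝ), (∀ t, 0 ≤ θ t) → ∀ E : Finset ℕ, E ⊆ range T → (∀ t, t ∈ E ↔ 0 < θ t) →
      E.card = n → n ≤ N →
      (S.card : ℝ) * ((min S.card N : ℕ) : ℝ) * ∑ t ∈ range T, θ t ≤ 2 * N * Φ T S θ := by
  classical
  intro n
  induction n using Nat.strong_induction_on with
  | _ n ih =>
    intro θ h0 E hE hEθ hn hN
    rcases E.eq_empty_or_nonempty with he | hne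
    · have : ∑ t ∈ range T, θ t = 0 := by
        refine sum_eq_zero fun t _ => le_antisymm (not_lt.1 fun h => ?_) (h0 t)
        have := (hEθ t).2 h
        rw [he] at this
        exact absurd this (notMem_empty _)
      rw [this, mul_zero]
      exact mul_nonneg (by positivity) (Φ_nonneg _ _ _)
    · obtain ⟨t₀, ht₀, hmin⟩ := E.exists_min_image θ hne
      set m := θ t₀ with hm
      have mp : 0 < m := (hEθ t₀).1 ht₀
      set θ₁ : ℕ → ℝ := fun t => max (θ t - m) 0 with hθ₁
      set E₁ := E.filter fun t => 0 < θ₁ t with hE₁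
      have hz : ∀ s, s ∉ E → θ s = 0 := fun s hs =>
        le_antisymm (not_lt.1 fun h => hs ((hEθ s).2 h)) (h0 s)
      have hE₁θ : ∀ t, t ∈ E₁ ↔ 0 < θ₁ t := by
        intro t
        rw [hE₁, mem_filter]
        refine ⟨fun h => h.2, fun h => ⟨?_, h⟩⟩
        by_contra hc
        have h2 := hz t hc
        simp only [hθ₁, h2] at h
        rw [max_eq_right (by linarith : (0 : ℝ) - m ≤ 0)] at h
        exact lt_irrefl _ h
      have hlt : E₁.card < n := by
        rw [← hn]
        refine card_lt_card (Finset.ssubset_iff_subset_ne.2 ⟨filter_subset _ _, fun h => ?_⟩)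
        rw [← h] at ht₀
        have := (hE₁θ t₀).1 ht₀
        rw [hθ₁] at this
        simp [hm] at this
      have h1 := ih E₁.card hlt θ₁ (fun t => le_max_right _ _) E₁ ((filter_subset _ _).trans hE)
        hE₁θ rfl (by omega)
      rw [Φ_layer T S θ h0 m mp.le E hEθ hmin]
      rw [← Φ_ind T S E hE]
      have h2 : ∑ t ∈ range T, θ t = m * E.card + ∑ t ∈ range T, θ₁ t := by
        have h3 : (m * E.card : ℝ) = ∑ t ∈ range T, if t ∈ E then m else 0 := by
          rw [← sum_filter, filter_mem_eq_inter, inter_eq_right.2 hE, sum_const, nsmul_eq_mul,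
            mul_comm]
        rw [h3, ← sum_add_distrib]
        refine sum_congr rfl fun t _ => ?_
        by_cases ht : t ∈ E
        · rw [if_pos ht]
          simp only [hθ₁]
          rw [max_eq_left (by linarith [hmin t ht] : (0 : ℝ) ≤ θ t - m)]
          ring
        · rw [if_neg ht]
          simp only [hθ₁, hz t ht]
          rw [max_eq_right (by linarith : (0 : ℝ) - m ≤ 0)]
          ring
      have h4 := cnt_le S E hS
      -- `S.card * min S.card N * E.card ≤ N * (2 cnt)`
      have h5 : (S.card : ℝ) * ((min S.card N : ℕ) : ℝ) * E.card ≤ 2 * N * cnt S E := by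
        have h6 : min S.card N * E.card ≤ N * min S.card E.card := by
          rcases le_total S.card E.card with h7 | h7
          · rw [min_eq_left h7, min_eq_left (by omega)]
            nlinarith
          · rw [min_eq_right h7]
            exact Nat.mul_le_mul_right _ (min_le_right _ _)
        have h8 : S.card * min S.card N * E.card ≤ 2 * N * cnt S E := by
          calc S.card * min S.card N * E.card = S.card * (min S.card N * E.card) := by ring
            _ ≤ S.card * (N * min S.card E.card) := Nat.mul_le_mul_left _ h6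
            _ = N * (S.card * min S.card E.card) := by ring
            _ ≤ N * (2 * cnt S E) := Nat.mul_le_mul_left _ h4
            _ = _ := by ring
        exact_mod_cast h8
      rw [h2]
      have h9 := mul_le_mul_of_nonneg_left h5 mp.le
      have e1 : (S.card : ℝ) * ((min S.card N : ℕ) : ℝ) * (m * E.card + ∑ t ∈ range T, θ₁ t) =
          m * ((S.card : ℝ) * ((min S.card N : ℕ) : ℝ) * E.card) +
            (S.card : ℝ) * ((min S.card N : ℕ) : ℝ) * ∑ t ∈ range T, θ₁ t := by ring
      have e2 : 2 * (N : ℝ) * (m * cnt S E + Φ T S θ₁) =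
          m * (2 * N * cnt S E) + 2 * N * Φ T S θ₁ := by ring
      rw [e1, e2]
      exact add_le_add h9 h1

/-- second lower bound -/
theorem lc2 (T : ℕ) (S : Finset ℕ) (hS : ∀ r ∈ S, 1 ≤ r) (B : Finset ℕ) :
    ∀ (n : ℕ) (θ : ℕ → ℝ) (β : ℝ), 0 ≤ β → (∀ t, 0 ≤ θ t) → ∀ E : Finset ℕ, E ⊆ range T →
      (∀ t, t ∈ E ↔ 0 < θ t) → E.card = n → (∀ t ∈ B, β ≤ θ t) → (∀ t ∈ B, t ∈ E) →
      β * ((S.card : ℝ) * ((min S.card B.card : ℕ) : ℝ)) ≤ 2 * Φ T S θ := by
  classical
  intro n
  induction n using Nat.strong_induction_on with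
  | _ n ih =>
    intro θ β hβ h0 E hE hEθ hn hB hBE
    rcases E.eq_empty_or_nonempty with he | hne
    · have : B = ∅ := by
        refine eq_empty_of_forall_notMem fun t ht => ?_
        have := hBE t ht
        rw [he] at this
        exact absurd this (notMem_empty _)
      rw [this]
      simp only [card_empty]
      rw [min_eq_right (Nat.zero_le _), Nat.cast_zero, mul_zero, mul_zero]
      exact mul_nonneg (by positivity) (Φ_nonneg _ _ _)
    · obtain ⟨t₀, ht₀, hmin⟩ := E.exists_min_image θ hne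
      set m := θ t₀ with hm
      have mp : 0 < m := (hEθ t₀).1 ht₀
      set θ₁ : ℕ → ℝ := fun t => max (θ t - m) 0 with hθ₁
      set E₁ := E.filter fun t => 0 < θ₁ t with hE₁
      have hz : ∀ s, s ∉ E → θ s = 0 := fun s hs =>
        le_antisymm (not_lt.1 fun h => hs ((hEθ s).2 h)) (h0 s)
      have hE₁θ : ∀ t, t ∈ E₁ ↔ 0 < θ₁ t := by
        intro t
        rw [hE₁, mem_filter]
        refine ⟨fun h => h.2, fun h => ⟨?_, h⟩⟩
        by_contra hc
        have h2 := hz t hc
        simp only [hθ₁, h2] at h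
        rw [max_eq_right (by linarith : (0 : ℝ) - m ≤ 0)] at h
        exact lt_irrefl _ h
      have hlt : E₁.card < n := by
        rw [← hn]
        refine card_lt_card (Finset.ssubset_iff_subset_ne.2 ⟨filter_subset _ _, fun h => ?_⟩)
        rw [← h] at ht₀
        have := (hE₁θ t₀).1 ht₀
        rw [hθ₁] at this
        simp [hm] at this
      rw [Φ_layer T S θ h0 m mp.le E hEθ hmin, ← Φ_ind T S E hE]
      have h4 : (S.card : ℝ) * ((min S.card B.card : ℕ) : ℝ) ≤ 2 * cnt S E := by
        have h5 := cnt_le S E hS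
        have h6 : S.card * min S.card B.card ≤ 2 * cnt S E :=
          (Nat.mul_le_mul_left _ (min_le_min_left _ (card_le_card hBE))).trans h5
        exact_mod_cast h6
      have h7 : (0 : ℝ) ≤ S.card * ((min S.card B.card : ℕ) : ℝ) := by positivity
      rcases le_or_gt β m with h8 | h8
      · have h9 := Φ_nonneg T S θ₁
        have h10 : β * ((S.card : ℝ) * ((min S.card B.card : ℕ) : ℝ)) ≤
            m * (2 * cnt S E) := mul_le_mul h8 h4 h7 mp.le
        rw [mul_add]
        have e : 2 * (m * (cnt S E : ℝ)) = m * (2 * cnt S E) := by ring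
        rw [e]
        linarith
      · have h1 := ih E₁.card hlt θ₁ (β - m) (by linarith) (fun t => le_max_right _ _) E₁
          ((filter_subset _ _).trans hE) hE₁θ rfl (fun t ht => by
            refine le_trans ?_ (le_max_left _ _)
            linarith [hB t ht]) (fun t ht => by
            rw [hE₁θ]
            refine lt_of_lt_of_le ?_ (le_max_left _ _)
            linarith [hB t ht])
        have h9 := mul_le_mul_of_nonneg_left h4 mp.le
        rw [mul_add]
        have e : 2 * (m * (cnt S E : ℝ)) = m * (2 * cnt S E) := by ring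
        rw [e]
        linarith

end Pool.Agent.U234.OD
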